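import Pool.Agent.TH91.RF.Ex2
import Pool.Agent.Helper611.PcChain
import Pool.Agent.Helper28.BN.P_noTor_center
import Pool.Agent.Helper111.EN.Basic

/-!
# Finitely generated torsion-free nilpotent groups have Mal'cev completions
-/

set_option autoImplicit false

namespace Pool.Agent.Q26.RF

open Finset Pool.Agent.TH91.RF Pool.Agent.Helper611.PcChain Pool.Agent.Helper611.PcFun

/-! ### Bases adapted to a flag -/

theorem flag_basis {K V : Type*} [Field K] [AddCommGroup V] [Module K V] (W : ℕ → Submodule K V)
    (hW0 : W 0 = ⊥) (hfin : ∀ k, Module.Finite K (W k)) (mono : ∀ k, W k ≤ W (k + 1)) :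
    ∀ e : ℕ, ∃ (n : ℕ) (v : Fin n → V), LinearIndependent K v ∧
      Submodule.span K (Set.range v) = W e ∧
      ∀ i : Fin n, ∃ k, k < e ∧ v i ∈ W (k + 1) ∧ W k ≤ Submodule.span K (v '' {j | j < i}) := by
  intro e
  induction e with
  | zero =>
    refine ⟨0, Fin.elim0, linearIndependent_empty_type, ?_, fun i => i.elim0⟩
    rw [hW0]
    simp
  | succ e ih =>
    obtain ⟨n, v, hv, hspan, hlev⟩ := ih
    obtain ⟨C, hC⟩ := ((W e).comap (W (e + 1)).subtype).exists_isCompl
    have := hfin (e + 1)
    set w : Fin (Module.finrank K C) → V := fun i => ((Module.finBasis K C i : C) : W (e + 1))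
      with hw
    set C' : Submodule K V := C.map (W (e + 1)).subtype with hC'
    have hwli : LinearIndependent K w := by
      have h1 := (Module.finBasis K C).linearIndependent
      have h2 := (h1.map' C.subtype (Submodule.ker_subtype _)).map' (W (e + 1)).subtype
        (Submodule.ker_subtype _)
      exact h2
    have hwspan : Submodule.span K (Set.range w) = C' := by
      have h1 : Set.range w = (W (e + 1)).subtype '' (C.subtype '' Set.range
          (Module.finBasis K C)) := by
        ext x
        simp [hw]
      rw [h1, ← Submodule.map_span, ← Submodule.map_span, Module.Basis.span_eq, hC',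
        Submodule.map_top, Submodule.range_subtype]
    have hdis : Disjoint (W e) C' := by
      rw [Submodule.disjoint_def]
      intro x hx hxC
      rw [hC', Submodule.mem_map] at hxC
      obtain ⟨y, hy, rfl⟩ := hxC
      have h1 : y ∈ (W e).comap (W (e + 1)).subtype ⊓ C := ⟨hx, hy⟩
      rw [hC.inf_eq_bot] at h1
      rw [Submodule.mem_bot] at h1
      rw [h1, map_zero]
    have hsup : W e ⊔ C' = W (e + 1) := by
      have h1 := congrArg (fun M => Submodule.map (W (e + 1)).subtype M) hC.sup_eq_top
      rw [Submodule.map_sup, Submodule.map_top, Submodule.range_subtype,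
        Submodule.map_comap_subtype, inf_eq_right.2 (mono e)] at h1
      exact h1
    have happ : Fin.append v w = Sum.elim v w ∘ finSumFinEquiv.symm := by
      ext i
      refine Fin.addCases (fun i => ?_) (fun i => ?_) i
      · simp
      · simp
    have hrange : Set.range (Fin.append v w) = Set.range v ∪ Set.range w := by
      rw [happ, finSumFinEquiv.symm.surjective.range_comp, Set.Sum.elim_range]
    refine ⟨n + Module.finrank K C, Fin.append v w, ?_, ?_, ?_⟩
    · rw [happ]
      have h1 : LinearIndependent K (Sum.elim v w) := by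
        refine hv.sum_type hwli ?_
        rw [hspan, hwspan]
        exact hdis
      exact h1.comp _ finSumFinEquiv.symm.injective
    · rw [hrange, Submodule.span_union, hspan, hwspan, hsup]
    · intro i
      refine Fin.addCases (fun i => ?_) (fun i => ?_) i
      · obtain ⟨k, hk, h1, h2⟩ := hlev i
        refine ⟨k, by omega, ?_, ?_⟩
        · rwa [Fin.append_left]
        · refine h2.trans (Submodule.span_mono ?_)
          rintro _ ⟨j, hj, rfl⟩
          refine ⟨Fin.castAdd _ j, ?_, Fin.append_left _ _ _⟩
          have hj' : j < i := hj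
          rw [Set.mem_ofPred_eq, Fin.lt_def]
          simp only [Fin.val_castAdd]
          exact hj'
      · refine ⟨e, by omega, ?_, ?_⟩
        · rw [Fin.append_right]
          exact ((Module.finBasis K C i : C) : W (e + 1)).2
        · rw [← hspan]
          refine Submodule.span_mono ?_
          rintro _ ⟨j, rfl⟩
          refine ⟨Fin.castAdd _ j, ?_, Fin.append_left _ _ _⟩
          have h1 := j.2
          rw [Set.mem_ofPred_eq, Fin.lt_def]
          simp only [Fin.val_castAdd, Fin.val_natAdd]
          omega

/-! ### Chains -/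

theorem Chain_trans {G : Type*} [Group G] {A B C : Subgroup G} (h1 : Chain A B) (h2 : Chain B C) :
    Chain A C := by
  induction h2 with
  | refl => exact h1
  | step _ hle κ hκ ih => exact ih.step hle κ hκ

theorem chain_of_embedding {G : Type*} [Group G] (n : ℕ) : ∀ (A : Subgroup G)
    (f : ↥A →* Multiplicative (Fin n → ℤ)), Function.Injective f → Chain ⊥ A := by
  induction n with
  | zero =>
    intro A f hf
    have h1 : A = ⊥ := by
      rw [Subgroup.eq_bot_iff_forall]
      intro x hx
      have h2 : (⟨x, hx⟩ : A) = 1 := hf (by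
        apply Multiplicative.toAdd.injective
        exact Subsingleton.elim _ _)
      exact congrArg Subtype.val h2
    rw [h1]
    exact Chain.refl _
  | succ n ih =>
    intro A f hf
    let κ : ↥A →* Multiplicative ℤ :=
      { toFun := fun x => Multiplicative.ofAdd ((f x).toAdd (Fin.last n))
        map_one' := by
          rw [map_one]
          rfl
        map_mul' := by
          intro x y
          rw [map_mul]
          rfl }
    set R : Subgroup G := κ.ker.map A.subtype with hR
    have hmem : ∀ x : G, x ∈ R ↔ ∃ hx : x ∈ A, κ ⟨x, hx⟩ = 1 := by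
      intro x
      rw [hR, Subgroup.mem_map]
      constructor
      · rintro ⟨y, hy, rfl⟩
        exact ⟨y.2, hy⟩
      · rintro ⟨hx, h1⟩
        exact ⟨⟨x, hx⟩, h1, rfl⟩
    have hRA : R ≤ A := fun x hx => ((hmem x).1 hx).1
    have h1 : Chain ⊥ R := by
      let g : ↥R →* Multiplicative (Fin n → ℤ) :=
        { toFun := fun x => Multiplicative.ofAdd
            (fun i => (f (Subgroup.inclusion hRA x)).toAdd i.castSucc)
          map_one' := by
            rw [map_one, map_one]
            rfl
          map_mul' := by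
            intro x y
            rw [map_mul, map_mul]
            rfl }
      refine ih R g ?_
      intro x y hxy
      apply Subgroup.inclusion_injective hRA
      apply hf
      apply Multiplicative.toAdd.injective
      ext i
      refine Fin.lastCases ?_ (fun i => ?_) i
      · have h2 : ∀ x : ↥R, (f (Subgroup.inclusion hRA x)).toAdd (Fin.last n) = 0 := by
          intro x
          obtain ⟨_, h3⟩ := (hmem x).1 x.2
          exact congrArg Multiplicative.toAdd h3
        rw [h2, h2]
      · exact congrFun (congrArg Multiplicative.toAdd hxy) i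
    refine h1.step hRA κ ?_
    intro x
    rw [hmem]
    exact ⟨fun h => ⟨x.2, h⟩, fun ⟨_, h⟩ => h⟩

/-- a torsion-free finitely generated commutative subgroup has a chain -/
theorem chain_of_comm {G : Type*} [Group G] (A : Subgroup G) (hA : Group.FG ↥A)
    (hcomm : ∀ x y : ↥A, x * y = y * x) (htf : ∀ x : ↥A, ∀ n : ℕ, 0 < n → x ^ n = 1 → x = 1) :
    Chain ⊥ A := by
  let : CommGroup ↥A := { (inferInstance : Group ↥A) with mul_comm := hcomm }
  have h1 : Module.Finite ℤ (Additive ↥A) := by
    rw [Module.Finite.iff_addGroup_fg]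
    exact GroupFG.iff_add_fg.1 hA
  have h2 : IsAddTorsionFree (Additive ↥A) := by
    refine ⟨fun n hn a b hab => ?_⟩
    have h3 : n • (a - b) = 0 := by
      rw [smul_sub]
      exact sub_eq_zero.2 hab
    have h4 : (Additive.toMul (a - b)) ^ n = 1 := h3
    have h5 := htf _ n (Nat.pos_of_ne_zero hn) h4
    exact sub_eq_zero.1 h5
  set B := Module.finBasis ℤ (Additive ↥A) with hB
  refine chain_of_embedding _ A
    { toFun := fun x => Multiplicative.ofAdd (B.equivFun (Additive.ofMul x))
      map_one' := by
        rw [ofMul_one, map_zero, ofAdd_zero]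
      map_mul' := by
        intro x y
        rw [ofMul_mul, map_add, ofAdd_add] } ?_
  intro x y hxy
  exact B.equivFun.injective hxy

open Helper28.BN in
theorem chain_nilpotent (G : Type*) [Group G] [Group.IsNilpotent G] (hfg : Group.FG G)
    (htf : ∀ x : G, ∀ n : ℕ, 0 < n → x ^ n = 1 → x = 1) : Chain (⊥ : Subgroup G) ⊤ := by
  refine Group.nilpotent_center_quotient_ind (P := fun G _ _ => Group.FG G →
    (∀ x : G, ∀ n : ℕ, 0 < n → x ^ n = 1 → x = 1) → Chain (⊥ : Subgroup G) ⊤) G ?_ ?_ hfg htf
  · intro G _ _ _ _
    have h1 : (⊤ : Subgroup G) = ⊥ := Subsingleton.elim _ _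
    rw [h1]
    exact Chain.refl _
  · intro G _ _ ih hfg htf
    have hnt : NoTor Set.univ G := fun x m hm hx => htf x m hm.1 hx
    have hq := ih (QuotientGroup.fg _) (fun x n hn hx =>
      noTor_center _ G hnt x n ⟨hn, fun q _ _ => Set.mem_univ q⟩ hx)
    have h1 := hq.comap (QuotientGroup.mk' (Subgroup.center G))
    rw [MonoidHom.comap_bot, QuotientGroup.ker_mk', Subgroup.comap_top] at h1
    refine Chain_trans (chain_of_comm (Subgroup.center G) ?_ ?_ ?_) h1
    · rw [Group.fg_iff_subgroup_fg]
      exact Helper111.EN.center_fg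
    · intro x y
      apply Subtype.ext
      exact (Subgroup.mem_center_iff.1 y.2 x)
    · intro x n hn hx
      apply Subtype.ext
      exact htf x n hn (congrArg Subtype.val hx)

/-- the right translations on the polynomial functions -/
noncomputable def Rg (X : Type*) [Group X] (e : ℕ) : X →* Module.End ℚ (P ℚ (⊤ : Subgroup X) e) where
  toFun g :=
    { toFun := fun f => ⟨fun x => (f : X → ℚ) (x * g), right_mem_P f.2 g⟩
      map_add' := fun _ _ => rfl
      map_smul' := fun _ _ => rfl }
  map_one' := by
    refine LinearMap.ext fun f => Subtype.ext (funext fun x => ?_)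
    change (f : X → ℚ) (x * 1) = (f : X → ℚ) x
    rw [mul_one]
  map_mul' a b := by
    refine LinearMap.ext fun f => Subtype.ext (funext fun x => ?_)
    change (f : X → ℚ) (x * (a * b)) = (f : X → ℚ) (x * a * b)
    rw [mul_assoc]

theorem Rg_apply {X : Type*} [Group X] {e : ℕ} (g : X) (f : P ℚ (⊤ : Subgroup X) e) (x : X) :
    ((Rg X e g f : P ℚ (⊤ : Subgroup X) e) : X → ℚ) x = (f : X → ℚ) (x * g) := rfl

theorem completion_of_sep (X : Type*) [Group X] (hX : Group.FG X) (e : ℕ)
    (hsep : Sep (P ℚ (⊤ : Subgroup X) e)) : Nonempty (MalcevCompletion X) := by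
  have hfinP := finite_P (K := ℚ) hX
  have hfin := hfinP e
  set E := ↥(P ℚ (⊤ : Subgroup X) e) with hE
  set W : ℕ → Submodule ℚ (P ℚ (⊤ : Subgroup X) e) := fun k =>
    (P ℚ (⊤ : Subgroup X) k).comap (P ℚ (⊤ : Subgroup X) e).subtype with hW
  have hW0 : W 0 = ⊥ := by
    rw [eq_bot_iff]
    intro f hf
    have h1 : (f : X → ℚ) ∈ P ℚ (⊤ : Subgroup X) 0 := hf
    rw [mem_P_zero] at h1
    rw [Submodule.mem_bot]
    exact Subtype.ext h1
  have hWe : W e = ⊤ := by
    rw [eq_top_iff]
    intro f _
    exact f.2
  obtain ⟨n, v, hv, hspan, hlev⟩ := flag_basis W hW0 (fun k => inferInstance)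
    (fun k f hf => P_mono_succ _ _ hf) e
  rw [hWe] at hspan
  set b : Module.Basis (Fin n) ℚ (P ℚ (⊤ : Subgroup X) e) := Module.Basis.mk hv hspan.ge with hb
  have hbv : ∀ i, b i = v i := fun i => by rw [hb, Module.Basis.mk_apply]
  set ρ : X →* Matrix (Fin n) (Fin n) ℚ :=
    ((LinearMap.toMatrixAlgEquiv b).toMonoidHom : _ →* _).comp (Rg X e) with hρ
  have hρa : ∀ g, ρ g = LinearMap.toMatrixAlgEquiv b (Rg X e g) := fun g => rfl
  have hD : ∀ g k, ∀ f ∈ W (k + 1), Rg X e g f - f ∈ W k := by
    intro g k f hf
    have h1 := (mem_P_succ.1 hf) g (Subgroup.mem_top g)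
    exact h1
  refine completion_of_unipotent (N := n) ρ ?_ ?_
  · rw [injective_iff_map_eq_one]
    intro g hg
    rw [hρa, ← map_one (LinearMap.toMatrixAlgEquiv b)] at hg
    have h1 := (LinearMap.toMatrixAlgEquiv b).injective hg
    apply hsep
    intro f hf
    have h2 := congrFun (congrArg Subtype.val (LinearMap.congr_fun h1 ⟨f, hf⟩)) 1
    rw [Rg_apply, one_mul] at h2
    exact h2
  · intro g
    rw [mem_matFilt]
    intro j i hij
    rw [hρa, ← map_one (LinearMap.toMatrixAlgEquiv b), ← map_sub, LinearMap.toMatrixAlgEquiv_apply]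
    obtain ⟨k, hk, h1, h2⟩ := hlev i
    rw [← hbv] at h1
    have h3 := h2 (hD g k _ h1)
    have h4 : (Rg X e g - 1) (b i) = Rg X e g (b i) - b i := rfl
    rw [h4]
    have h5 : ∀ y ∈ Submodule.span ℚ (v '' {j | j < i}), b.repr y j = 0 := by
      intro y hy
      induction hy using Submodule.span_induction with
      | mem y hy =>
        obtain ⟨l, hl, rfl⟩ := hy
        rw [← hbv, Module.Basis.repr_self, Finsupp.single_apply, if_neg]
        rintro rfl
        have hl' : l < i := hl
        rw [Fin.lt_def] at hl'
        omega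
      | zero => rw [map_zero]; rfl
      | add y z _ _ hy hz => rw [map_add, Finsupp.add_apply, hy, hz, add_zero]
      | smul c y _ hy => rw [map_smul, Finsupp.smul_apply, hy, smul_zero]
    exact h5 _ h3

/-- **Existence of Mal'cev completions.** -/
theorem exists_completion (G : Type*) [Group G] [Group.IsNilpotent G] (hfg : Group.FG G)
    (htf : ∀ x : G, ∀ n : ℕ, 0 < n → x ^ n = 1 → x = 1) : Nonempty (MalcevCompletion G) := by
  have h1 := chain_nilpotent G hfg htf
  obtain ⟨e, he⟩ := sep_of_chain ℚ h1 (Group.isNilpotent_top.2 inferInstance)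
  obtain ⟨c⟩ := completion_of_sep ↥(⊤ : Subgroup G)
    ((Group.fg_iff_subgroup_fg _).2 Group.FG.out) e he
  let ψ : G ≃* ↥(⊤ : Subgroup G) := Subgroup.topEquiv.symm
  exact ⟨⟨c.N, c.L, c.upper, c.ρ.comp ψ.toMonoidHom, c.injective.comp ψ.injective,
    fun g => c.exp_mem (ψ g), fun X hX => by
      obtain ⟨m, hm, g, hg⟩ := c.dense X hX
      refine ⟨m, hm, ψ.symm g, ?_⟩
      rw [← hg]
      change c.ρ (ψ (ψ.symm g)) = c.ρ g
      rw [MulEquiv.apply_symm_apply]⟩⟩

end Pool.Agent.Q26.RF
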