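import Pool.Agent.Q26.RF.Inv

/-!
# Residual finiteness growth is determined by the complex Mal'cev completion
-/

set_option autoImplicit false

namespace Pool.Agent.Q26.RF

open Finset Matrix Pool.Agent.TH91.RF

attribute [local instance 100] LieRing.ofAssociativeRing

/-- exponential word length gives logarithmic growth -/
theorem asym (f : ℕ → ℕ) (e w C : ℕ) (h1 : ∀ n, 1 ≤ n → 1 ≤ f n)
    (h2 : ∀ m n : ℕ, (w : ℝ) * Real.exp (C * (m + 1)) ≤ n → m ^ e ≤ f n) :
    ∃ C' : ℕ, ∀ n : ℕ, 1 ≤ n → (Real.log n + 1) ^ e ≤ C' * (f n : ℝ) := by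
  set c : ℝ := C + 1 with hc
  set w' : ℝ := w + 1 with hw'
  have hc1 : 1 ≤ c := by
    rw [hc]
    have : (0 : ℝ) ≤ C := Nat.cast_nonneg C
    linarith
  have hw1 : 1 ≤ w' := by
    rw [hw']
    have : (0 : ℝ) ≤ w := Nat.cast_nonneg w
    linarith
  have hlw : 0 ≤ Real.log w' := Real.log_nonneg hw1
  set B : ℝ := 2 * (Real.log w' + 2 * c) + 1 with hB
  refine ⟨⌈(4 * c) ^ e + B ^ e⌉₊, fun n hn => ?_⟩
  have hnR : (1 : ℝ) ≤ n := by exact_mod_cast hn
  have hln : 0 ≤ Real.log n := Real.log_nonneg hnR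
  have hf1 : (1 : ℝ) ≤ f n := by exact_mod_cast h1 n hn
  have hceil := Nat.le_ceil ((4 * c) ^ e + B ^ e)
  have hB0 : 0 ≤ B ^ e := by positivity
  have hc0 : 0 ≤ (4 * c) ^ e := by positivity
  rcases le_or_gt (2 * (Real.log w' + 2 * c)) (Real.log n) with hbig | hsmall
  · set t : ℝ := (Real.log n - Real.log w') / c - 1 with ht
    have ht0 : 0 ≤ t := by
      rw [ht, sub_nonneg, le_div_iff₀ (by linarith)]
      linarith
    set m : ℕ := ⌊t⌋₊ with hm
    have hm1 : (m : ℝ) ≤ t := Nat.floor_le ht0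
    have hm2 : t < m + 1 := Nat.lt_floor_add_one t
    have h3 : (w : ℝ) * Real.exp (C * (m + 1)) ≤ n := by
      calc (w : ℝ) * Real.exp (C * (m + 1)) ≤ w' * Real.exp (c * (m + 1)) := by
            refine mul_le_mul (by rw [hw']; linarith) (Real.exp_le_exp.2 ?_)
              (Real.exp_pos _).le (by linarith)
            have : (0 : ℝ) ≤ m := Nat.cast_nonneg m
            rw [hc]
            nlinarith
        _ ≤ w' * Real.exp (Real.log n - Real.log w') := by
            refine mul_le_mul_of_nonneg_left (Real.exp_le_exp.2 ?_) (by linarith)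
            have h4 : (m : ℝ) + 1 ≤ (Real.log n - Real.log w') / c := by linarith
            rw [le_div_iff₀ (by linarith)] at h4
            linarith
        _ = n := by
            rw [Real.exp_sub, Real.exp_log (by linarith), Real.exp_log (by linarith)]
            field_simp
    have h4 := h2 m n h3
    have h5 : Real.log n + 1 ≤ 4 * c * m := by
      have h6 : (Real.log n - Real.log w') / c < m + 2 := by linarith
      rw [div_lt_iff₀ (by linarith)] at h6
      nlinarith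
    calc (Real.log n + 1) ^ e ≤ (4 * c * m) ^ e := pow_le_pow_left₀ (by linarith) h5 e
      _ = (4 * c) ^ e * (m : ℝ) ^ e := by rw [mul_pow]
      _ ≤ (4 * c) ^ e * (f n : ℝ) := by
          refine mul_le_mul_of_nonneg_left ?_ hc0
          exact_mod_cast h4
      _ ≤ ⌈(4 * c) ^ e + B ^ e⌉₊ * (f n : ℝ) := by
          refine mul_le_mul_of_nonneg_right ?_ (by linarith)
          linarith
  · have h5 : Real.log n + 1 ≤ B := by
      rw [hB]
      linarith
    calc (Real.log n + 1) ^ e ≤ B ^ e := pow_le_pow_left₀ (by linarith) h5 e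
      _ ≤ B ^ e * (f n : ℝ) := le_mul_of_one_le_right hB0 hf1
      _ ≤ ⌈(4 * c) ^ e + B ^ e⌉₊ * (f n : ℝ) := by
          refine mul_le_mul_of_nonneg_right ?_ (by linarith)
          linarith

variable {G : Type*} [Group G]

theorem mem_filt (c : MalcevCompletion G) {X : Matrix (Fin c.N) (Fin c.N) ℚ} (hX : X ∈ c.L) :
    X ∈ (matFilt c.N).F 1 := by
  rw [mem_matFilt]
  intro i j hij
  refine c.upper _ hX i j ?_
  rw [Fin.le_def]
  omega

theorem eq_zero_of_exp (c : MalcevCompletion G) {X : Matrix (Fin c.N) (Fin c.N) ℚ}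
    (hX : X ∈ c.L) (h : IsNilpotent.exp X = 1) : X = 0 := by
  refine (matFilt c.N).exp_inj (mem_filt c hX) (Submodule.zero_mem _) ?_
  rw [h, IsNilpotent.exp_zero]

theorem adapted_bot (c : MalcevCompletion G) {h : ℕ}
    (b : Module.Basis (Fin h) ℚ c.L) (T : Fin h → Matrix (Fin h) (Fin h) ℤ)
    (hT : ∀ l i, ⁅b l, b i⁆ = ∑ j, (T l j i) • b j) : Adapted c ⊥ b T univ := by
  have h0 : ∀ x : c.L, Off univ (b.repr x) ↔ x = 0 := by
    intro x
    constructor
    · intro hx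
      have : b.repr x = 0 := by
        ext i
        exact hx i (mem_univ i)
      rwa [LinearEquiv.map_eq_zero_iff] at this
    · rintro rfl i _
      rw [map_zero]
      rfl
  refine ⟨hT, ?_, ?_⟩
  · intro x
    rw [h0]
    constructor
    · rintro rfl
      refine ⟨1, one_pos, 1, Subgroup.one_mem _, ?_⟩
      rw [map_one, one_smul]
      exact IsNilpotent.exp_zero.symm
    · rintro ⟨m, hm, g, hg, hgx⟩
      rw [Subgroup.mem_bot] at hg
      rw [hg, map_one] at hgx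
      have h1 := eq_zero_of_exp c (c.L.toSubmodule.nsmul_mem x.2 m) hgx.symm
      apply Subtype.val_injective
      rw [← Nat.cast_smul_eq_nsmul ℚ, smul_eq_zero] at h1
      rcases h1 with h1 | h1
      · exact absurd (by exact_mod_cast h1 : m = 0) (by omega)
      · exact h1
  · intro x y hx _
    rw [h0] at hx
    rw [hx, h0, zero_lie]

theorem depth_le {g : G} {K : Subgroup G} (hn : K.Normal) (hf : K.FiniteIndex) (hg : g ∉ K) :
    depth g ≤ K.index := Nat.sInf_le ⟨K, hn, hf, hg, rfl⟩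

theorem depth_spec {g : G} (h : ∃ K : Subgroup G, K.Normal ∧ K.FiniteIndex ∧ g ∉ K) :
    ∃ K : Subgroup G, K.Normal ∧ K.FiniteIndex ∧ g ∉ K ∧ K.index = depth g := by
  obtain ⟨K, h1, h2, h3⟩ := h
  exact Nat.sInf_mem (s := {m : ℕ | ∃ K : Subgroup G, K.Normal ∧ K.FiniteIndex ∧ g ∉ K ∧
    K.index = m}) ⟨_, K, h1, h2, h3, rfl⟩

section

variable (c : MalcevCompletion G) {S : Set G} (hS : S.Finite) (hgen : Subgroup.closure S = ⊤)
  {h : ℕ} (b : Module.Basis (Fin h) ℚ c.L) (T : Fin h → Matrix (Fin h) (Fin h) ℤ)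
  (hT : ∀ l i, ⁅b l, b i⁆ = ∑ j, (T l j i) • b j)

include c hS hgen b T hT

theorem rf_upper' (e : ℕ) (hF : RFull T univ ℂ e) :
    ∃ C : ℕ, ∀ n : ℕ, 1 ≤ n → ∀ g : G, g ≠ 1 → wordLen S g ≤ n →
      (∃ K : Subgroup G, K.Normal ∧ K.FiniteIndex ∧ g ∉ K) ∧
        (depth g : ℝ) ≤ C * (Real.log n + 1) ^ e := by
  have hA := adapted_bot c b T hT
  obtain ⟨C, hC⟩ := upper c ⊥ hS hgen b T hT univ (by
    intro g hg X hX hgX
    exact (hA.off ⟨X, hX⟩).2 ⟨1, one_pos, g, hg, by rw [one_smul]; exact hgX⟩) e hF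
  refine ⟨C, fun n hn g hg hgn => ?_⟩
  obtain ⟨X, hX, hgX⟩ := c.exp_mem g
  obtain ⟨K, hKn, hKf, hK, hKi⟩ := hC n hn g hgn X hX hgX (by
    intro hoff
    apply hg
    obtain ⟨m, hm, g', hg', hgx'⟩ := (hA.off ⟨X, hX⟩).1 hoff
    rw [Subgroup.mem_bot] at hg'
    rw [hg', map_one] at hgx'
    have h1 := eq_zero_of_exp c (c.L.toSubmodule.nsmul_mem hX m) hgx'.symm
    rw [← Nat.cast_smul_eq_nsmul ℚ, smul_eq_zero] at h1
    rcases h1 with h1 | h1
    · exact absurd (by exact_mod_cast h1 : m = 0) (by omega)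
    · apply c.injective
      rw [hgX, h1, IsNilpotent.exp_zero, map_one])
  have hgK : g ∉ K := fun hgK => hK 1 (Subgroup.one_mem _) g hgK (one_mul g).symm
  refine ⟨⟨K, hKn, hKf, hgK⟩, ?_⟩
  refine le_trans ?_ hKi
  exact_mod_cast depth_le hKn hKf hgK

theorem rf_upper (e : ℕ) (hF : RFull T univ ℂ e) :
    ∃ C : ℕ, ∀ n : ℕ, 1 ≤ n → (rfGrowth S n : ℝ) ≤ C * (Real.log n + 1) ^ e ∧
      BddAbove {m : ℕ | ∃ g : G, g ≠ 1 ∧ wordLen S g ≤ n ∧ depth g = m} := by
  obtain ⟨C, hC⟩ := rf_upper' c hS hgen b T hT e hF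
  refine ⟨C, fun n hn => ?_⟩
  have hln : 0 ≤ Real.log n := Real.log_nonneg (by exact_mod_cast hn)
  have hbd : ∀ m ∈ {m : ℕ | ∃ g : G, g ≠ 1 ∧ wordLen S g ≤ n ∧ depth g = m},
      m ≤ ⌊C * (Real.log n + 1) ^ e⌋₊ := by
    rintro _ ⟨g, hg, hgn, rfl⟩
    exact Nat.le_floor (hC n hn g hg hgn).2
  refine ⟨?_, ⟨_, hbd⟩⟩
  have h1 : rfGrowth S n ≤ ⌊C * (Real.log n + 1) ^ e⌋₊ := by
    rcases Set.eq_empty_or_nonempty
      {m : ℕ | ∃ g : G, g ≠ 1 ∧ wordLen S g ≤ n ∧ depth g = m} with h0 | h0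
    · unfold rfGrowth
      rw [h0]
      simp
    · exact csSup_le h0 hbd
  have h2 : ((rfGrowth S n : ℕ) : ℝ) ≤ (⌊C * (Real.log n + 1) ^ e⌋₊ : ℝ) := by exact_mod_cast h1
  exact h2.trans (Nat.floor_le (by positivity))

omit hS in
theorem rf_lower [hG : Group.IsNilpotent G] (e : ℕ) (hF : ¬ RFull T univ ℂ e)
    (hbd : ∀ n : ℕ, 1 ≤ n → BddAbove {m : ℕ | ∃ g : G, g ≠ 1 ∧ wordLen S g ≤ n ∧ depth g = m})
    (hres : ∀ g : G, g ≠ 1 → ∃ K : Subgroup G, K.Normal ∧ K.FiniteIndex ∧ g ∉ K) :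
    ∃ C : ℕ, ∀ n : ℕ, 1 ≤ n → (Real.log n + 1) ^ (e + 1) ≤ C * (rfGrowth S n : ℝ) := by
  have hA := adapted_bot c b T hT
  obtain ⟨z, C, hz⟩ := lower c ⊥ b T univ hA e hF
  have hdep : ∀ n : ℕ, 1 ≤ n → ∀ g : G, g ≠ 1 → wordLen S g ≤ n → depth g ≤ rfGrowth S n :=
    fun n hn g hg hgn => le_csSup (hbd n hn) ⟨g, hg, hgn, rfl⟩
  refine asym (rfGrowth S) (e + 1) (wordLen S z) C ?_ ?_
  · -- a nontrivial generator
    intro n hn
    have hne : ∃ s ∈ S, s ≠ 1 := by
      by_contra hcon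
      push Not at hcon
      have h1 : Subgroup.closure S ≤ ⊥ := by
        rw [Subgroup.closure_le]
        intro s hs
        exact hcon s hs
      rw [hgen] at h1
      obtain ⟨M, hM, _, hzM, _⟩ := hz 0
      exact hzM 1 one_pos (h1 (Subgroup.mem_top _))
    obtain ⟨s, hs, hs1⟩ := hne
    have hsn : wordLen S s ≤ n := by
      have h1 := wordLen_le (S := S) [s] (by
        intro t ht
        rw [List.mem_singleton] at ht
        rw [ht]
        exact Or.inl hs)
      rw [List.prod_singleton, List.length_singleton] at h1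
      omega
    refine le_trans ?_ (hdep n hn s hs1 hsn)
    obtain ⟨K, _, hKf, _, hKd⟩ := depth_spec (hres s hs1)
    rw [← hKd]
    exact Nat.pos_of_ne_zero hKf.index_ne_zero
  · intro m n hmn
    obtain ⟨M, hM, hMe, hzM, hK⟩ := hz m
    have hzM1 : z ^ M ≠ 1 := fun h0 => hzM M hM (by rw [h0]; exact Subgroup.one_mem _)
    have hlen : wordLen S (z ^ M) ≤ n := by
      have h1 := wordLen_pow_le hgen z M
      have h2 : ((wordLen S (z ^ M) : ℕ) : ℝ) ≤ n := by
        calc ((wordLen S (z ^ M) : ℕ) : ℝ) ≤ ((M * wordLen S z : ℕ) : ℝ) := by exact_mod_cast h1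
          _ = (wordLen S z : ℝ) * M := by push_cast; ring
          _ ≤ (wordLen S z : ℝ) * Real.exp (C * (m + 1)) :=
            mul_le_mul_of_nonneg_left hMe (Nat.cast_nonneg _)
          _ ≤ n := hmn
      exact_mod_cast h2
    have hn : 1 ≤ n := by
      by_contra hn0
      have hn0' : n = 0 := by omega
      rw [hn0'] at hlen
      exact hzM1 (eq_one_of_wordLen hgen (Nat.le_zero.1 hlen))
    refine le_trans ?_ (hdep n hn _ hzM1 hlen)
    obtain ⟨K, hKn, hKf, hgK, hKd⟩ := depth_spec (hres _ hzM1)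
    rw [← hKd]
    refine hK K hKn hKf ?_
    intro a ha k hk heq
    rw [Subgroup.mem_bot] at ha
    rw [ha, one_mul] at heq
    exact hgK (by rw [heq]; exact hk)

end

theorem finite_QLie (c : MalcevCompletion G) : Module.Finite ℚ c.QLie := by
  have : Module.Finite ℚ c.L := Submodule.finiteDimensional_of_le (le_top (a := c.L.toSubmodule))
  exact this

/-- in dimension zero the group is trivial -/
theorem growth_of_LF0 (c : MalcevCompletion G) (S : Set G) (he : LF c.CLie 0) (n : ℕ) :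
    rfGrowth S n = 0 := by
  have := finite_QLie c
  obtain ⟨h, b, T, hT⟩ := exists_lat c.QLie
  have hh : IsEmpty (Fin h) := by
    by_contra hcon
    rw [not_isEmpty_iff] at hcon
    obtain ⟨i⟩ := hcon
    have h1 : RFull T univ ℂ 0 := (rfull_iff c.QLie b T hT 0).2 he
    have h2 := h1 (Pi.single i 1) (fun P _ => ⟨0, fun _ _ => rfl, Subsingleton.elim _ _⟩) i
      (mem_univ i)
    rw [Pi.single_eq_same] at h2
    exact one_ne_zero h2
  have hG1 : ∀ g : G, g = 1 := by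
    intro g
    obtain ⟨X, hX, hgX⟩ := c.exp_mem g
    have h1 : (⟨X, hX⟩ : c.L) = 0 := by
      apply (b : Module.Basis (Fin h) ℚ c.L).repr.injective
      ext i
      exact hh.elim i
    have h2 : X = 0 := congrArg Subtype.val h1
    apply c.injective
    rw [hgX, h2, IsNilpotent.exp_zero, map_one]
  unfold rfGrowth
  have h3 : {m : ℕ | ∃ g : G, g ≠ 1 ∧ wordLen S g ≤ n ∧ depth g = m} = ∅ := by
    ext m
    simp only [Set.mem_ofPred_eq, Set.mem_empty_iff_false, iff_false]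
    rintro ⟨g, hg, _⟩
    exact hg (hG1 g)
  rw [h3]
  simp

/-- The growth is `(log n) ^ e`, where `e` is the least dimension such that the quotients of
dimension at most `e` of the complex Lie algebra separate points. -/
theorem rf_main [hG : Group.IsNilpotent G] (c : MalcevCompletion G) {S : Set G} (hS : S.Finite)
    (hgen : Subgroup.closure S = ⊤) :
    (∃ e, LF c.CLie e) ∧ ∀ e, LF c.CLie e → (∀ e' < e, ¬ LF c.CLie e') →
      ∃ C : ℕ, ∀ n : ℕ, 1 ≤ n → (rfGrowth S n : ℝ) ≤ C * (Real.log n + 1) ^ e ∧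
        ((Real.log n + 1) ^ e ≤ C * (rfGrowth S n : ℝ) ∨ (e = 0 ∧ rfGrowth S n = 0)) := by
  have := finite_QLie c
  obtain ⟨h, b, T, hT⟩ := exists_lat c.QLie
  have hT' : ∀ l i, ⁅(b : Module.Basis (Fin h) ℚ c.L) l, (b : Module.Basis (Fin h) ℚ c.L) i⁆ =
      ∑ j, (T l j i) • (b : Module.Basis (Fin h) ℚ c.L) j := hT
  have hiff : ∀ e, RFull T univ ℂ e ↔ LF c.CLie e := fun e => rfull_iff c.QLie b T hT e
  refine ⟨⟨h, (hiff h).1 ?_⟩, ?_⟩
  · intro x hx
    obtain ⟨y, hy, h1⟩ := hx 1 ⟨fun l => (T l).map (Int.castRingHom ℂ), fun l => by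
      rw [one_mul, mul_one]⟩
    rw [one_mulVec, one_mulVec] at h1
    rw [h1]
    exact hy
  · intro e he hmin
    obtain ⟨C₁, hC₁⟩ := rf_upper c hS hgen (b : Module.Basis (Fin h) ℚ c.L) T hT' e ((hiff e).2 he)
    obtain ⟨C₀, hC₀⟩ := rf_upper' c hS hgen (b : Module.Basis (Fin h) ℚ c.L) T hT' e
      ((hiff e).2 he)
    rcases Nat.eq_zero_or_pos e with rfl | he0
    · exact ⟨C₁, fun n hn => ⟨(hC₁ n hn).1, Or.inr ⟨rfl, growth_of_LF0 c S he n⟩⟩⟩
    · have h1 : ¬ RFull T univ ℂ (e - 1) := fun h1 => hmin (e - 1) (by omega) ((hiff _).1 h1)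
      obtain ⟨C₂, hC₂⟩ := rf_lower c hgen (b : Module.Basis (Fin h) ℚ c.L) T hT' (e - 1) h1
        (fun n hn => (hC₁ n hn).2) (fun g hg => (hC₀ (wordLen S g + 1) (by omega) g hg
          (by omega)).1)
      rw [Nat.sub_add_cancel he0] at hC₂
      refine ⟨C₁ + C₂, fun n hn => ⟨?_, Or.inl ?_⟩⟩
      · refine ((hC₁ n hn).1).trans ?_
        have hln : 0 ≤ Real.log n := Real.log_nonneg (by exact_mod_cast hn)
        refine mul_le_mul_of_nonneg_right ?_ (by positivity)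
        push_cast
        have : (0 : ℝ) ≤ C₂ := Nat.cast_nonneg _
        linarith
      · refine (hC₂ n hn).trans ?_
        refine mul_le_mul_of_nonneg_right ?_ (Nat.cast_nonneg _)
        push_cast
        have : (0 : ℝ) ≤ C₁ := Nat.cast_nonneg _
        linarith

theorem rfGrowth_zero {S : Set G} (hgen : Subgroup.closure S = ⊤) : rfGrowth S 0 = 0 := by
  unfold rfGrowth
  have h3 : {m : ℕ | ∃ g : G, g ≠ 1 ∧ wordLen S g ≤ 0 ∧ depth g = m} = ∅ := by
    ext m
    simp only [Set.mem_ofPred_eq, Set.mem_empty_iff_false, iff_false]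
    rintro ⟨g, hg, hg0, _⟩
    exact hg (eq_one_of_wordLen hgen (Nat.le_zero.1 hg0))
  rw [h3]
  simp

theorem dominated {G₁ G₂ : Type*} [Group G₁] [Group G₂] [Group.IsNilpotent G₁]
    [Group.IsNilpotent G₂] (c₁ : MalcevCompletion G₁) (c₂ : MalcevCompletion G₂) {S₁ : Set G₁}
    {S₂ : Set G₂} (hS₁ : S₁.Finite) (hgen₁ : Subgroup.closure S₁ = ⊤) (hS₂ : S₂.Finite)
    (hgen₂ : Subgroup.closure S₂ = ⊤) (φ : c₁.CLie ≃ₗ⁅ℂ⁆ c₂.CLie) :
    Dominated (rfGrowth S₁) (rfGrowth S₂) := by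
  classical
  obtain ⟨hex, h1⟩ := rf_main c₁ hS₁ hgen₁
  obtain ⟨_, h2⟩ := rf_main c₂ hS₂ hgen₂
  set e := Nat.find hex with he
  have he1 : LF c₁.CLie e := Nat.find_spec hex
  have hmin1 : ∀ e' < e, ¬ LF c₁.CLie e' := fun e' h => Nat.find_min hex h
  obtain ⟨C₁, hC₁⟩ := h1 e he1 hmin1
  obtain ⟨C₂, hC₂⟩ := h2 e (he1.equiv φ) (fun e' h h' => hmin1 e' h (h'.equiv φ.symm))
  -- a common constant
  refine ⟨C₁ * C₂ + 1, by omega, fun n => ?_⟩
  rcases Nat.eq_zero_or_pos n with rfl | hn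
  · rw [rfGrowth_zero hgen₁]
    exact Nat.zero_le _
  set n' : ℕ := (C₁ * C₂ + 1) * n with hn'
  have hnn' : n ≤ n' := Nat.le_mul_of_pos_left n (by omega)
  have hln : 0 ≤ Real.log n := Real.log_nonneg (by exact_mod_cast hn)
  have h3 := (hC₁ n hn).1
  rcases (hC₂ n' (by omega)).2 with h4 | ⟨he0, h4⟩
  · have h5 : (Real.log n + 1) ^ e ≤ (Real.log n' + 1) ^ e := by
      refine pow_le_pow_left₀ (by linarith) ?_ e
      have h6 : Real.log n ≤ Real.log n' := Real.log_le_log (by exact_mod_cast hn)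
        (by exact_mod_cast hnn')
      linarith
    have h6 : (rfGrowth S₁ n : ℝ) ≤ ((C₁ * C₂ + 1 : ℕ) : ℝ) * rfGrowth S₂ n' := by
      calc (rfGrowth S₁ n : ℝ) ≤ C₁ * (Real.log n + 1) ^ e := h3
        _ ≤ C₁ * (C₂ * rfGrowth S₂ n') :=
          mul_le_mul_of_nonneg_left (h5.trans h4) (Nat.cast_nonneg _)
        _ ≤ _ := by
          push_cast
          have : (0 : ℝ) ≤ rfGrowth S₂ n' := Nat.cast_nonneg _
          nlinarith
    exact_mod_cast h6
  · -- the trivial case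
    rw [growth_of_LF0 c₁ S₁ (by rw [← he0]; exact he1) n]
    exact Nat.zero_le _

end Pool.Agent.Q26.RF
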