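import Pool.Agent.TH91.RF.Alg3

/-!
# Quotients of bounded dimension separating the points off a coordinate subspace

The coordinates in `U` are the coordinates off a subalgebra.
-/

set_option autoImplicit false

namespace Pool.Agent.Q26.RF

open Finset Matrix Pool.Agent.TH91.RF

variable {ι : Type} {h : ℕ}

/-- the vectors of the coordinate subspace -/
def Off (U : Finset (Fin h)) {R : Type*} [Zero R] (y : Fin h → R) : Prop := ∀ i ∈ U, y i = 0

/-- `x` lies in the sum of the coordinate subspace and the kernel of each small quotient -/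
def RBad (T : ι → Matrix (Fin h) (Fin h) ℤ) (U : Finset (Fin h)) (F : Type*) [CommRing F] (e : ℕ)
    (x : Fin h → F) : Prop :=
  ∀ P : Matrix (Fin e) (Fin h) F, Quo T F e P → ∃ y, Off U y ∧ P *ᵥ x = P *ᵥ y

/-- the small quotients separate the points from the coordinate subspace -/
def RFull (T : ι → Matrix (Fin h) (Fin h) ℤ) (U : Finset (Fin h)) (F : Type*) [CommRing F]
    (e : ℕ) : Prop := ∀ x : Fin h → F, RBad T U F e x → Off U x

/-- the same, with a certificate -/
def RCert (T : ι → Matrix (Fin h) (Fin h) ℤ) (U : Finset (Fin h)) (R : Type*) [CommRing R]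
    (e : ℕ) : Prop :=
  ∃ (m : ℕ) (P : Fin m → Matrix (Fin e) (Fin h) R) (Q : Fin m → Matrix (Fin h) (Fin e) R),
    (∀ j, Quo T R e (P j)) ∧ (∀ j, ∀ c, c ∉ U → ∀ i, (Q j * P j) i c = 0) ∧
    (∀ i ∈ U, ∀ c, (∑ j, Q j * P j) i c = if i = c then 1 else 0)

variable {T : ι → Matrix (Fin h) (Fin h) ℤ} {U : Finset (Fin h)} {e : ℕ}

theorem RCert.map {R R' : Type*} [CommRing R] [CommRing R'] (φ : R →+* R')
    (hC : RCert T U R e) : RCert T U R' e := by
  obtain ⟨m, P, Q, hP, hPV, hPQ⟩ := hC
  refine ⟨m, fun j => (P j).map φ, fun j => (Q j).map φ, fun j => (hP j).map φ, ?_, ?_⟩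
  · intro j c hc i
    have h1 := congrArg φ (hPV j c hc i)
    rw [← Matrix.map_mul, Matrix.map_apply, h1, map_zero]
  · intro i hi c
    have h1 := congrArg φ (hPQ i hi c)
    rw [Matrix.sum_apply, map_sum] at h1
    rw [Matrix.sum_apply]
    have h2 : φ (if i = c then 1 else 0) = if i = c then 1 else 0 := by
      split_ifs <;> simp
    rw [← h2, ← h1]
    refine sum_congr rfl fun j _ => ?_
    rw [← Matrix.map_mul, Matrix.map_apply]

/-- A certificate forces the points which are not separated to lie in the coordinate subspace. -/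
theorem RCert.off {R : Type*} [CommRing R] (hC : RCert T U R e) :
    ∃ (m : ℕ) (P : Fin m → Matrix (Fin e) (Fin h) R), (∀ j, Quo T R e (P j)) ∧
      ∀ x : Fin h → R, (∀ j, ∃ y, Off U y ∧ P j *ᵥ x = P j *ᵥ y) → Off U x := by
  obtain ⟨m, P, Q, hP, hPV, hPQ⟩ := hC
  refine ⟨m, P, hP, ?_⟩
  intro x hx i hi
  have h1 : ((∑ j, Q j * P j) *ᵥ x) i = x i := by
    simp only [mulVec, dotProduct]
    simp_rw [hPQ i hi]
    simp
  rw [← h1, sum_mulVec, Finset.sum_apply]
  refine sum_eq_zero fun j _ => ?_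
  obtain ⟨y, hy, hxy⟩ := hx j
  rw [← mulVec_mulVec, hxy, mulVec_mulVec]
  simp only [mulVec, dotProduct]
  refine sum_eq_zero fun c _ => ?_
  by_cases hc : c ∈ U
  · rw [hy c hc, mul_zero]
  · rw [hPV j c hc, zero_mul]

theorem RCert.full {R : Type*} [CommRing R] (hC : RCert T U R e) : RFull T U R e := by
  obtain ⟨m, P, hP, h1⟩ := hC.off
  exact fun x hx => h1 x fun j => hx _ (hP j)

/-- the coordinate subspace -/
def offS (U : Finset (Fin h)) (F : Type*) [Field F] : Submodule F (Fin h → F) where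
  carrier := {y | Off U y}
  add_mem' := by
    intro a b ha hb i hi
    rw [Pi.add_apply, ha i hi, hb i hi, add_zero]
  zero_mem' := fun i _ => rfl
  smul_mem' := by
    intro c x hx i hi
    rw [Pi.smul_apply, hx i hi, smul_zero]

theorem mem_offS {F : Type*} [Field F] {y : Fin h → F} : y ∈ offS U F ↔ Off U y := Iff.rfl

/-- the sum of the coordinate subspace and the kernel -/
def badS {F : Type*} [Field F] (U : Finset (Fin h)) (P : Matrix (Fin e) (Fin h) F) :
    Submodule F (Fin h → F) :=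
  ((offS U F).map P.mulVecLin).comap P.mulVecLin

theorem mem_badS {F : Type*} [Field F] {P : Matrix (Fin e) (Fin h) F} {x : Fin h → F} :
    x ∈ badS U P ↔ ∃ y, Off U y ∧ P *ᵥ x = P *ᵥ y := by
  unfold badS
  rw [Submodule.mem_comap, Submodule.mem_map]
  simp only [mulVecLin_apply, mem_offS]
  constructor
  · rintro ⟨y, h1, h2⟩
    exact ⟨y, h1, h2.symm⟩
  · rintro ⟨y, h1, h2⟩
    exact ⟨y, h1, h2.symm⟩

theorem offS_le_badS {F : Type*} [Field F] (P : Matrix (Fin e) (Fin h) F) :
    offS U F ≤ badS U P := fun y hy => mem_badS.2 ⟨y, hy, rfl⟩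

theorem exists_factor {F V V' V'' : Type*} [Field F] [AddCommGroup V] [AddCommGroup V']
    [AddCommGroup V''] [Module F V] [Module F V'] [Module F V''] (Φ : V →ₗ[F] V')
    (W : V →ₗ[F] V'') (h : LinearMap.ker Φ ≤ LinearMap.ker W) :
    ∃ g : V' →ₗ[F] V'', g ∘ₗ Φ = W := by
  set W' : LinearMap.range Φ →ₗ[F] V'' :=
    ((LinearMap.ker Φ).liftQ W h) ∘ₗ (Φ.quotKerEquivRange.symm : _ →ₗ[F] _) with hW'
  obtain ⟨g, hg⟩ := W'.exists_extend
  refine ⟨g, LinearMap.ext fun x => ?_⟩
  have h1 := LinearMap.congr_fun hg (Φ.rangeRestrict x)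
  have h2 : Φ.quotKerEquivRange.symm (Φ.rangeRestrict x) = (LinearMap.ker Φ).mkQ x := by
    rw [LinearEquiv.symm_apply_eq]
    rfl
  rw [hW'] at h1
  simp only [LinearMap.comp_apply] at h1 ⊢
  have h3 : (LinearMap.range Φ).subtype (Φ.rangeRestrict x) = Φ x := rfl
  rw [h3] at h1
  rw [h1]
  change ((LinearMap.ker Φ).liftQ W h) (Φ.quotKerEquivRange.symm (Φ.rangeRestrict x)) = W x
  rw [h2]
  rfl

theorem RFull.cert {F : Type*} [Field F] (hF : RFull T U F e) : RCert T U F e := by
  classical
  have key : ∀ n : ℕ, ∀ (m : ℕ) (P : Fin m → Matrix (Fin e) (Fin h) F), (∀ j, Quo T F e (P j)) →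
      Module.finrank F ((⨅ j, badS U (P j) : Submodule F (Fin h → F))) ≤ n →
      ∃ (m : ℕ) (P : Fin m → Matrix (Fin e) (Fin h) F), (∀ j, Quo T F e (P j)) ∧
        (⨅ j, badS U (P j) : Submodule F (Fin h → F)) = offS U F := by
    intro n
    induction n with
    | zero =>
      intro m P hP hr
      refine ⟨m, P, hP, ?_⟩
      have h0 := Submodule.finrank_eq_zero.1 (Nat.le_zero.1 hr)
      refine le_antisymm ?_ (le_iInf fun j => offS_le_badS _)
      rw [h0]
      exact bot_le
    | succ n ih =>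
      intro m P hP hr
      by_cases hbot : (⨅ j, badS U (P j) : Submodule F (Fin h → F)) = offS U F
      · exact ⟨m, P, hP, hbot⟩
      have hlt : offS U F < (⨅ j, badS U (P j) : Submodule F (Fin h → F)) :=
        lt_of_le_of_ne (le_iInf fun j => offS_le_badS _) (Ne.symm hbot)
      obtain ⟨x, hx, hx0⟩ := SetLike.exists_of_lt hlt
      have hnb : ¬ RBad T U F e x := fun hb => hx0 (hF x hb)
      unfold RBad at hnb
      push Not at hnb
      obtain ⟨P', hP', hPx⟩ := hnb
      refine ih (m + 1) (Fin.cons P' P) ?_ ?_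
      · intro j
        refine Fin.cases ?_ (fun j => ?_) j
        · simpa using hP'
        · simpa using hP j
      · rw [← Nat.lt_succ_iff]
        refine lt_of_lt_of_le (Submodule.finrank_lt_finrank_of_lt ?_) hr
        refine lt_of_le_of_ne ?_ ?_
        · refine le_iInf fun j => ?_
          refine (iInf_le _ j.succ).trans ?_
          rw [Fin.cons_succ]
        · intro heq
          rw [← heq] at hx
          have h1 := (Submodule.mem_iInf _).1 hx 0
          rw [Fin.cons_zero, mem_badS] at h1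
          obtain ⟨y, hy, hxy⟩ := h1
          exact hPx y hy hxy
  obtain ⟨m, P, hP, hbot⟩ := key _ 0 Fin.elim0 (fun j => j.elim0) le_rfl
  set Wj : Fin m → Submodule F (Fin e → F) := fun j => (offS U F).map (P j).mulVecLin with hWj
  set Φ : (Fin h → F) →ₗ[F] (∀ j, (Fin e → F) ⧸ Wj j) :=
    LinearMap.pi fun j => (Wj j).mkQ ∘ₗ (P j).mulVecLin with hΦ
  have hker : LinearMap.ker Φ = offS U F := by
    rw [hΦ, LinearMap.ker_pi, ← hbot]
    refine iInf_congr fun j => ?_
    rw [LinearMap.ker_comp, Submodule.ker_mkQ]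
    rfl
  -- the projection to the coordinates in `U`
  set W : (Fin h → F) →ₗ[F] (Fin h → F) := LinearMap.pi fun i =>
    if i ∈ U then LinearMap.proj i else 0 with hW
  have hWker : LinearMap.ker Φ ≤ LinearMap.ker W := by
    rw [hker]
    intro y hy
    rw [LinearMap.mem_ker]
    ext i
    rw [hW, LinearMap.pi_apply]
    split_ifs with hi
    · exact hy i hi
    · rfl
  obtain ⟨g, hg⟩ := exists_factor Φ W hWker
  set Q : Fin m → Matrix (Fin h) (Fin e) F := fun j => LinearMap.toMatrix'
    (g ∘ₗ LinearMap.single F (fun j => (Fin e → F) ⧸ Wj j) j ∘ₗ (Wj j).mkQ) with hQ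
  have hQv : ∀ j (x : Fin h → F), (Q j * P j) *ᵥ x =
      g (LinearMap.single F (fun j => (Fin e → F) ⧸ Wj j) j ((Wj j).mkQ (P j *ᵥ x))) := by
    intro j x
    rw [← mulVec_mulVec, hQ]
    simp only
    rw [LinearMap.toMatrix'_mulVec]
    rfl
  refine ⟨m, P, Q, hP, ?_, ?_⟩
  · intro j c hc i
    have h1 := congrFun (hQv j (Pi.single c 1)) i
    rw [mulVec_single_one, Matrix.col_apply] at h1
    rw [h1]
    have h2 : (Wj j).mkQ (P j *ᵥ Pi.single c 1) = 0 := by
      rw [Submodule.mkQ_apply, Submodule.Quotient.mk_eq_zero]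
      refine Submodule.mem_map.2 ⟨Pi.single c 1, ?_, rfl⟩
      intro i hi
      rw [Pi.single_eq_of_ne]
      rintro rfl
      exact hc hi
    rw [h2, map_zero, map_zero]
    rfl
  · intro i hi c
    have h1 : (∑ j, Q j * P j) *ᵥ (Pi.single c 1) = W (Pi.single c 1) := by
      rw [sum_mulVec]
      simp_rw [hQv]
      rw [← map_sum]
      have h2 : ∑ j, LinearMap.single F (fun j => (Fin e → F) ⧸ Wj j) j
          ((Wj j).mkQ (P j *ᵥ Pi.single c 1)) = Φ (Pi.single c 1) := by
        ext1 j
        rw [Finset.sum_apply, Finset.sum_eq_single_of_mem j (Finset.mem_univ _)]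
        · simp [hΦ]
        · intro b _ hb
          simp [Pi.single_eq_of_ne (Ne.symm hb)]
      rw [h2]
      exact LinearMap.congr_fun hg _
    have h2 := congrFun h1 i
    rw [mulVec_single_one, Matrix.col_apply] at h2
    rw [h2, hW, LinearMap.pi_apply, if_pos hi, LinearMap.proj_apply, Pi.single_apply]

end Pool.Agent.Q26.RF
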