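import Pool.Agent.Q26.RF.Alg

/-!
# Transfer to number fields and rational bad vectors
-/

set_option autoImplicit false

namespace Pool.Agent.Q26.RF

open Finset Matrix Pool.Agent.TH91.RF

variable {ι : Type} {h : ℕ} {T : ι → Matrix (Fin h) (Fin h) ℤ} {U : Finset (Fin h)} {e : ℕ}

theorem RCert.numberField [Finite ι] {k : Type} [Field k] [CharZero k] (hC : RCert T U k e) :
    ∃ (K : Type) (_ : Field K) (_ : NumberField K), RCert T U K e := by
  obtain ⟨m, P, Q, hP, hPV, hPQ⟩ := hC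
  choose A hA using hP
  set s : Set k := (Set.range fun x : Fin m × Fin e × Fin h => P x.1 x.2.1 x.2.2) ∪
    (Set.range fun x : Fin m × Fin h × Fin e => Q x.1 x.2.1 x.2.2) ∪
    (Set.range fun x : Fin m × ι × Fin e × Fin e => A x.1 x.2.1 x.2.2.1 x.2.2.2) with hs
  have hsf : s.Finite := ((Set.finite_range _).union (Set.finite_range _)).union (Set.finite_range _)
  obtain ⟨K, hK, hKN, ⟨φ⟩⟩ := exists_numberField_hom k s hsf
  refine ⟨K, hK, hKN, RCert.map φ ?_⟩
  set S := Algebra.adjoin ℚ s with hS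
  have h1 : s ⊆ S := Algebra.subset_adjoin
  have hPS : ∀ l i j, P l i j ∈ S := fun l i j => h1 (Or.inl (Or.inl ⟨(l, i, j), rfl⟩))
  have hQS : ∀ l i j, Q l i j ∈ S := fun l i j => h1 (Or.inl (Or.inr ⟨(l, i, j), rfl⟩))
  have hAS : ∀ l l' i j, A l l' i j ∈ S := fun l l' i j => h1 (Or.inr ⟨(l, l', i, j), rfl⟩)
  have h3 : ∀ j, (lft S (Q j) (hQS j) * lft S (P j) (hPS j)).map S.val = Q j * P j := by
    intro j
    rw [Matrix.map_mul, lft_map, lft_map]
  refine ⟨m, fun l => lft S (P l) (hPS l), fun l => lft S (Q l) (hQS l), fun l =>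
    Quo.descend S (P l) (A l) (hA l) (hPS l) (hAS l), ?_, ?_⟩
  · intro j c hc i
    apply Subtype.val_injective
    have h4 := congrFun (congrFun (h3 j) i) c
    rw [Matrix.map_apply] at h4
    exact h4.trans (hPV j c hc i)
  · intro i hi c
    apply Subtype.val_injective
    have h4 : ((∑ j, lft S (Q j) (hQS j) * lft S (P j) (hPS j)) i c : k) = (∑ j, Q j * P j) i c := by
      rw [Matrix.sum_apply, Matrix.sum_apply]
      push_cast
      refine sum_congr rfl fun j _ => ?_
      exact congrFun (congrFun (h3 j) i) c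
    rw [h4, hPQ i hi c]
    split_ifs <;> simp

/-- a functional separating a vector from a coordinate subspace -/
theorem exists_functional {F : Type*} [Field F] {P : Matrix (Fin e) (Fin h) F} {x : Fin h → F}
    (hx : ¬ ∃ y, Off U y ∧ P *ᵥ x = P *ᵥ y) :
    ∃ r : Fin e → F, (∀ c, c ∉ U → (r ᵥ* P) c = 0) ∧ r ⬝ᵥ (P *ᵥ x) = 1 := by
  have h1 : P *ᵥ x ∉ (offS U F).map P.mulVecLin := by
    intro h
    apply hx
    obtain ⟨y, hy, hxy⟩ := Submodule.mem_map.1 h
    exact ⟨y, hy, hxy.symm⟩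
  obtain ⟨f, hf, hf'⟩ := Submodule.exists_le_ker_of_notMem h1
  refine ⟨fun i => (f (P *ᵥ x))⁻¹ * f (Pi.single i 1), ?_, ?_⟩
  · intro c hc
    have h2 : f (P *ᵥ Pi.single c 1) = 0 := by
      have : P *ᵥ Pi.single c 1 ∈ (offS U F).map P.mulVecLin := by
        refine Submodule.mem_map.2 ⟨Pi.single c 1, ?_, rfl⟩
        intro i hi
        rw [Pi.single_eq_of_ne]
        rintro rfl
        exact hc hi
      exact hf' this
    have h3 : f (P *ᵥ Pi.single c 1) = ∑ i, P i c * f (Pi.single i 1) := by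
      have e1 : P *ᵥ Pi.single c 1 = ∑ i, P i c • (Pi.single i 1 : Fin e → F) := by
        rw [mulVec_single_one]
        ext j
        rw [Finset.sum_apply, Matrix.col_apply]
        simp [Pi.single_apply]
      rw [e1, map_sum]
      refine sum_congr rfl fun i _ => ?_
      rw [map_smul, smul_eq_mul]
    simp only [vecMul, dotProduct]
    have h4 : ∀ i, (f (P *ᵥ x))⁻¹ * f (Pi.single i 1) * P i c =
        (f (P *ᵥ x))⁻¹ * (P i c * f (Pi.single i 1)) := fun i => by ring
    simp_rw [h4]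
    rw [← Finset.mul_sum, ← h3, h2, mul_zero]
  · have h3 : f (P *ᵥ x) = ∑ i, (P *ᵥ x) i * f (Pi.single i 1) := by
      have e1 : P *ᵥ x = ∑ i, (P *ᵥ x) i • (Pi.single i 1 : Fin e → F) := by
        ext j
        rw [Finset.sum_apply]
        simp [Pi.single_apply]
      nth_rewrite 1 [e1]
      rw [map_sum]
      refine sum_congr rfl fun i _ => ?_
      rw [map_smul, smul_eq_mul]
    simp only [dotProduct]
    have h4 : ∀ i, (f (P *ᵥ x))⁻¹ * f (Pi.single i 1) * (P *ᵥ x) i =
        (f (P *ᵥ x))⁻¹ * ((P *ᵥ x) i * f (Pi.single i 1)) := fun i => by ring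
    simp_rw [h4]
    rw [← Finset.mul_sum, ← h3, inv_mul_cancel₀ hf]

theorem sep_numberField [Finite ι] {k : Type} [Field k] [CharZero k] (ζ : Fin h → ℤ)
    (P : Matrix (Fin e) (Fin h) k) (hP : Quo T k e P)
    (hζ : ¬ ∃ y, Off U y ∧ P *ᵥ (fun i => (ζ i : k)) = P *ᵥ y) :
    ∃ (K : Type) (_ : Field K) (_ : NumberField K) (P' : Matrix (Fin e) (Fin h) K)
      (r : Fin e → K), Quo T K e P' ∧ (∀ c, c ∉ U → (r ᵥ* P') c = 0) ∧
        r ⬝ᵥ (P' *ᵥ (fun i => (ζ i : K))) = 1 := by
  obtain ⟨A, hA⟩ := hP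
  obtain ⟨r, hr, hr1⟩ := exists_functional hζ
  set s : Set k := (Set.range fun x : Fin e × Fin h => P x.1 x.2) ∪
    (Set.range fun x : ι × Fin e × Fin e => A x.1 x.2.1 x.2.2) ∪ (Set.range r) with hs
  have hsf : s.Finite := ((Set.finite_range _).union (Set.finite_range _)).union
    (Set.finite_range _)
  obtain ⟨K, hK, hKN, ⟨φ⟩⟩ := exists_numberField_hom k s hsf
  set S := Algebra.adjoin ℚ s with hS
  have h1 : s ⊆ S := Algebra.subset_adjoin
  have hPS : ∀ i j, P i j ∈ S := fun i j => h1 (Or.inl (Or.inl ⟨(i, j), rfl⟩))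
  have hAS : ∀ l' i j, A l' i j ∈ S := fun l' i j => h1 (Or.inl (Or.inr ⟨(l', i, j), rfl⟩))
  have hrS : ∀ i, r i ∈ S := fun i => h1 (Or.inr ⟨i, rfl⟩)
  set P' := lft S P hPS with hP'
  set r' : Fin e → S := fun i => ⟨r i, hrS i⟩ with hr'
  have e1 : ∀ c, (r' ᵥ* P') c = 0 ∨ c ∈ U := by
    intro c
    by_cases hc : c ∈ U
    · exact Or.inr hc
    · left
      apply Subtype.val_injective
      have h2 := hr c hc
      simp only [vecMul, dotProduct] at h2 ⊢
      push_cast
      exact h2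
  have e2 : r' ⬝ᵥ (P' *ᵥ (fun i => (ζ i : S))) = 1 := by
    apply Subtype.val_injective
    simp only [mulVec, dotProduct] at hr1 ⊢
    push_cast
    exact hr1
  refine ⟨K, hK, hKN, P'.map φ, fun i => φ (r' i), (Quo.descend S P A hA hPS hAS).map φ, ?_, ?_⟩
  · intro c hc
    have h2 := congrArg φ ((e1 c).resolve_right hc)
    simp only [vecMul, dotProduct, map_sum, map_mul, map_zero, Matrix.map_apply] at h2 ⊢
    exact h2
  · have h2 := congrArg φ e2
    simp only [mulVec, dotProduct, map_sum, map_mul, map_one, map_intCast, Matrix.map_apply]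
      at h2 ⊢
    exact h2

theorem no_functional {R : Type*} [CommRing R] [Nontrivial R] {P : Matrix (Fin e) (Fin h) R}
    {x : Fin h → R} (r : Fin e → R) (hr : ∀ c, c ∉ U → (r ᵥ* P) c = 0)
    (hr1 : r ⬝ᵥ (P *ᵥ x) = 1) : ¬ ∃ y, Off U y ∧ P *ᵥ x = P *ᵥ y := by
  rintro ⟨y, hy, hxy⟩
  rw [hxy, dotProduct_mulVec] at hr1
  have h0 : (r ᵥ* P) ⬝ᵥ y = 0 := by
    simp only [dotProduct]
    refine sum_eq_zero fun c _ => ?_
    by_cases hc : c ∈ U
    · rw [hy c hc, mul_zero]
    · rw [hr c hc, zero_mul]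
  rw [h0] at hr1
  exact zero_ne_one hr1

theorem sep_algClosure [Finite ι] {k : Type} [Field k] [CharZero k] (ζ : Fin h → ℤ)
    (P : Matrix (Fin e) (Fin h) k) (hP : Quo T k e P)
    (hζ : ¬ ∃ y, Off U y ∧ P *ᵥ (fun i => (ζ i : k)) = P *ᵥ y) :
    ∃ P' : Matrix (Fin e) (Fin h) (AlgebraicClosure ℚ),
      Quo T (AlgebraicClosure ℚ) e P' ∧
        ¬ ∃ y, Off U y ∧ P' *ᵥ (fun i => (ζ i : AlgebraicClosure ℚ)) = P' *ᵥ y := by
  obtain ⟨K, hK, hKN, P', r, hP', hr, hr1⟩ := sep_numberField ζ P hP hζ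
  let φ : K →ₐ[ℚ] AlgebraicClosure ℚ := IsAlgClosed.lift
  refine ⟨P'.map φ, hP'.map (φ : K →+* AlgebraicClosure ℚ), ?_⟩
  refine no_functional (fun i => φ (r i)) ?_ ?_
  · intro c hc
    have h2 := congrArg φ (hr c hc)
    simp only [vecMul, dotProduct, map_sum, map_mul, map_zero, Matrix.map_apply] at h2 ⊢
    exact h2
  · have h2 := congrArg φ hr1
    simp only [mulVec, dotProduct, map_sum, map_mul, map_one, map_intCast, Matrix.map_apply]
      at h2 ⊢
    exact h2

theorem RBad.galois {F : Type*} [Field F] [Algebra ℚ F] {x : Fin h → F} (hx : RBad T U F e x)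
    (σ : F ≃ₐ[ℚ] F) : RBad T U F e (fun i => σ (x i)) := by
  intro P hP
  obtain ⟨y, hy, h1⟩ := hx (P.map σ.symm) (hP.map (σ.symm : F →+* F))
  refine ⟨fun i => σ (y i), ?_, ?_⟩
  · intro i hi
    simp only
    rw [hy i hi, map_zero]
  ext t
  have h2 := congrArg σ (congrFun h1 t)
  simp only [mulVec, dotProduct, map_sum, map_mul, Matrix.map_apply, AlgEquiv.apply_symm_apply]
    at h2 ⊢
  exact h2

theorem RBad.smul {F : Type*} [Field F] {x : Fin h → F} (hx : RBad T U F e x) (c : F) :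
    RBad T U F e (c • x) := fun P hP => by
  have := (badS U P).smul_mem c (mem_badS.2 (hx P hP))
  exact mem_badS.1 this

theorem RBad.sub {F : Type*} [Field F] {x y : Fin h → F} (hx : RBad T U F e x)
    (hy : RBad T U F e y) : RBad T U F e (x - y) := fun P hP => by
  have := (badS U P).sub_mem (mem_badS.2 (hx P hP)) (mem_badS.2 (hy P hP))
  exact mem_badS.1 this

theorem exists_rational_bad (hF : ¬ RFull T U (AlgebraicClosure ℚ) e) :
    ∃ ζ : Fin h → ℤ, (∃ i ∈ U, ζ i ≠ 0) ∧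
      RBad T U (AlgebraicClosure ℚ) e (fun i => (ζ i : AlgebraicClosure ℚ)) := by
  classical
  set F := AlgebraicClosure ℚ with hFdef
  -- supported on `U`
  have h1 : ∃ x : Fin h → F, (∀ i, i ∉ U → x i = 0) ∧ x ≠ 0 ∧ RBad T U F e x := by
    unfold RFull Off at hF
    push Not at hF
    obtain ⟨x, hx, i, hi, hxi⟩ := hF
    refine ⟨fun i => if i ∈ U then x i else 0, ?_, ?_, ?_⟩
    · intro j hj
      simp [hj]
    · intro h0
      apply hxi
      have := congrFun h0 i
      simpa [hi] using this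
    · have e1 : (fun i => if i ∈ U then x i else 0) = x - (fun i => if i ∈ U then 0 else x i) := by
        ext j
        simp only [Pi.sub_apply]
        split_ifs <;> simp
      rw [e1]
      refine hx.sub ?_
      intro P _
      refine ⟨_, ?_, rfl⟩
      intro j hj
      simp [hj]
  -- minimal support
  have h2 : ∃ n : ℕ, ∃ x : Fin h → F, (∀ i, i ∉ U → x i = 0) ∧ x ≠ 0 ∧ RBad T U F e x ∧
      (univ.filter fun i => x i ≠ 0).card = n := by
    obtain ⟨x, hx, hx0, hb⟩ := h1
    exact ⟨_, x, hx, hx0, hb, rfl⟩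
  obtain ⟨x, hxU, hx0, hxb, hxn⟩ := Nat.find_spec h2
  have hmin := fun m hm => Nat.find_min h2 (m := m) hm
  obtain ⟨i₀, hi₀⟩ := Function.ne_iff.1 hx0
  rw [Pi.zero_apply] at hi₀
  set y : Fin h → F := (x i₀)⁻¹ • x with hy
  have hyb : RBad T U F e y := hxb.smul _
  have hyU : ∀ i, i ∉ U → y i = 0 := by
    intro i hi
    rw [hy, Pi.smul_apply, hxU i hi, smul_zero]
  have hyi : y i₀ = 1 := by
    rw [hy, Pi.smul_apply, smul_eq_mul, inv_mul_cancel₀ hi₀]
  have hysupp : (univ.filter fun i => y i ≠ 0) = (univ.filter fun i => x i ≠ 0) := by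
    ext i
    simp [hy, hi₀]
  have hfix : ∀ σ : F ≃ₐ[ℚ] F, ∀ i, σ (y i) = y i := by
    intro σ
    by_contra hcon
    push Not at hcon
    obtain ⟨i₁, hi₁⟩ := hcon
    set z : Fin h → F := (fun i => σ (y i)) - y with hz
    have hzb : RBad T U F e z := (hyb.galois σ).sub hyb
    have hzU : ∀ i, i ∉ U → z i = 0 := by
      intro i hi
      rw [hz, Pi.sub_apply, hyU i hi, map_zero, sub_zero]
    have hz0 : z ≠ 0 := by
      intro h0
      have := congrFun h0 i₁
      rw [hz, Pi.sub_apply, Pi.zero_apply, sub_eq_zero] at this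
      exact hi₁ this
    refine hmin _ ?_ ⟨z, hzU, hz0, hzb, rfl⟩
    rw [← hxn, ← hysupp]
    refine Finset.card_lt_card ⟨?_, ?_⟩
    · intro i hi
      rw [mem_filter] at hi ⊢
      refine ⟨mem_univ _, fun h0 => hi.2 ?_⟩
      rw [hz, Pi.sub_apply, h0, map_zero, sub_zero]
    · intro hsub
      have h3 : i₀ ∈ univ.filter fun i => y i ≠ 0 := by
        rw [mem_filter, hyi]
        exact ⟨mem_univ _, one_ne_zero⟩
      have h4 := (mem_filter.1 (hsub h3)).2
      apply h4
      rw [hz, Pi.sub_apply, hyi, map_one, sub_self]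
  have hrat : ∀ i, ∃ q : ℚ, algebraMap ℚ F q = y i := by
    intro i
    have := isGalois_closure
    have := (InfiniteGalois.mem_range_algebraMap_iff_fixed (k := ℚ) (K := F) (y i)).2
      (fun σ => hfix σ i)
    exact this
  choose q hq using hrat
  set D : ℕ := ∏ i, (q i).den with hD
  have hD0 : D ≠ 0 := Finset.prod_ne_zero_iff.2 fun i _ => (q i).den_ne_zero
  have hint : ∀ i, ∃ n : ℤ, (n : ℚ) = (D : ℚ) * q i := by
    intro i
    obtain ⟨c, hc⟩ : (q i).den ∣ D := Finset.dvd_prod_of_mem (fun i => (q i).den) (mem_univ i)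
    refine ⟨c * (q i).num, ?_⟩
    rw [hc]
    push_cast
    rw [mul_comm ((q i).den : ℚ), mul_assoc, mul_comm ((q i).den : ℚ), Rat.mul_den_eq_num]
  choose n hn using hint
  have hcast : ∀ i, ((n i : ℤ) : F) = (D : F) * y i := by
    intro i
    have h5 := congrArg (algebraMap ℚ F) (hn i)
    rw [map_mul, hq] at h5
    simpa using h5
  refine ⟨n, ⟨i₀, ?_, ?_⟩, ?_⟩
  · by_contra hc
    exact hi₀ (hxU i₀ hc)
  · intro h0
    have h5 := hcast i₀
    rw [h0, hyi] at h5
    simp only [Int.cast_zero, mul_one] at h5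
    exact hD0 (by exact_mod_cast h5.symm)
  · have h6 : (fun i => ((n i : ℤ) : F)) = (D : F) • y := by
      ext i
      rw [hcast i]
      rfl
    rw [h6]
    exact hyb.smul _

/-- If the small invariant quotients do not separate the points from the coordinate subspace over
`ℂ`, then there is an integral vector off the subspace which is not separated by any small
invariant quotient over any field of characteristic zero. -/
theorem exists_int_bad [Finite ι] (hF : ¬ RFull T U ℂ e) :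
    ∃ ζ : Fin h → ℤ, (∃ i ∈ U, ζ i ≠ 0) ∧
      ∀ (k : Type) [Field k] [CharZero k], RBad T U k e (fun i => (ζ i : k)) := by
  have h1 : ¬ RFull T U (AlgebraicClosure ℚ) e := by
    intro h
    apply hF
    have := isAlgebraic_closure
    exact (h.cert.map ((IsAlgClosed.lift : AlgebraicClosure ℚ →ₐ[ℚ] ℂ) :
      AlgebraicClosure ℚ →+* ℂ)).full
  obtain ⟨ζ, hζ, hb⟩ := exists_rational_bad h1
  refine ⟨ζ, hζ, ?_⟩
  intro k _ _ P hP
  by_contra hcon
  obtain ⟨P', hP', h2⟩ := sep_algClosure ζ P hP hcon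
  exact h2 (hb P' hP')

end Pool.Agent.Q26.RF
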