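import Pool.Agent.Q26.RF.Rel1
import Pool.Agent.Q26.RF.Flag

/-!
# The dimension of the Mal'cev Lie algebra is at most the Hirsch length
-/

set_option autoImplicit false

namespace Pool.Agent.Q26.RF

open Finset Matrix Pool.Agent.TH91.RF

attribute [local instance 100] LieRing.ofAssociativeRing

variable {G : Type*} [Group G]

/-- a polycyclic series with `m` infinite factors, from `⊥` to `A` -/
inductive PolySeries : Subgroup G → ℕ → Prop
  | bot : PolySeries ⊥ 0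
  | fin {A B : Subgroup G} {m : ℕ} (h : PolySeries A m) (hle : A ≤ B)
      (hn : (A.subgroupOf B).Normal) (hc : IsCyclic (↥B ⧸ A.subgroupOf B))
      (hf : Finite (↥B ⧸ A.subgroupOf B)) : PolySeries B m
  | inf {A B : Subgroup G} {m : ℕ} (h : PolySeries A m) (hle : A ≤ B)
      (hn : (A.subgroupOf B).Normal) (hc : IsCyclic (↥B ⧸ A.subgroupOf B))
      (hf : Infinite (↥B ⧸ A.subgroupOf B)) : PolySeries B (m + 1)

theorem lie_bracket_mem (c : MalcevCompletion G) {A : Subgroup G}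
    {J : Submodule ℚ (Matrix (Fin c.N) (Fin c.N) ℚ)}
    (hJ : ∀ x, x ∈ J ↔ x ∈ c.L ∧ ∃ m : ℕ, 0 < m ∧ ∃ g ∈ A, c.ρ g = IsNilpotent.exp (m • x))
    {a : G} (ha : ∀ t : ℕ, ∀ k ∈ A, a ^ t * k * (a ^ t)⁻¹ ∈ A)
    {α : Matrix (Fin c.N) (Fin c.N) ℚ} (hα : α ∈ c.L) (haα : c.ρ a = IsNilpotent.exp α)
    {Y : Matrix (Fin c.N) (Fin c.N) ℚ} (hY : Y ∈ J) : α * Y - Y * α ∈ J := by
  rcases Nat.eq_zero_or_pos c.N with hN0 | hN0
  · have : Y = 0 := (matFilt c.N).eq_zero_of_le (by omega) (mem_filt c ((hJ Y).1 hY).1)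
    rw [this]
    simp
  obtain ⟨hYL, m, hm, k, hk, hkY⟩ := (hJ Y).1 hY
  have hT := (matFilt c.N).lieLat
  have hmY : m • Y ∈ (matFilt c.N).F 1 := mem_filt c (c.L.toSubmodule.nsmul_mem hYL m)
  have hαF : α ∈ (matFilt c.N).F 1 := mem_filt c hα
  have hexp : ∀ t : ℕ, ∑ n ∈ range (c.N + 1), ((t ^ n : ℕ) : ℤ) •
      (((n.factorial : ℚ))⁻¹ • (adr (-α))^[n] (m • Y)) ∈ J.toAddSubgroup := by
    intro t
    have htα : t • α ∈ (matFilt c.N).F 1 := ((matFilt c.N).F 1).nsmul_mem hαF t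
    have h1 : c.ρ (a ^ t * k * (a ^ t)⁻¹) = IsNilpotent.exp (∑ n ∈ range (c.N + 1),
        ((n.factorial : ℚ))⁻¹ • (adr (-(t • α)))^[n] (m • Y)) := by
      have h2 : c.ρ (a ^ t) = IsNilpotent.exp (t • α) := by
        rw [map_pow, haα, exp_nsmul hαF]
      rw [map_mul, map_mul, rho_inv c.ρ htα h2, h2, hkY]
      exact hT.exp_conj_eq htα hmY
    have h2 : ∑ n ∈ range (c.N + 1), ((n.factorial : ℚ))⁻¹ • (adr (-(t • α)))^[n] (m • Y) =
        ∑ n ∈ range (c.N + 1), ((t ^ n : ℕ) : ℤ) •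
          (((n.factorial : ℚ))⁻¹ • (adr (-α))^[n] (m • Y)) := by
      refine sum_congr rfl fun n _ => ?_
      have e1 : (-(t • α)) = (t : ℚ) • (-α) := by
        rw [smul_neg, Nat.cast_smul_eq_nsmul]
      rw [e1, adr_smul_iter, smul_comm, ← Int.cast_smul_eq_zsmul ℚ]
      push_cast
      rfl
    rw [← h2]
    obtain ⟨X, hX, hgX⟩ := c.exp_mem (a ^ t * k * (a ^ t)⁻¹)
    have h3 : (∑ n ∈ range (c.N + 1), ((n.factorial : ℚ))⁻¹ • (adr (-(t • α)))^[n] (m • Y)) ∈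
        (matFilt c.N).F 1 := Submodule.sum_mem _ fun n hn =>
      hT.fact_adr_mem hT.self htα hmY n (mem_range.1 hn)
    have h4 := (matFilt c.N).exp_inj (mem_filt c hX) h3 (by rw [← hgX, h1])
    rw [← h4]
    exact (hJ X).2 ⟨hX, 1, one_pos, _, ha t k hk, by rw [one_smul]; exact hgX⟩
  have h5 := vdm_mem c.N J.toAddSubgroup _ hexp 1 (by omega)
  simp only [Nat.factorial_one, Nat.cast_one, inv_one, one_smul, Function.iterate_one] at h5
  have h6 : adr (-α) (m • Y) = (m : ℚ) • (α * Y - Y * α) := by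
    unfold adr
    rw [Nat.cast_smul_eq_nsmul, smul_sub, mul_neg, neg_mul, sub_neg_eq_add, smul_mul_assoc,
      mul_smul_comm]
    abel
  rw [h6] at h5
  have h7 : ((vdm c.N : ℚ) * m) • (α * Y - Y * α) ∈ J := by
    rw [mul_smul, Int.cast_smul_eq_zsmul]
    exact h5
  have h8 : (vdm c.N : ℚ) * m ≠ 0 := mul_ne_zero (by exact_mod_cast vdm_ne_zero c.N)
    (by exact_mod_cast hm.ne')
  have h9 := J.smul_mem ((vdm c.N : ℚ) * m)⁻¹ h7
  rwa [smul_smul, inv_mul_cancel₀ h8, one_smul] at h9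

/-- one step of the series -/
theorem lie_step (c : MalcevCompletion G) {A B : Subgroup G} (hle : A ≤ B)
    (hn : (A.subgroupOf B).Normal) (hc : IsCyclic (↥B ⧸ A.subgroupOf B))
    {J J' : Submodule ℚ (Matrix (Fin c.N) (Fin c.N) ℚ)}
    (hJ : ∀ x, x ∈ J ↔ x ∈ c.L ∧ ∃ m : ℕ, 0 < m ∧ ∃ g ∈ A, c.ρ g = IsNilpotent.exp (m • x))
    (hJbr : ∀ x ∈ J, ∀ y ∈ J, x * y - y * x ∈ J)
    (hJ' : ∀ x, x ∈ J' ↔ x ∈ c.L ∧ ∃ m : ℕ, 0 < m ∧ ∃ g ∈ B, c.ρ g = IsNilpotent.exp (m • x)) :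
    ∃ α, J' ≤ J ⊔ Submodule.span ℚ {α} ∧ (Finite (↥B ⧸ A.subgroupOf B) → α ∈ J) := by
  obtain ⟨a', ha'⟩ := hc.exists_generator
  obtain ⟨a, rfl⟩ := QuotientGroup.mk_surjective a'
  obtain ⟨α, hα, haα⟩ := c.exp_mem (a : G)
  have hgen : ∀ g : G, g ∈ B → ∃ n : ℤ, ∃ k ∈ A, g = (a : G) ^ n * k := by
    intro g hg
    obtain ⟨n, hn'⟩ := ha' (QuotientGroup.mk (⟨g, hg⟩ : B))
    have h1 : ((a ^ n)⁻¹ * (⟨g, hg⟩ : B)) ∈ A.subgroupOf B := by
      rw [← QuotientGroup.eq]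
      exact hn'
    refine ⟨n, ((a : G) ^ n)⁻¹ * g, ?_, by group⟩
    rw [Subgroup.mem_subgroupOf] at h1
    simpa using h1
  have hnorm : ∀ t : ℕ, ∀ k ∈ A, (a : G) ^ t * k * ((a : G) ^ t)⁻¹ ∈ A := by
    intro t k hk
    have h1 := hn.conj_mem (⟨k, hle hk⟩ : B) (by rw [Subgroup.mem_subgroupOf]; exact hk) (a ^ t)
    rw [Subgroup.mem_subgroupOf] at h1
    simpa using h1
  have hαJ : ∀ Y ∈ J, α * Y - Y * α ∈ J := fun Y hY =>
    lie_bracket_mem c hJ hnorm hα haα hY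
  refine ⟨α, ?_, ?_⟩
  · set W := J ⊔ Submodule.span ℚ {α} with hW
    have hmemW : ∀ x, x ∈ W ↔ ∃ y ∈ J, ∃ q : ℚ, x = y + q • α := by
      intro x
      rw [hW, Submodule.mem_sup]
      constructor
      · rintro ⟨y, hy, z, hz, rfl⟩
        obtain ⟨q, rfl⟩ := Submodule.mem_span_singleton.1 hz
        exact ⟨y, hy, q, rfl⟩
      · rintro ⟨y, hy, q, rfl⟩
        exact ⟨y, hy, _, Submodule.smul_mem _ _ (Submodule.mem_span_singleton_self α), rfl⟩
    have hWJ : ∀ u ∈ W, ∀ v ∈ J, u * v - v * u ∈ J := by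
      intro u hu v hv
      obtain ⟨y, hy, q, rfl⟩ := (hmemW u).1 hu
      have h1 : (y + q • α) * v - v * (y + q • α) = (y * v - v * y) + q • (α * v - v * α) := by
        rw [add_mul, mul_add, smul_mul_assoc, mul_smul_comm, smul_sub]
        abel
      rw [h1]
      exact J.add_mem (hJbr y hy v hv) (J.smul_mem q (hαJ v hv))
    have hWW : ∀ u ∈ W, ∀ v ∈ W, u * v - v * u ∈ J := by
      intro u hu v hv
      obtain ⟨y, hy, q, rfl⟩ := (hmemW v).1 hv
      obtain ⟨y', hy', q', rfl⟩ := (hmemW u).1 hu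
      have h1 : (y' + q' • α) * (y + q • α) - (y + q • α) * (y' + q' • α) =
          ((y' + q' • α) * y - y * (y' + q' • α)) - q • (α * y' - y' * α) := by
        rw [add_mul, mul_add, mul_add, add_mul, mul_add, add_mul, mul_add]
        simp only [smul_mul_assoc, mul_smul_comm, smul_sub, smul_smul]
        rw [mul_comm q' q]
        abel
      rw [h1]
      exact J.sub_mem (hWJ _ hu y hy) (J.smul_mem q (hαJ y' hy'))
    have hJW : J ≤ W := le_sup_left
    have hWL : ∀ x ∈ W, x ∈ c.L := by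
      intro x hx
      obtain ⟨y, hy, q, rfl⟩ := (hmemW x).1 hx
      exact c.L.add_mem ((hJ y).1 hy).1 (c.L.smul_mem q hα)
    have hT : LieLat (matFilt c.N) W.toAddSubgroup := by
      refine ⟨fun x hx => mem_filt c (hWL x hx), fun u hu v hv => ?_⟩
      exact W.smul_mem _ (hJW (hWW u hu v hv))
    have hI : LieIdl c.N W.toAddSubgroup J.toAddSubgroup :=
      ⟨fun x hx => hJW hx, fun u hu v hv => J.smul_mem _ (hWJ u hu v hv)⟩
    intro X hX
    obtain ⟨hXL, m, hm, g, hg, hgX⟩ := (hJ' X).1 hX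
    obtain ⟨n, k, hk, hgk⟩ := hgen g hg
    obtain ⟨ξ, hξ, hkξ⟩ := c.exp_mem k
    have hξJ : ξ ∈ J := (hJ ξ).2 ⟨hξ, 1, one_pos, k, hk, by rw [one_smul]; exact hkξ⟩
    have hαF : α ∈ (matFilt c.N).F 1 := mem_filt c hα
    have hnα : n • α ∈ W := by
      rw [hmemW]
      refine ⟨0, J.zero_mem, n, ?_⟩
      rw [zero_add, Int.cast_smul_eq_zsmul]
    obtain ⟨j', hj', h1⟩ := hT.exp_mul_idl hI (x := n • α) (j := ξ) hnα hξJ
    have h2 : m • X = n • α + j' := by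
      refine (matFilt c.N).exp_inj (mem_filt c (c.L.toSubmodule.nsmul_mem hXL m))
        (mem_filt c (hWL _ (W.add_mem hnα (hJW hj')))) ?_
      rw [← h1, ← hgX, hgk, map_mul, rho_zpow c.ρ hαF haα, hkξ]
    have h3 : X = (m : ℚ)⁻¹ • (n • α + j') := by
      rw [← h2, ← Nat.cast_smul_eq_nsmul ℚ, smul_smul, inv_mul_cancel₀, one_smul]
      exact_mod_cast hm.ne'
    rw [h3]
    exact W.smul_mem _ (W.add_mem hnα (hJW hj'))
  · intro hf
    obtain ⟨m, hm, h1⟩ := (isOfFinOrder_of_finite (QuotientGroup.mk a :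
      ↥B ⧸ A.subgroupOf B)).exists_pow_eq_one
    have h2 : a ^ m ∈ A.subgroupOf B := by
      rw [← QuotientGroup.eq_one_iff]
      exact h1
    rw [Subgroup.mem_subgroupOf] at h2
    have h3 : (a : G) ^ m ∈ A := by simpa using h2
    refine (hJ α).2 ⟨hα, m, hm, _, h3, ?_⟩
    rw [map_pow, haα, exp_nsmul (mem_filt c hα)]

theorem finrank_le_of_series (c : MalcevCompletion G) {A : Subgroup G} {m : ℕ}
    (h : PolySeries A m) : ∀ J : Submodule ℚ (Matrix (Fin c.N) (Fin c.N) ℚ),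
      (∀ x, x ∈ J ↔ x ∈ c.L ∧ ∃ m : ℕ, 0 < m ∧ ∃ g ∈ A, c.ρ g = IsNilpotent.exp (m • x)) →
      Module.finrank ℚ J ≤ m := by
  induction h with
  | bot =>
    intro J hJ
    have h0 : J = ⊥ := by
      rw [eq_bot_iff]
      intro x hx
      obtain ⟨hxL, m, hm, g, hg, hgx⟩ := (hJ x).1 hx
      rw [Subgroup.mem_bot] at hg
      rw [hg, map_one] at hgx
      have h1 := eq_zero_of_exp c (c.L.toSubmodule.nsmul_mem hxL m) hgx.symm
      rw [← Nat.cast_smul_eq_nsmul ℚ, smul_eq_zero] at h1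
      rcases h1 with h1 | h1
      · exact absurd (by exact_mod_cast h1 : m = 0) (by omega)
      · exact h1
    rw [h0, finrank_bot]
  | fin h hle hn hc hf ih =>
    rename_i A B m
    intro J' hJ'
    obtain ⟨J, hJ, hJbr⟩ := exists_lie c A
    obtain ⟨α, h1, h2⟩ := lie_step c hle hn hc hJ hJbr hJ'
    have h3 : J' ≤ J := by
      refine h1.trans (sup_le le_rfl ?_)
      rw [Submodule.span_le, Set.singleton_subset_iff]
      exact h2 hf
    exact (Submodule.finrank_mono h3).trans (ih J hJ)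
  | inf h hle hn hc hf ih =>
    rename_i A B m
    intro J' hJ'
    obtain ⟨J, hJ, hJbr⟩ := exists_lie c A
    obtain ⟨α, h1, h2⟩ := lie_step c hle hn hc hJ hJbr hJ'
    refine (Submodule.finrank_mono h1).trans ?_
    refine (Submodule.finrank_add_le_finrank_add_finrank _ _).trans ?_
    refine Nat.add_le_add (ih J hJ) ?_
    exact (finrank_span_le_card ({α} : Set _)).trans (by simp)

theorem finrank_le_hirsch (c : MalcevCompletion G) {m : ℕ}
    (h : PolySeries (⊤ : Subgroup G) m) : Module.finrank ℚ c.L ≤ m := by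
  have h1 := finrank_le_of_series c h c.L.toSubmodule (by
    intro x
    constructor
    · intro hx
      obtain ⟨m, hm, g, hg⟩ := c.dense x hx
      exact ⟨hx, m, hm, g, Subgroup.mem_top g, hg⟩
    · exact fun h => h.1)
  exact h1

end Pool.Agent.Q26.RF
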