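import Pool.Agent.Q26.RF.Hirsch

/-!
# Polycyclic series exist
-/

set_option autoImplicit false

namespace Pool.Agent.Q26.RF

open Pool.Agent.Helper611.PcChain

variable {G : Type*} [Group G]

theorem series_of_chain {A B : Subgroup G} (h : Chain A B) (hA : ∃ m, PolySeries A m) :
    ∃ m, PolySeries B m := by
  induction h with
  | refl => exact hA
  | step h hle κ hκ ih =>
    rename_i R R'
    obtain ⟨m, hm⟩ := ih
    have hker : κ.ker = R.subgroupOf R' := by
      ext x
      rw [MonoidHom.mem_ker, hκ, Subgroup.mem_subgroupOf]
    have hn : (R.subgroupOf R').Normal := by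
      rw [← hker]
      infer_instance
    have hc : IsCyclic (↥R' ⧸ R.subgroupOf R') := by
      let f : (↥R' ⧸ R.subgroupOf R') →* Multiplicative ℤ :=
        QuotientGroup.lift (R.subgroupOf R') κ (by
          intro x hx
          rw [hker]
          exact hx)
      have hf : Function.Injective f := by
        rw [injective_iff_map_eq_one]
        intro x
        obtain ⟨x, rfl⟩ := QuotientGroup.mk_surjective x
        intro hx
        rw [QuotientGroup.eq_one_iff, ← hker, MonoidHom.mem_ker]
        exact hx
      exact isCyclic_of_injective f hf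
    rcases finite_or_infinite (↥R' ⧸ R.subgroupOf R') with hf | hf
    · exact ⟨m, hm.fin hle hn hc hf⟩
    · exact ⟨m + 1, hm.inf hle hn hc hf⟩

theorem exists_series (G : Type*) [Group G] [Group.IsNilpotent G] (hfg : Group.FG G)
    (htf : ∀ x : G, ∀ n : ℕ, 0 < n → x ^ n = 1 → x = 1) :
    ∃ m, PolySeries (⊤ : Subgroup G) m :=
  series_of_chain (chain_nilpotent G hfg htf) ⟨0, PolySeries.bot⟩

/-- the number of infinite factors of a polycyclic series -/
noncomputable def hirsch (G : Type*) [Group G] : ℕ := sInf {m | PolySeries (⊤ : Subgroup G) m}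

end Pool.Agent.Q26.RF
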