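import Pool.Agent.Q26.RF.Low

/-!
# The exponent is an invariant of the complexified Lie algebra
-/

set_option autoImplicit false

namespace Pool.Agent.Q26.RF

open Finset Matrix Pool.Agent.TH91.RF TensorProduct

/-- The quotients of dimension at most `e` separate the points of a complex Lie algebra. -/
def LF (𝔤 : Type*) [LieRing 𝔤] [LieAlgebra ℂ 𝔤] (e : ℕ) : Prop :=
  ∀ x : 𝔤, (∀ f : 𝔤 →ₗ[ℂ] (Fin e → ℂ), (∀ y z : 𝔤, f z = 0 → f ⁅y, z⁆ = 0) → f x = 0) → x = 0

theorem LF.equiv {𝔤₁ 𝔤₂ : Type*} [LieRing 𝔤₁] [LieAlgebra ℂ 𝔤₁] [LieRing 𝔤₂] [LieAlgebra ℂ 𝔤₂]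
    (φ : 𝔤₁ ≃ₗ⁅ℂ⁆ 𝔤₂) {e : ℕ} (h : LF 𝔤₁ e) : LF 𝔤₂ e := by
  intro x hx
  have h1 : φ.symm x = 0 := by
    refine h _ fun f hf => ?_
    refine hx (f ∘ₗ (φ.symm : 𝔤₂ →ₗ⁅ℂ⁆ 𝔤₁).toLinearMap) ?_
    intro y z hz
    have h2 : f (φ.symm z) = 0 := hz
    have h3 : f ⁅φ.symm y, φ.symm z⁆ = 0 := hf _ _ h2
    rw [← LieEquiv.map_lie] at h3
    exact h3
  have h2 := congrArg φ h1
  rwa [LieEquiv.apply_symm_apply, map_zero] at h2

theorem rfull_iff (L : Type*) [LieRing L] [LieAlgebra ℚ L] {h : ℕ}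
    (b : Module.Basis (Fin h) ℚ L) (T : Fin h → Matrix (Fin h) (Fin h) ℤ)
    (hT : ∀ l i, ⁅b l, b i⁆ = ∑ j, (T l j i) • b j) (e : ℕ) :
    RFull T univ ℂ e ↔ LF (ℂ ⊗[ℚ] L) e := by
  set B : Module.Basis (Fin h) ℂ (ℂ ⊗[ℚ] L) := b.baseChange ℂ with hB
  have hBa : ∀ i, B i = (1 : ℂ) ⊗ₜ[ℚ] b i := fun i => Module.Basis.baseChange_apply ℂ b i
  have hBT : ∀ l i, ⁅B l, B i⁆ = ∑ j, ((T l j i : ℤ) : ℂ) • B j := by
    intro l i
    rw [hBa, hBa, LieAlgebra.ExtendScalars.bracket_tmul, one_mul, hT, tmul_sum]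
    refine sum_congr rfl fun j _ => ?_
    rw [hBa, ← Int.cast_smul_eq_zsmul ℚ, tmul_smul, smul_tmul', smul_tmul']
    congr 1
  have hbr : ∀ l (z : ℂ ⊗[ℚ] L), B.equivFun ⁅B l, z⁆ =
      (T l).map (Int.castRingHom ℂ) *ᵥ B.equivFun z := by
    intro l z
    have h1 : z = ∑ i, B.equivFun z i • B i := (B.sum_equivFun z).symm
    conv_lhs => rw [h1]
    rw [lie_sum, map_sum]
    ext j
    rw [Finset.sum_apply]
    simp only [mulVec, dotProduct, Matrix.map_apply, eq_intCast]
    refine sum_congr rfl fun i _ => ?_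
    rw [lie_smul, map_smul, hBT, map_sum, Pi.smul_apply, Finset.sum_apply, smul_eq_mul, mul_comm]
    congr 1
    rw [Finset.sum_eq_single_of_mem j (mem_univ _)]
    · simp
    · intro j' _ hj'
      simp [hj']
  constructor
  · intro hF x hx
    have h1 : Off univ (B.equivFun x) := by
      refine hF _ ?_
      intro P hP
      refine ⟨0, fun i _ => rfl, ?_⟩
      rw [mulVec_zero]
      obtain ⟨A, hA⟩ := hP
      refine hx (P.mulVecLin ∘ₗ B.equivFun.toLinearMap) ?_
      intro y z hz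
      have hz' : P *ᵥ B.equivFun z = 0 := hz
      change P *ᵥ B.equivFun ⁅y, z⁆ = 0
      have h2 : y = ∑ l, B.equivFun y l • B l := (B.sum_equivFun y).symm
      rw [h2, sum_lie, map_sum, mulVec_sum]
      refine sum_eq_zero fun l _ => ?_
      rw [smul_lie, map_smul, mulVec_smul, hbr, mulVec_mulVec, hA, ← mulVec_mulVec, hz',
        mulVec_zero, smul_zero]
    apply B.equivFun.injective
    rw [map_zero]
    ext i
    exact h1 i (mem_univ i)
  · intro hF x hx
    set x' := B.equivFun.symm x with hx'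
    have hxx : B.equivFun x' = x := B.equivFun.apply_symm_apply x
    have h1 : x' = 0 := by
      refine hF _ ?_
      intro f hf
      set P : Matrix (Fin e) (Fin h) ℂ :=
        LinearMap.toMatrix' (f ∘ₗ B.equivFun.symm.toLinearMap) with hP
      have hPf : ∀ y, P *ᵥ (B.equivFun y) = f y := by
        intro y
        rw [hP, LinearMap.toMatrix'_mulVec]
        simp
      have hQ : Quo T ℂ e P := by
        have h2 : ∀ l, ∃ A : Matrix (Fin e) (Fin e) ℂ, P * (T l).map (Int.castRingHom ℂ) = A * P := by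
          intro l
          obtain ⟨g, hg⟩ := exists_factor P.mulVecLin
            (P * (T l).map (Int.castRingHom ℂ)).mulVecLin (by
              intro v hv
              rw [LinearMap.mem_ker, mulVecLin_apply] at hv ⊢
              obtain ⟨z, rfl⟩ := B.equivFun.surjective v
              rw [← mulVec_mulVec, ← hbr, hPf]
              rw [hPf] at hv
              exact hf _ _ hv)
          refine ⟨LinearMap.toMatrix' g, ?_⟩
          apply Matrix.toLin'.injective
          rw [toLin'_mul _ P, toLin'_toMatrix']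
          refine LinearMap.ext fun v => ?_
          exact (LinearMap.congr_fun hg v).symm
        choose A hA using h2
        exact ⟨A, hA⟩
      obtain ⟨y, hy, h2⟩ := hx P hQ
      have hy0 : y = 0 := by
        ext i
        exact hy i (mem_univ i)
      rw [hy0, mulVec_zero] at h2
      rw [← hPf, hxx, h2]
    rw [← hxx, h1, map_zero]
    exact fun i _ => rfl

end Pool.Agent.Q26.RF
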