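import Pool.Agent.TH91.RF.Ex2

/-!
# Word length, and the size of logarithms
-/

set_option autoImplicit false

namespace Pool.Agent.Q26.RF

open Finset Matrix Pool.Agent.TH91.RF

section words

variable {G : Type*} [Group G] {S : Set G}

theorem wordLen_le (l : List G) (hl : ∀ s ∈ l, s ∈ S ∨ s⁻¹ ∈ S) : wordLen S l.prod ≤ l.length :=
  Nat.sInf_le ⟨l, rfl, hl, rfl⟩

theorem exists_word (hgen : Subgroup.closure S = ⊤) (g : G) :
    ∃ l : List G, l.length = wordLen S g ∧ (∀ s ∈ l, s ∈ S ∨ s⁻¹ ∈ S) ∧ l.prod = g := by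
  have hne : {n : ℕ | ∃ l : List G, l.length = n ∧ (∀ s ∈ l, s ∈ S ∨ s⁻¹ ∈ S) ∧
      l.prod = g}.Nonempty := by
    have hg : g ∈ Subgroup.closure S := by rw [hgen]; exact Subgroup.mem_top g
    rw [← Subgroup.mem_toSubmonoid, Subgroup.closure_toSubmonoid] at hg
    obtain ⟨l, hl, hp⟩ := Submonoid.exists_list_of_mem_closure hg
    refine ⟨l.length, l, rfl, fun s hs => ?_, hp⟩
    have := hl s hs
    rwa [Set.mem_union, Set.mem_inv] at this
  exact Nat.sInf_mem hne

theorem wordLen_one : wordLen S (1 : G) = 0 := by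
  have := wordLen_le (S := S) ([] : List G) (by simp)
  simpa using this

theorem wordLen_pow_le (hgen : Subgroup.closure S = ⊤) (g : G) (n : ℕ) :
    wordLen S (g ^ n) ≤ n * wordLen S g := by
  obtain ⟨l, hl, hS, hp⟩ := exists_word hgen g
  have h1 := wordLen_le (S := S) (List.replicate n l).flatten (by
    intro s hs
    rw [List.mem_flatten] at hs
    obtain ⟨l', hl', hs'⟩ := hs
    rw [List.eq_of_mem_replicate hl'] at hs'
    exact hS s hs')
  rw [List.prod_flatten, List.map_replicate, List.prod_replicate, hp] at h1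
  refine h1.trans ?_
  rw [List.length_flatten, List.map_replicate, List.sum_replicate, hl, smul_eq_mul]

theorem eq_one_of_wordLen (hgen : Subgroup.closure S = ⊤) {g : G} (h : wordLen S g = 0) :
    g = 1 := by
  obtain ⟨l, hl, _, hp⟩ := exists_word hgen g
  rw [h, List.length_eq_zero_iff] at hl
  rw [← hp, hl, List.prod_nil]

end words

section entries

variable {G : Type*} [Group G] {N : ℕ}

theorem weights (ρ : G →* Matrix (Fin N) (Fin N) ℚ)
    (hρ : ∀ g, ρ g - 1 ∈ (matFilt N).F 1) (q B : ℕ) (hB : 1 ≤ B) (l : List G)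
    (hl : ∀ s ∈ l, ∀ i j, (∃ z : ℤ, (z : ℚ) = q * ρ s i j) ∧ |ρ s i j| ≤ B) :
    ∀ i j : Fin N, i ≤ j → (∃ z : ℤ, (z : ℚ) = (q : ℚ) ^ ((j : ℕ) - i) * ρ l.prod i j) ∧
      |ρ l.prod i j| ≤ ((N : ℚ) * B * l.length) ^ ((j : ℕ) - i) := by
  have hlow : ∀ g : G, ∀ i j : Fin N, j < i → ρ g i j = 0 := by
    intro g i j hij
    have h1 := mem_matFilt.1 (hρ g) i j (by
      have : (j : ℕ) < i := hij
      omega)
    rw [Matrix.sub_apply, Matrix.one_apply_ne (ne_of_gt hij), sub_zero] at h1
    exact h1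
  have hdiag : ∀ g : G, ∀ i : Fin N, ρ g i i = 1 := by
    intro g i
    have h1 := mem_matFilt.1 (hρ g) i i (by omega)
    rw [Matrix.sub_apply, Matrix.one_apply_eq, sub_eq_zero] at h1
    exact h1
  induction l with
  | nil =>
    intro i j hij
    rw [List.prod_nil, map_one]
    rcases eq_or_lt_of_le hij with rfl | hlt
    · simp
    · rw [Matrix.one_apply_ne (ne_of_lt hlt)]
      have : (j : ℕ) - i ≠ 0 := by
        have : (i : ℕ) < j := hlt
        omega
      simp [this]
  | cons s l ih =>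
    intro i j hij
    have ih := ih (fun t ht => hl t (List.mem_cons_of_mem s ht))
    have hs := hl s List.mem_cons_self
    rw [List.prod_cons, map_mul, List.length_cons]
    constructor
    · have hterm : ∀ k : Fin N, ∃ z : ℤ, (z : ℚ) =
          (q : ℚ) ^ ((j : ℕ) - i) * (ρ s i k * ρ l.prod k j) := by
        intro k
        rcases lt_trichotomy k i with hk | rfl | hk
        · exact ⟨0, by rw [hlow s i k hk]; simp⟩
        · obtain ⟨z, hz⟩ := (ih k j hij).1
          exact ⟨z, by rw [hz, hdiag, one_mul]⟩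
        · rcases le_or_gt k j with hkj | hkj
          · obtain ⟨z, hz⟩ := (ih k j hkj).1
            obtain ⟨w, hw⟩ := (hs i k).1
            refine ⟨z * w * q ^ ((k : ℕ) - i - 1), ?_⟩
            have e : (j : ℕ) - i = ((j : ℕ) - k) + 1 + ((k : ℕ) - i - 1) := by
              have h1 : (i : ℕ) < k := hk
              have h2 : (k : ℕ) ≤ j := hkj
              omega
            rw [e]
            push_cast
            rw [hz, hw, pow_add, pow_add]
            ring
          · exact ⟨0, by rw [hlow l.prod k j hkj]; simp⟩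
      choose z hz using hterm
      refine ⟨∑ k, z k, ?_⟩
      rw [Matrix.mul_apply, Finset.mul_sum]
      push_cast
      exact sum_congr rfl fun k _ => hz k
    · have hN : 1 ≤ N := by
        have := i.2
        omega
      set x : ℚ := (N : ℚ) * B * l.length with hx
      set c : ℚ := (N : ℚ) * B with hc
      have hx0 : 0 ≤ x := by positivity
      have hc1 : 1 ≤ c := by
        have h1 : (1 : ℚ) ≤ N := by exact_mod_cast hN
        have h2 : (1 : ℚ) ≤ B := by exact_mod_cast hB
        rw [hc]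
        nlinarith
      have exc : (N : ℚ) * B * ((l.length + 1 : ℕ) : ℚ) = x + c := by
        rw [hx, hc]
        push_cast
        ring
      rw [exc]
      rcases eq_or_lt_of_le hij with rfl | hlt
      · rw [← map_mul, hdiag]
        simp
      obtain ⟨d, hd⟩ : ∃ d : ℕ, (j : ℕ) - i = d + 1 := by
        have : (i : ℕ) < j := hlt
        exact ⟨j - i - 1, by omega⟩
      have hle : ∀ m : ℕ, m ≤ d → x ^ m ≤ (x + c) ^ d := by
        intro m hm
        calc x ^ m ≤ (x + c) ^ m := pow_le_pow_left₀ hx0 (by linarith) m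
          _ ≤ (x + c) ^ d := pow_le_pow_right₀ (by linarith) hm
      have hB0 : (0 : ℚ) ≤ B := Nat.cast_nonneg B
      have hxc0 : 0 ≤ (x + c) ^ d := by positivity
      rw [Matrix.mul_apply]
      calc |∑ k, ρ s i k * ρ l.prod k j| ≤ ∑ k, |ρ s i k * ρ l.prod k j| :=
            Finset.abs_sum_le_sum_abs _ _
        _ = |ρ s i i * ρ l.prod i j| + ∑ k ∈ univ.erase i, |ρ s i k * ρ l.prod k j| :=
            (Finset.add_sum_erase _ _ (mem_univ i)).symm
        _ ≤ x * (x + c) ^ d + ∑ k ∈ univ.erase i, B * (x + c) ^ d := by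
            refine add_le_add ?_ (sum_le_sum fun k hk => ?_)
            · rw [hdiag, one_mul]
              refine ((ih i j hij).2).trans ?_
              rw [hd, pow_succ, mul_comm]
              exact mul_le_mul_of_nonneg_left (hle d le_rfl) hx0
            · rw [abs_mul]
              rcases lt_trichotomy k i with hki | rfl | hki
              · rw [hlow s i k hki, abs_zero, zero_mul]
                positivity
              · exact absurd rfl (ne_of_mem_erase hk)
              · rcases le_or_gt k j with hkj | hkj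
                · refine mul_le_mul (hs i k).2 ?_ (abs_nonneg _) hB0
                  refine ((ih k j hkj).2).trans (hle _ ?_)
                  have h1 : (i : ℕ) < k := hki
                  omega
                · rw [hlow l.prod k j hkj, abs_zero, mul_zero]
                  positivity
        _ ≤ x * (x + c) ^ d + c * (x + c) ^ d := by
            rw [sum_const, nsmul_eq_mul, hc, mul_assoc (N : ℚ)]
            refine add_le_add le_rfl (mul_le_mul_of_nonneg_right ?_ (by positivity))
            have h1 : (univ.erase i).card ≤ N := by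
              refine (card_le_card (erase_subset _ _)).trans ?_
              simp
            exact_mod_cast h1
        _ = (x + c) ^ ((j : ℕ) - i) := by
            rw [hd, pow_succ]
            ring

theorem entries (ρ : G →* Matrix (Fin N) (Fin N) ℚ)
    (hρ : ∀ g, ρ g - 1 ∈ (matFilt N).F 1) {S : Set G} (hS : S.Finite)
    (hgen : Subgroup.closure S = ⊤) :
    ∃ Q C : ℕ, 0 < Q ∧ ∀ n : ℕ, ∀ g : G, wordLen S g ≤ n → ∀ i j,
      (∃ z : ℤ, (z : ℚ) = Q * ρ g i j) ∧ |ρ g i j| ≤ ((C : ℚ) * (n + 1)) ^ N := by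
  classical
  -- bounds for the letters
  obtain ⟨q, hq0, hq⟩ : ∃ q : ℕ, 0 < q ∧ ∀ s : G, (s ∈ S ∨ s⁻¹ ∈ S) → ∀ i j,
      ∃ z : ℤ, (z : ℚ) = q * ρ s i j := by
    set S' : Finset G := hS.toFinset ∪ hS.toFinset.image (fun g => g⁻¹) with hS'
    refine ⟨∏ s ∈ S', ∏ i : Fin N, ∏ j : Fin N, (ρ s i j).den, ?_, ?_⟩
    · exact Finset.prod_pos fun s _ => Finset.prod_pos fun i _ => Finset.prod_pos fun j _ =>
        (ρ s i j).den_pos
    · intro s hs i j
      have hsS : s ∈ S' := by
        rw [hS', mem_union, mem_image]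
        rcases hs with hs | hs
        · exact Or.inl (hS.mem_toFinset.2 hs)
        · exact Or.inr ⟨s⁻¹, hS.mem_toFinset.2 hs, inv_inv s⟩
      have hd : (ρ s i j).den ∣ ∏ s ∈ S', ∏ i : Fin N, ∏ j : Fin N, (ρ s i j).den :=
        ((Finset.dvd_prod_of_mem (fun j => (ρ s i j).den) (mem_univ j)).trans
          (Finset.dvd_prod_of_mem (fun i => ∏ j : Fin N, (ρ s i j).den) (mem_univ i))).trans
          (Finset.dvd_prod_of_mem (fun s => ∏ i : Fin N, ∏ j : Fin N, (ρ s i j).den) hsS)
      obtain ⟨c, hc⟩ := hd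
      refine ⟨c * (ρ s i j).num, ?_⟩
      rw [hc]
      push_cast
      rw [mul_comm ((ρ s i j).den : ℚ), mul_assoc, mul_comm ((ρ s i j).den : ℚ),
        Rat.mul_den_eq_num]
  obtain ⟨B, hB1, hB⟩ : ∃ B : ℕ, 1 ≤ B ∧ ∀ s : G, (s ∈ S ∨ s⁻¹ ∈ S) → ∀ i j, |ρ s i j| ≤ B := by
    set S' : Finset G := hS.toFinset ∪ hS.toFinset.image (fun g => g⁻¹) with hS'
    refine ⟨∑ s ∈ S', ∑ i : Fin N, ∑ j : Fin N, ⌈|ρ s i j|⌉₊ + 1, by omega, ?_⟩
    intro s hs i j
    have hsS : s ∈ S' := by
      rw [hS', mem_union, mem_image]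
      rcases hs with hs | hs
      · exact Or.inl (hS.mem_toFinset.2 hs)
      · exact Or.inr ⟨s⁻¹, hS.mem_toFinset.2 hs, inv_inv s⟩
    have h1 : ⌈|ρ s i j|⌉₊ ≤ ∑ s ∈ S', ∑ i : Fin N, ∑ j : Fin N, ⌈|ρ s i j|⌉₊ :=
      ((Finset.single_le_sum (f := fun j => ⌈|ρ s i j|⌉₊) (fun _ _ => Nat.zero_le _)
        (mem_univ j)).trans
        (Finset.single_le_sum (f := fun i => ∑ j : Fin N, ⌈|ρ s i j|⌉₊)
          (fun _ _ => Nat.zero_le _) (mem_univ i))).trans
        (Finset.single_le_sum (f := fun s => ∑ i : Fin N, ∑ j : Fin N, ⌈|ρ s i j|⌉₊)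
          (fun _ _ => Nat.zero_le _) hsS)
    refine (Nat.le_ceil _).trans ?_
    exact_mod_cast h1.trans (Nat.le_succ _)
  refine ⟨q ^ N, N * B + 1, pow_pos hq0 N, ?_⟩
  intro n g hg i j
  obtain ⟨l, hl, hlS, rfl⟩ := exists_word hgen g
  have h1 := weights ρ hρ q B hB1 l (fun s hs i j => ⟨hq s (hlS s hs) i j, hB s (hlS s hs) i j⟩)
  rcases lt_or_ge j i with hji | hij
  · have h2 := mem_matFilt.1 (hρ l.prod) i j (by
      have : (j : ℕ) < i := hji
      omega)
    rw [Matrix.sub_apply, Matrix.one_apply_ne (ne_of_gt hji), sub_zero] at h2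
    rw [h2]
    refine ⟨⟨0, by simp⟩, ?_⟩
    rw [abs_zero]
    positivity
  · obtain ⟨⟨z, hz⟩, h2⟩ := h1 i j hij
    have hjN : (j : ℕ) - i ≤ N := by
      have := j.2
      omega
    constructor
    · refine ⟨z * q ^ (N - ((j : ℕ) - i)), ?_⟩
      push_cast
      rw [hz, mul_right_comm, ← pow_add, Nat.add_sub_cancel' hjN]
    · refine h2.trans ?_
      have h3 : (l.length : ℚ) ≤ n := by
        rw [hl]
        exact_mod_cast hg
      have h4 : (N : ℚ) * B * l.length ≤ ((N * B + 1 : ℕ) : ℚ) * (n + 1) := by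
        push_cast
        have h5 : (0 : ℚ) ≤ (N : ℚ) * B := by positivity
        have h6 : (0 : ℚ) ≤ n := by positivity
        nlinarith
      have h5 : (1 : ℚ) ≤ ((N * B + 1 : ℕ) : ℚ) * (n + 1) := by
        push_cast
        have h5 : (0 : ℚ) ≤ (N : ℚ) * B := by positivity
        have h6 : (0 : ℚ) ≤ n := by positivity
        nlinarith
      calc ((N : ℚ) * B * l.length) ^ ((j : ℕ) - i)
          ≤ (((N * B + 1 : ℕ) : ℚ) * (n + 1)) ^ ((j : ℕ) - i) :=
            pow_le_pow_left₀ (by positivity) h4 _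
        _ ≤ (((N * B + 1 : ℕ) : ℚ) * (n + 1)) ^ N := pow_le_pow_right₀ h5 hjN

end entries

end Pool.Agent.Q26.RF
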