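import Pool.Agent.Q26.RF.Len

/-!
# The size of the logarithms
-/

set_option autoImplicit false

namespace Pool.Agent.Q26.RF

open Finset Matrix Pool.Agent.TH91.RF

attribute [local instance 100] LieRing.ofAssociativeRing

theorem vdm_eq {A : Type*} [AddCommGroup A] (N : ℕ) (z : ℕ → A) (n : ℕ) (hn : n < N + 1) :
    ∑ s : Fin (N + 1), (Matrix.vandermonde (fun i : Fin (N + 1) => ((i : ℕ) : ℤ))).adjugate
      ⟨n, hn⟩ s • (∑ m ∈ range (N + 1), (((s : ℕ) ^ m : ℕ) : ℤ) • z m) = vdm N • z n := by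
  set V := Matrix.vandermonde (fun i : Fin (N + 1) => ((i : ℕ) : ℤ)) with hV
  have h0 : ∀ s : Fin (N + 1), ∑ m ∈ range (N + 1), (((s : ℕ) ^ m : ℕ) : ℤ) • z m =
      ∑ m : Fin (N + 1), V s m • z m := by
    intro s
    rw [← Fin.sum_univ_eq_sum_range (fun m => ((((s : ℕ) ^ m : ℕ)) : ℤ) • z m)]
    refine sum_congr rfl fun m _ => ?_
    rw [hV, Matrix.vandermonde_apply]
    push_cast
    rfl
  simp_rw [h0, smul_sum, smul_smul]
  rw [sum_comm]
  simp_rw [← sum_smul]
  have h2 : ∀ m : Fin (N + 1), ∑ s, V.adjugate ⟨n, hn⟩ s * V s m =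
      if (⟨n, hn⟩ : Fin (N + 1)) = m then vdm N else 0 := by
    intro m
    have h3 := congrFun (congrFun (Matrix.adjugate_mul V) ⟨n, hn⟩) m
    rw [Matrix.mul_apply] at h3
    rw [h3, Matrix.smul_apply, Matrix.one_apply, hV]
    unfold vdm
    split_ifs <;> simp
  simp_rw [h2, ite_smul, zero_smul]
  rw [sum_ite_eq]
  simp

theorem exp_smul_eq {N : ℕ} {X : Matrix (Fin N) (Fin N) ℚ} (hX : X ∈ (matFilt N).F 1) (s : ℕ) :
    IsNilpotent.exp (s • X) = ∑ m ∈ range (N + 1), ((s ^ m : ℕ) : ℤ) •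
      ((m.factorial : ℚ)⁻¹ • X ^ m) := by
  rw [(matFilt N).exp_eq (((matFilt N).F 1).nsmul_mem hX s)]
  refine sum_congr rfl fun m _ => ?_
  rw [smul_pow, natCast_zsmul, smul_comm]

variable {G : Type*} [Group G] {N : ℕ}

/-- the logarithm as a combination of powers -/
theorem log_comb (N : ℕ) : ∃ a : Fin (N + 1) → ℤ, ∀ {G : Type*} [Group G]
    (ρ : G →* Matrix (Fin N) (Fin N) ℚ) (g : G) (X : Matrix (Fin N) (Fin N) ℚ),
    X ∈ (matFilt N).F 1 → ρ g = IsNilpotent.exp X →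
      vdm N • X = ∑ s : Fin (N + 1), a s • ρ (g ^ (s : ℕ)) := by
  rcases Nat.eq_zero_or_pos N with rfl | hN
  · refine ⟨0, fun {G} _ ρ g X hX h => Subsingleton.elim _ _⟩
  refine ⟨fun s => (Matrix.vandermonde (fun i : Fin (N + 1) => ((i : ℕ) : ℤ))).adjugate
      ⟨1, by omega⟩ s, ?_⟩
  intro G _ ρ g X hX h
  have h1 := vdm_eq N (fun m => (m.factorial : ℚ)⁻¹ • X ^ m) 1 (by omega)
  simp only [Nat.factorial_one, Nat.cast_one, inv_one, one_smul, pow_one] at h1
  rw [← h1]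
  refine sum_congr rfl fun s _ => ?_
  congr 1
  rw [map_pow, h, ← exp_nsmul hX, exp_smul_eq hX]

/-- the coordinates of the logarithms: bounded denominators, and polynomial size -/
theorem log_bound {h : ℕ} {L : LieSubalgebra ℚ (Matrix (Fin N) (Fin N) ℚ)}
    (hup : ∀ X ∈ L, ∀ i j : Fin N, j ≤ i → X i j = 0)
    (b : Module.Basis (Fin h) ℚ L)
    (ρ : G →* Matrix (Fin N) (Fin N) ℚ)
    (hρ : ∀ g, ρ g - 1 ∈ (matFilt N).F 1) {S : Set G} (hS : S.Finite)
    (hgen : Subgroup.closure S = ⊤) :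
    ∃ D C : ℕ, 0 < D ∧ ∀ n : ℕ, ∀ g : G, wordLen S g ≤ n → ∀ X ∈ L, ρ g = IsNilpotent.exp X →
      ∃ y : Fin h → ℤ, D • X = emb b y ∧ ∀ i, |((y i : ℤ) : ℚ)| ≤ C * ((n : ℚ) + 1) ^ N := by
  classical
  obtain ⟨Q, C, hQ, hent⟩ := entries ρ hρ hS hgen
  obtain ⟨a, ha⟩ := log_comb N
  -- the coordinate functionals
  have hφ : ∀ i : Fin h, ∃ φ : Matrix (Fin N) (Fin N) ℚ →ₗ[ℚ] ℚ,
      ∀ X : L, φ X = b.repr X i := by
    intro i
    obtain ⟨φ, hφ⟩ := LinearMap.exists_extend (p := L.toSubmodule)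
      ((b.coord i : L →ₗ[ℚ] ℚ) : L.toSubmodule →ₗ[ℚ] ℚ)
    refine ⟨φ, fun X => ?_⟩
    have h1 := LinearMap.congr_fun hφ X
    simpa using h1
  choose φ hφ using hφ
  have hφs : ∀ i (Y : Matrix (Fin N) (Fin N) ℚ),
      φ i Y = ∑ c, ∑ c', Y c c' * φ i (Matrix.single c c' 1) := by
    intro i Y
    conv_lhs => rw [matrix_eq_sum_single Y]
    rw [map_sum]
    refine sum_congr rfl fun c _ => ?_
    rw [map_sum]
    refine sum_congr rfl fun c' _ => ?_
    have e1 : (Matrix.single c c' (Y c c') : Matrix (Fin N) (Fin N) ℚ) =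
        Y c c' • Matrix.single c c' 1 := by
      rw [Matrix.smul_single, smul_eq_mul, mul_one]
    rw [e1, map_smul, smul_eq_mul]
  -- the denominators
  set D₁ : ℕ := ∏ x : Fin h × Fin N × Fin N, (φ x.1 (Matrix.single x.2.1 x.2.2 1)).den with hD₁
  have hD₁0 : 0 < D₁ := Finset.prod_pos fun x _ => Rat.den_pos _
  have hint : ∀ i c c', ∃ n : ℤ, (n : ℚ) = (D₁ : ℚ) * φ i (Matrix.single c c' 1) := by
    intro i c c'
    obtain ⟨w, hw⟩ : (φ i (Matrix.single c c' 1)).den ∣ D₁ := Finset.dvd_prod_of_mem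
      (fun x : Fin h × Fin N × Fin N => (φ x.1 (Matrix.single x.2.1 x.2.2 1)).den)
        (mem_univ (i, c, c'))
    refine ⟨w * (φ i (Matrix.single c c' 1)).num, ?_⟩
    rw [hw]
    push_cast
    rw [mul_comm ((φ i (Matrix.single c c' 1)).den : ℚ), mul_assoc,
      mul_comm ((φ i (Matrix.single c c' 1)).den : ℚ), Rat.mul_den_eq_num]
  choose f hf using hint
  set F : ℕ := ∑ i, ∑ c, ∑ c', (f i c c').natAbs with hF
  have hfF : ∀ i c c', |((f i c c' : ℤ) : ℚ)| ≤ F := by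
    intro i c c'
    have h1 : (f i c c').natAbs ≤ F :=
      ((Finset.single_le_sum (f := fun c' => (f i c c').natAbs) (fun _ _ => Nat.zero_le _)
        (mem_univ c')).trans
        (Finset.single_le_sum (f := fun c => ∑ c', (f i c c').natAbs) (fun _ _ => Nat.zero_le _)
          (mem_univ c))).trans
        (Finset.single_le_sum (f := fun i => ∑ c, ∑ c', (f i c c').natAbs)
          (fun _ _ => Nat.zero_le _) (mem_univ i))
    rw [← Int.cast_abs, Int.abs_eq_natAbs]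
    exact_mod_cast h1
  set A : ℕ := ∑ s, (a s).natAbs with hA
  set v : ℤ := vdm N with hv
  have hv0 : v ≠ 0 := vdm_ne_zero N
  refine ⟨D₁ * Q * v.natAbs ^ 2, v.natAbs * (A * (N * N * (F * Q))) * (C * (N + 1)) ^ N, ?_, ?_⟩
  · have := Int.natAbs_pos.2 hv0
    positivity
  intro n g hg X hX hgX
  have hXF : X ∈ (matFilt N).F 1 := by
    rw [mem_matFilt]
    intro i j hij
    refine hup _ hX i j ?_
    rw [Fin.le_def]
    omega
  have h1 := ha ρ g X hXF hgX
  -- integral matrices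
  have h2 : ∀ s : Fin (N + 1), ∀ c c', ∃ z : ℤ, (z : ℚ) = Q * ρ (g ^ (s : ℕ)) c c' ∧
      |(z : ℚ)| ≤ Q * (C * (N + 1)) ^ N * ((n : ℚ) + 1) ^ N := by
    intro s c c'
    have hw : wordLen S (g ^ (s : ℕ)) ≤ N * n := by
      refine (wordLen_pow_le hgen g s).trans (Nat.mul_le_mul ?_ hg)
      have := s.2
      omega
    obtain ⟨⟨z, hz⟩, h3⟩ := hent _ _ hw c c'
    refine ⟨z, hz, ?_⟩
    rw [hz, abs_mul, Nat.abs_cast, mul_assoc]
    refine mul_le_mul_of_nonneg_left (h3.trans ?_) (Nat.cast_nonneg _)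
    rw [← mul_pow]
    refine pow_le_pow_left₀ (by positivity) ?_ N
    push_cast
    have h4 : (0 : ℚ) ≤ n := by positivity
    have h5 : (0 : ℚ) ≤ C := by positivity
    have h6 : (0 : ℚ) ≤ N := by positivity
    rw [mul_assoc]
    refine mul_le_mul_of_nonneg_left ?_ h5
    nlinarith
  choose z hz hzb using h2
  refine ⟨fun i => v * ∑ s, a s * ∑ c, ∑ c', z s c c' * f i c c', ?_, ?_⟩
  · have hs1 : ∀ i s, ((∑ c, ∑ c', z s c c' * f i c c' : ℤ) : ℚ) =
        (D₁ * Q : ℚ) * φ i (ρ (g ^ (s : ℕ))) := by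
      intro i s
      rw [hφs, Finset.mul_sum]
      push_cast
      refine sum_congr rfl fun c _ => ?_
      rw [Finset.mul_sum]
      refine sum_congr rfl fun c' _ => ?_
      rw [hz, hf]
      ring
    have key : ∀ i, ((∑ s, a s * ∑ c, ∑ c', z s c c' * f i c c' : ℤ) : ℚ) =
        (D₁ * Q : ℚ) * v * b.repr ⟨X, hX⟩ i := by
      intro i
      have h3 : φ i (v • X) = v * b.repr ⟨X, hX⟩ i := by
        rw [map_zsmul, zsmul_eq_mul, ← hφ i ⟨X, hX⟩]
      rw [mul_assoc, ← h3, h1, map_sum, Finset.mul_sum, Int.cast_sum]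
      refine sum_congr rfl fun s _ => ?_
      rw [map_zsmul, zsmul_eq_mul, Int.cast_mul, hs1]
      ring
    rw [emb_eq]
    have h4 : (∑ i, (((v * ∑ s, a s * ∑ c, ∑ c', z s c c' * f i c c' : ℤ)) : ℚ) • b i : L) =
        ((D₁ * Q * v.natAbs ^ 2 : ℕ) : ℚ) • (⟨X, hX⟩ : L) := by
      conv_rhs => rw [← b.sum_repr ⟨X, hX⟩]
      rw [smul_sum]
      refine sum_congr rfl fun i _ => ?_
      rw [smul_smul, Int.cast_mul, key]
      congr 1
      have h5 : ((v.natAbs : ℕ) : ℚ) ^ 2 = (v : ℚ) ^ 2 := by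
        have h6 := congrArg (Int.cast : ℤ → ℚ) (Int.natAbs_sq v)
        rw [Int.cast_pow, Int.cast_pow, Int.cast_natCast] at h6
        exact h6
      push_cast
      rw [h5]
      ring
    rw [h4]
    push_cast
    rw [← Nat.cast_smul_eq_nsmul ℚ]
    push_cast
    rfl
  · intro i
    rw [Int.cast_mul, abs_mul]
    have hv1 : |(v : ℚ)| = (v.natAbs : ℚ) := by
      rw [← Int.cast_abs, Int.abs_eq_natAbs]
      simp
    rw [hv1]
    set W : ℚ := (C * (N + 1)) ^ N * ((n : ℚ) + 1) ^ N with hW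
    have hW0 : 0 ≤ W := by positivity
    have hcc : ∀ s, |((∑ c, ∑ c', z s c c' * f i c c' : ℤ) : ℚ)| ≤ N * N * (F * Q) * W := by
      intro s
      push_cast
      calc |∑ c, ∑ c', (z s c c' : ℚ) * f i c c'|
          ≤ ∑ c, |∑ c', (z s c c' : ℚ) * f i c c'| := Finset.abs_sum_le_sum_abs _ _
        _ ≤ ∑ c : Fin N, ∑ c' : Fin N, |(z s c c' : ℚ) * f i c c'| :=
            sum_le_sum fun c _ => Finset.abs_sum_le_sum_abs _ _
        _ ≤ ∑ c : Fin N, ∑ c' : Fin N, F * Q * W := by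
            refine sum_le_sum fun c _ => sum_le_sum fun c' _ => ?_
            rw [abs_mul]
            calc |(z s c c' : ℚ)| * |(f i c c' : ℚ)| ≤ (Q * W) * F := by
                  refine mul_le_mul ?_ (hfF i c c') (abs_nonneg _) (by positivity)
                  have := hzb s c c'
                  rwa [mul_assoc] at this
              _ = F * Q * W := by ring
        _ = N * N * (F * Q) * W := by
            simp only [sum_const, card_univ, Fintype.card_fin, nsmul_eq_mul]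
            ring
    have hss : |((∑ s, a s * ∑ c, ∑ c', z s c c' * f i c c' : ℤ) : ℚ)| ≤
        A * (N * N * (F * Q) * W) := by
      rw [Int.cast_sum]
      calc |∑ s, ((a s * ∑ c, ∑ c', z s c c' * f i c c' : ℤ) : ℚ)|
          ≤ ∑ s, |((a s * ∑ c, ∑ c', z s c c' * f i c c' : ℤ) : ℚ)| :=
            Finset.abs_sum_le_sum_abs _ _
        _ ≤ ∑ s, ((a s).natAbs : ℚ) * (N * N * (F * Q) * W) := by
            refine sum_le_sum fun s _ => ?_
            rw [Int.cast_mul, abs_mul]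
            have ha1 : |(a s : ℚ)| = ((a s).natAbs : ℚ) := by
              rw [← Int.cast_abs, Int.abs_eq_natAbs]
              simp
            rw [ha1]
            exact mul_le_mul_of_nonneg_left (hcc s) (Nat.cast_nonneg _)
        _ = A * (N * N * (F * Q) * W) := by
            rw [← Finset.sum_mul, hA]
            push_cast
            rfl
    calc (v.natAbs : ℚ) * |((∑ s, a s * ∑ c, ∑ c', z s c c' * f i c c' : ℤ) : ℚ)|
        ≤ (v.natAbs : ℚ) * (A * (N * N * (F * Q) * W)) :=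
          mul_le_mul_of_nonneg_left hss (Nat.cast_nonneg _)
      _ = _ := by
          rw [hW]
          push_cast
          ring

end Pool.Agent.Q26.RF
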