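import Mathlib

/-!
# Reduction to quotients of prime power order, and the exponents
-/

set_option autoImplicit false

namespace Pool.Agent.Q26.RF

open Finset

/-- In a finite nilpotent group, an element in `H A` and in `H B`, for Sylow subgroups `A`, `B` at
different primes, lies in `H`. -/
theorem mem_of_sylow {Q : Type*} [Group Q] [Finite Q] (hQ : Group.IsNilpotent Q) {p q : ℕ}
    [hp : Fact p.Prime] [hq : Fact q.Prime] (hpq : p ≠ q) (A : Sylow p Q) (B : Sylow q Q)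
    (H : Subgroup Q) (x : Q) (h1 : ∃ a ∈ H, ∃ k ∈ (A : Subgroup Q), x = a * k)
    (h2 : ∃ a ∈ H, ∃ k ∈ (B : Subgroup Q), x = a * k) : x ∈ H := by
  have hS := (Group.isNilpotent_of_finite_tfae (G := Q)).out 0 3
  have hn := hS.1 hQ
  obtain ⟨a, ha, s, hs, rfl⟩ := h1
  obtain ⟨b, hb, t, ht, hbt⟩ := h2
  have hdis : Disjoint (A : Subgroup Q) (B : Subgroup Q) :=
    IsPGroup.disjoint_of_ne p q hpq _ _ A.isPGroup' B.isPGroup'
  have hcom : Commute s t :=
    Subgroup.commute_of_normal_of_disjoint _ _ (hn p hp A) (hn q hq B) hdis s t hs ht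
  -- `b⁻¹ a = t s⁻¹`
  have e1 : b⁻¹ * a = t * s⁻¹ := by
    rw [inv_mul_eq_iff_eq_mul, ← mul_assoc, ← hbt, mul_assoc, mul_inv_cancel, mul_one]
  have h3 : t * s⁻¹ ∈ H := by
    rw [← e1]
    exact H.mul_mem (H.inv_mem hb) ha
  obtain ⟨m, hm⟩ := B.isPGroup' ⟨t, ht⟩
  have hm' : t ^ (q ^ m) = 1 := congrArg Subtype.val hm
  obtain ⟨n, hn'⟩ := A.isPGroup' ⟨s, hs⟩
  have hn'' : s ^ (p ^ n) = 1 := congrArg Subtype.val hn'
  have h4 : (s⁻¹) ^ (q ^ m) ∈ H := by
    have h5 := H.pow_mem h3 (q ^ m)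
    rwa [(hcom.symm.inv_right).mul_pow, hm', one_mul] at h5
  have h5 : s ^ (q ^ m) ∈ H := by
    rw [inv_pow] at h4
    simpa using H.inv_mem h4
  have hcop : IsCoprime ((q ^ m : ℕ) : ℤ) ((p ^ n : ℕ) : ℤ) := by
    rw [Nat.isCoprime_iff_coprime]
    exact Nat.Coprime.pow _ _ ((Nat.coprime_primes hq.out hp.out).2 hpq.symm)
  obtain ⟨u, v, huv⟩ := hcop
  have h6 : s = (s ^ (q ^ m)) ^ u * (s ^ (p ^ n)) ^ v := by
    rw [← zpow_natCast, ← zpow_natCast, ← zpow_mul, ← zpow_mul, ← zpow_add, mul_comm _ u,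
      mul_comm _ v, huv, zpow_one]
  refine H.mul_mem ha ?_
  rw [h6, hn'']
  simpa using H.zpow_mem h5 u

variable {G : Type*} [Group G]

theorem prime_power (hG : Group.IsNilpotent G) (H K : Subgroup G) [hK : K.Normal]
    [hKf : K.FiniteIndex] (x : G) (hx : ∀ a ∈ H, ∀ k ∈ K, x ≠ a * k) :
    ∃ p : ℕ, p.Prime ∧ ∃ (r : ℕ) (K' : Subgroup G), K'.Normal ∧ K ≤ K' ∧ K'.index = p ^ r ∧
      (∀ a ∈ H, ∀ k ∈ K', x ≠ a * k) := by
  classical
  have hex : ∃ n : ℕ, ∃ K' : Subgroup G, K'.Normal ∧ K ≤ K' ∧ K'.index = n ∧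
      (∀ a ∈ H, ∀ k ∈ K', x ≠ a * k) := ⟨_, K, hK, le_rfl, rfl, hx⟩
  obtain ⟨K', hn, hle, hidx, hx'⟩ := Nat.find_spec hex
  have hmin := fun m hm => Nat.find_min hex (m := m) hm
  have hK'f : K'.FiniteIndex := Subgroup.finiteIndex_of_le hle
  have hfin : Finite (G ⧸ K') := Subgroup.finite_quotient_of_finiteIndex
  -- the elements of `H A` for larger normal subgroups
  have hbig : ∀ B : Subgroup (G ⧸ K'), B.Normal → B ≠ ⊥ →
      ∃ a ∈ H.map (QuotientGroup.mk' K'), ∃ k ∈ B, QuotientGroup.mk' K' x = a * k := by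
    intro B hB hB0
    by_contra hcon
    push Not at hcon
    have hlt : K' < B.comap (QuotientGroup.mk' K') := by
      refine lt_of_le_of_ne ?_ ?_
      · intro k hk
        rw [Subgroup.mem_comap]
        have : QuotientGroup.mk' K' k = 1 := (QuotientGroup.eq_one_iff k).2 hk
        rw [this]
        exact B.one_mem
      · intro heq
        apply hB0
        rw [eq_bot_iff]
        intro y hy
        obtain ⟨y, rfl⟩ := QuotientGroup.mk'_surjective K' y
        have h1 : y ∈ B.comap (QuotientGroup.mk' K') := hy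
        rw [← heq] at h1
        exact Subgroup.mem_bot.2 ((QuotientGroup.eq_one_iff y).2 h1)
    have hidx' : (B.comap (QuotientGroup.mk' K')).index < K'.index := by
      have h1 := Subgroup.relIndex_mul_index hlt.le
      have h2 : K'.relIndex (B.comap (QuotientGroup.mk' K')) ≠ 1 := by
        rw [Ne, Subgroup.relIndex_eq_one]
        exact not_le_of_gt hlt
      have h3 : K'.index ≠ 0 := hK'f.index_ne_zero
      have h4 : K'.relIndex (B.comap (QuotientGroup.mk' K')) ≠ 0 := by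
        intro h0
        rw [h0, zero_mul] at h1
        exact h3 h1.symm
      have h5 : (B.comap (QuotientGroup.mk' K')).index ≠ 0 := by
        intro h0
        rw [h0, mul_zero] at h1
        exact h3 h1.symm
      rw [← h1]
      have h6 : 2 ≤ K'.relIndex (B.comap (QuotientGroup.mk' K')) := by omega
      have h7 : 0 < (B.comap (QuotientGroup.mk' K')).index := Nat.pos_of_ne_zero h5
      nlinarith
    refine hmin _ (by rw [← hidx]; exact hidx') ⟨B.comap (QuotientGroup.mk' K'),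
      hB.comap _, hle.trans hlt.le, rfl, ?_⟩
    intro a ha k hk heq
    exact hcon _ (Subgroup.mem_map_of_mem _ ha) _ hk (by rw [heq, map_mul])
  have hxH : QuotientGroup.mk' K' x ∉ H.map (QuotientGroup.mk' K') := by
    rintro ⟨a, ha, hax⟩
    have h1 : a⁻¹ * x ∈ K' := QuotientGroup.eq.1 hax
    exact hx' a ha _ h1 (by group)
  have hnilQ : Group.IsNilpotent (G ⧸ K') := inferInstance
  have hcard : Nat.card (G ⧸ K') ≠ 0 := Nat.card_pos.ne'
  -- only one prime
  have hone : ∀ p q : ℕ, p.Prime → q.Prime → p ∣ Nat.card (G ⧸ K') → q ∣ Nat.card (G ⧸ K') →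
      p = q := by
    intro p q hp hq hpd hqd
    by_contra hne
    have hpf : Fact p.Prime := ⟨hp⟩
    have hqf : Fact q.Prime := ⟨hq⟩
    obtain ⟨A⟩ : Nonempty (Sylow p (G ⧸ K')) := inferInstance
    obtain ⟨B⟩ : Nonempty (Sylow q (G ⧸ K')) := inferInstance
    have hS := ((Group.isNilpotent_of_finite_tfae (G := G ⧸ K')).out 0 3).1 hnilQ
    have hA0 : (A : Subgroup (G ⧸ K')) ≠ ⊥ := A.ne_bot_of_dvd_card hpd
    have hB0 : (B : Subgroup (G ⧸ K')) ≠ ⊥ := B.ne_bot_of_dvd_card hqd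
    exact hxH (mem_of_sylow hnilQ hne A B _ _ (hbig _ (hS p hpf A) hA0)
      (hbig _ (hS q hqf B) hB0))
  have hne1 : Nat.card (G ⧸ K') ≠ 1 := by
    intro h1
    have : Subsingleton (G ⧸ K') := (Nat.card_eq_one_iff_unique.1 h1).1
    apply hxH
    rw [Subsingleton.elim (QuotientGroup.mk' K' x) 1]
    exact Subgroup.one_mem _
  obtain ⟨p, hp, hpd⟩ := Nat.exists_prime_and_dvd hne1
  have hpp : IsPrimePow (Nat.card (G ⧸ K')) := by
    rw [isPrimePow_iff_unique_prime_dvd]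
    exact ⟨p, ⟨hp, hpd⟩, fun q hq => (hone p q hp hq.1 hpd hq.2).symm⟩
  rw [isPrimePow_nat_iff] at hpp
  obtain ⟨p', r, hp', hr, hpr⟩ := hpp
  exact ⟨p', hp', r, K', hn, hle, by rw [hpr]; rfl, hx'⟩

open Chebyshev Nat in
theorem lcmUpto_le (m : ℕ) : (lcmUpto m : ℝ) ≤ Real.exp ((Real.log 4 + 4) * m) := by
  have h1 := psi_le_const_mul_self (x := (m : ℝ)) (Nat.cast_nonneg m)
  rw [psi_eq_log_lcmUpto] at h1
  have h2 : (0 : ℝ) < lcmUpto m := by exact_mod_cast lcmUpto_pos m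
  calc (lcmUpto m : ℝ) = Real.exp (Real.log (lcmUpto m)) := (Real.exp_log h2).symm
    _ ≤ _ := Real.exp_le_exp.2 h1

open Chebyshev Nat in
theorem dvd_exponent {p m e r : ℕ} (hp : p.Prime) (hpm : p ≤ m) (hr : p ^ r < m ^ (e + 1)) :
    p ^ r ∣ lcmUpto m ^ (2 * (e + 1)) := by
  have h1 : p ^ (Nat.log p m) ∣ lcmUpto m := by
    refine Finset.dvd_lcm (f := id) ?_
    rw [mem_Icc]
    exact ⟨Nat.pow_pos hp.pos, Nat.pow_log_le_self p (by have := hp.pos; omega)⟩
  have hlog : 1 ≤ Nat.log p m := Nat.log_pos hp.one_lt hpm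
  have h2 : m < p ^ (2 * Nat.log p m) := by
    calc m < p ^ (Nat.log p m + 1) := Nat.lt_pow_succ_log_self hp.one_lt m
      _ ≤ p ^ (2 * Nat.log p m) := Nat.pow_le_pow_right hp.pos (by omega)
  have h3 : r ≤ Nat.log p m * (2 * (e + 1)) := by
    have h4 : p ^ r < p ^ (2 * Nat.log p m * (e + 1)) := by
      calc p ^ r < m ^ (e + 1) := hr
        _ ≤ (p ^ (2 * Nat.log p m)) ^ (e + 1) := Nat.pow_le_pow_left h2.le _
        _ = p ^ (2 * Nat.log p m * (e + 1)) := by rw [← pow_mul]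
    have h5 := (Nat.pow_lt_pow_iff_right hp.one_lt).1 h4
    calc r ≤ 2 * Nat.log p m * (e + 1) := h5.le
      _ = _ := by ring
  calc p ^ r ∣ p ^ (Nat.log p m * (2 * (e + 1))) := pow_dvd_pow p h3
    _ = (p ^ Nat.log p m) ^ (2 * (e + 1)) := by rw [← pow_mul]
    _ ∣ _ := pow_dvd_pow_of_dvd h1 _

end Pool.Agent.Q26.RF
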