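import Pool.Agent.Q26.RF.Up
import Pool.Agent.Q26.RF.PP

/-!
# The lower bound
-/

set_option autoImplicit false

namespace Pool.Agent.Q26.RF

open Finset Matrix Pool.Agent.TH91.RF

attribute [local instance 100] LieRing.ofAssociativeRing

variable {G : Type*} [Group G]

/-- A basis of the Lie algebra with integral structure constants, adapted to a subgroup. -/
structure Adapted (c : MalcevCompletion G) (H : Subgroup G) {h : ℕ}
    (b : Module.Basis (Fin h) ℚ c.L) (T : Fin h → Matrix (Fin h) (Fin h) ℤ)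
    (U : Finset (Fin h)) : Prop where
  hT : ∀ l i, ⁅b l, b i⁆ = ∑ j, (T l j i) • b j
  off : ∀ x : c.L, Off U (b.repr x) ↔
    ∃ m : ℕ, 0 < m ∧ ∃ g ∈ H, c.ρ g = IsNilpotent.exp (m • (x : Matrix (Fin c.N) (Fin c.N) ℚ))
  br : ∀ x y : c.L, Off U (b.repr x) → Off U (b.repr y) → Off U (b.repr ⁅x, y⁆)

theorem repr_emb {N h : ℕ} {L : LieSubalgebra ℚ (Matrix (Fin N) (Fin N) ℚ)}
    (b : Module.Basis (Fin h) ℚ L) (y : Fin h → ℤ) (i : Fin h) :
    b.repr ⟨emb b y, emb_mem b y⟩ i = y i := by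
  have h1 := repr_of_emb b (emb_mem b y) (D := 1) (y := y) (by rw [one_smul]) i
  rwa [Nat.cast_one, one_mul] at h1

theorem bad_element (c : MalcevCompletion G) (H : Subgroup G) {h : ℕ}
    (b : Module.Basis (Fin h) ℚ c.L) (T : Fin h → Matrix (Fin h) (Fin h) ℤ)
    (U : Finset (Fin h)) (hA : Adapted c H b T U) (e : ℕ) (hF : ¬ RFull T U ℂ e) :
    ∃ z : G, (∀ M : ℕ, 0 < M → z ^ M ∉ H) ∧ ∃ p₀ : ℕ, ∀ p : ℕ, p.Prime → p₀ < p →
      ∀ K : Subgroup G, K.Normal → ∀ e' ≤ e, K.index = p ^ e' → ∃ a ∈ H, ∃ k ∈ K, z = a * k := by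
  have hT := hA.hT
  have hΛ := lieRg_range b T hT c.upper
  obtain ⟨ζ, hζ, hbad⟩ := exists_int_bad hF
  obtain ⟨q, hq0, hq⟩ := exists_uniform (matFilt c.N) hΛ (fg_range b) c.ρ (by
    intro x hx
    obtain ⟨y, rfl⟩ := hx
    exact c.dense _ (emb_mem b y))
  -- the lattice of the subgroup
  let O : AddSubgroup (Fin h → ℤ) :=
    { carrier := {w | Off U w}
      add_mem' := by
        intro u v hu hv i hi
        rw [Pi.add_apply, hu i hi, hv i hi, add_zero]
      zero_mem' := fun i _ => rfl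
      neg_mem' := by
        intro u hu i hi
        rw [Pi.neg_apply, hu i hi, neg_zero] }
  have hO : ∀ w, w ∈ O ↔ Off U w := fun w => Iff.rfl
  have hOr : ∀ w, Off U w ↔ Off U (b.repr ⟨emb b w, emb_mem b w⟩) := by
    intro w
    constructor
    · intro hw i hi
      rw [repr_emb, hw i hi, Int.cast_zero]
    · intro hw i hi
      have := hw i hi
      rw [repr_emb] at this
      exact_mod_cast this
  set ΛH : AddSubgroup (Matrix (Fin c.N) (Fin c.N) ℚ) := O.map (emb b) with hΛH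
  have hΛHrg : LieRg (matFilt c.N) ΛH := by
    refine ⟨?_, ?_⟩
    · rintro _ ⟨w, _, rfl⟩
      exact hΛ.le _ ⟨w, rfl⟩
    · rintro _ ⟨u, hu, rfl⟩ _ ⟨v, hv, rfl⟩
      have h1 := hA.br _ _ ((hOr u).1 hu) ((hOr v).1 hv)
      rw [emb_bracket b T hT]
      refine ⟨_, ?_, rfl⟩
      rw [SetLike.mem_coe, hO, hOr]
      convert h1 using 3
      apply Subtype.val_injective
      rw [LieSubalgebra.coe_bracket, LieRing.of_associative_ring_bracket]
      exact (emb_bracket b T hT u v).symm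
  have hΛHfg : (AddSubgroup.toIntSubmodule ΛH).FG := by
    have h1 : IsNoetherian ℤ (AddSubgroup.toIntSubmodule (emb b).range) :=
      isNoetherian_of_fg_of_noetherian _ (fg_range b)
    refine (isNoetherian_submodule.1 h1) _ ?_
    rintro _ ⟨w, _, rfl⟩
    exact ⟨w, rfl⟩
  obtain ⟨q', hq'0, hq'⟩ := exists_uniform (matFilt c.N) hΛHrg hΛHfg (c.ρ.comp H.subtype) (by
    rintro _ ⟨w, hw, rfl⟩
    obtain ⟨m, hm, g, hg, hgm⟩ := (hA.off ⟨emb b w, emb_mem b w⟩).1 ((hOr w).1 hw)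
    exact ⟨m, hm, ⟨g, hg⟩, hgm⟩)
  set D := bigM c.N * (q * q') with hD
  have hDρ : ∀ x ∈ (emb b).range, ∃ g, c.ρ g = IsNilpotent.exp (D • x) := by
    intro x hx
    have e1 : D • x = q • ((bigM c.N * q') • x) := by
      rw [smul_smul, hD]
      congr 1
      ring
    rw [e1]
    exact hq _ ((emb b).range.nsmul_mem hx _)
  have hDH : ∀ x ∈ ΛH, ∃ g ∈ H, c.ρ g = IsNilpotent.exp (D • x) := by
    intro x hx
    have e1 : D • x = q' • ((bigM c.N * q) • x) := by
      rw [smul_smul, hD]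
      congr 1
      ring
    rw [e1]
    obtain ⟨g, hg⟩ := hq' _ (ΛH.nsmul_mem hx _)
    exact ⟨g, g.2, hg⟩
  obtain ⟨z, hz⟩ := hDρ (emb b ζ) ⟨ζ, rfl⟩
  obtain ⟨p₁, hp₁⟩ := eventually_mem T e ζ hbad
  have hD0 : 0 < D := Nat.mul_pos (bigM_pos _) (Nat.mul_pos hq0 hq'0)
  have hζF : D • emb b ζ ∈ (matFilt c.N).F 1 :=
    ((matFilt c.N).F 1).nsmul_mem (hΛ.le _ ⟨ζ, rfl⟩) D
  refine ⟨z, ?_, c.N + 1 + D + p₁, ?_⟩
  · intro M hM hzM
    have h1 : c.ρ (z ^ M) = IsNilpotent.exp (M • (D • emb b ζ)) := by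
      rw [map_pow, hz, exp_nsmul hζF]
    have h2 := (hA.off ⟨D • emb b ζ, c.L.toSubmodule.nsmul_mem (emb_mem b ζ) D⟩).2
      ⟨M, hM, z ^ M, hzM, h1⟩
    obtain ⟨i, hi, hζi⟩ := hζ
    have h3 := h2 i hi
    have h4 : (⟨D • emb b ζ, c.L.toSubmodule.nsmul_mem (emb_mem b ζ) D⟩ : c.L) =
        D • (⟨emb b ζ, emb_mem b ζ⟩ : c.L) := by
      apply Subtype.val_injective
      rfl
    rw [h4, map_nsmul, Finsupp.smul_apply, repr_emb, nsmul_eq_mul, mul_eq_zero] at h3
    rcases h3 with h3 | h3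
    · exact hD0.ne' (by exact_mod_cast h3)
    · exact hζi (by exact_mod_cast h3)
  · intro p hp hlt K hK e' he' hidx
    have : Fact p.Prime := ⟨hp⟩
    obtain ⟨J, hJΛ, hJbr, hJe, hJfin, hJcard, hJK⟩ := group_low (matFilt c.N) hΛ c.ρ c.injective
      (Dvd.intro _ rfl : bigM c.N ∣ D) hDρ p (by omega) (by
        intro hd
        have := Nat.le_of_dvd hD0 hd
        omega) K e' hidx
    set J' : AddSubgroup (Fin h → ℤ) := J.comap (emb b) with hJ'
    have h1 : ∃ y, Off U y ∧ ζ - y ∈ J' := by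
      refine hp₁ p hp (by omega) J' ?_ ?_
      · intro l x hx
        rw [hJ', AddSubgroup.mem_comap] at hx ⊢
        have h2 := hJbr (emb b (Pi.single l 1)) ⟨_, rfl⟩ _ hx
        rw [emb_bracket b T hT] at h2
        have h3 : ∑ l', (Pi.single l 1 : Fin h → ℤ) l' • (T l' *ᵥ x) = T l *ᵥ x := by
          rw [Finset.sum_eq_single_of_mem l (mem_univ _)]
          · simp
          · intro b _ hb
            rw [Pi.single_eq_of_ne hb, zero_smul]
        rwa [h3] at h2
      · have hinj : ∃ f : ((Fin h → ℤ) ⧸ J') → ((emb b).range ⧸ J.addSubgroupOf (emb b).range),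
            Function.Injective f := by
          refine ⟨fun x => QuotientAddGroup.mk (⟨emb b (Quotient.out x), ⟨_, rfl⟩⟩ : (emb b).range), ?_⟩
          intro x y hxy
          simp only at hxy
          rw [QuotientAddGroup.eq, AddSubgroup.mem_addSubgroupOf] at hxy
          have h2 : -Quotient.out x + Quotient.out y ∈ J' := by
            change emb b _ ∈ J
            rw [map_add, map_neg]
            exact hxy
          have h3 : (QuotientAddGroup.mk (Quotient.out x) : (Fin h → ℤ) ⧸ J') =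
              QuotientAddGroup.mk (Quotient.out y) := QuotientAddGroup.eq.2 h2
          have h8 : x = QuotientAddGroup.mk (Quotient.out x) := (Quotient.out_eq x).symm
          have h9 : y = QuotientAddGroup.mk (Quotient.out y) := (Quotient.out_eq y).symm
          rw [h8, h9, h3]
        obtain ⟨f, hf⟩ := hinj
        refine compData_of_card p e h J' ?_ (Finite.of_injective f hf) ?_
        · intro x
          rw [hJ', AddSubgroup.mem_comap]
          have h2 := hJe (emb b x) ⟨x, rfl⟩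
          have h3 : (p : ℤ) ^ e • x = (p ^ (e - e') : ℕ) • ((p ^ e' : ℕ) • x) := by
            rw [smul_smul, ← pow_add, show e - e' + e' = e by omega, ← natCast_zsmul]
            push_cast
            rfl
          rw [h3, map_nsmul, map_nsmul]
          exact J.nsmul_mem h2 _
        · calc Nat.card ((Fin h → ℤ) ⧸ J') ≤ _ := Nat.card_le_card_of_injective f hf
            _ ≤ p ^ e' := hJcard
            _ ≤ p ^ e := Nat.pow_le_pow_right hp.pos he'
    obtain ⟨y, hyU, hyJ⟩ := h1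
    have hyJ' : emb b (ζ - y) ∈ J := hyJ
    -- the group elements
    obtain ⟨cc, hcc⟩ : bigM c.N ∣ D := Dvd.intro _ rfl
    have hT' : LieLat (matFilt c.N) (scl D (emb b).range) := hΛ.scl (Dvd.intro _ rfl)
    have hI' : LieIdl c.N (scl D (emb b).range) (scl D J) := by
      refine ⟨?_, ?_⟩
      · intro x hx
        obtain ⟨w, hw, rfl⟩ := mem_scl.1 hx
        exact mem_scl.2 ⟨w, hJΛ hw, rfl⟩
      · intro u hu v hv
        obtain ⟨x, hx, rfl⟩ := mem_scl.1 hu
        obtain ⟨w, hw, rfl⟩ := mem_scl.1 hv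
        rw [scl_br hcc]
        refine mem_scl.2 ⟨cc • (x * w - w * x), J.nsmul_mem (hJbr x hx w hw) _, ?_⟩
        rw [smul_smul, mul_comm]
    obtain ⟨j, hj, hexp⟩ := hT'.exp_coset hI' (x := D • emb b y) (x' := D • emb b ζ)
      (mem_scl.2 ⟨_, ⟨y, rfl⟩, rfl⟩) (mem_scl.2 ⟨_, ⟨ζ, rfl⟩, rfl⟩) (by
        refine mem_scl.2 ⟨emb b (ζ - y), hyJ', ?_⟩
        rw [map_sub, smul_sub])
    obtain ⟨j', hj', rfl⟩ := mem_scl.1 hj
    obtain ⟨k, hk⟩ := hDρ j' (hJΛ hj')
    obtain ⟨a, haH, ha⟩ := hDH (emb b y) ⟨y, hyU, rfl⟩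
    refine ⟨a, haH, k, hJK j' hj' k hk, ?_⟩
    apply c.injective
    rw [hz, hexp, map_mul, ha, hk]

/-- **The lower bound.** -/
theorem lower [hG : Group.IsNilpotent G] (c : MalcevCompletion G) (H : Subgroup G) {h : ℕ}
    (b : Module.Basis (Fin h) ℚ c.L) (T : Fin h → Matrix (Fin h) (Fin h) ℤ)
    (U : Finset (Fin h)) (hA : Adapted c H b T U) (e : ℕ) (hF : ¬ RFull T U ℂ e) :
    ∃ (z : G) (C : ℕ), ∀ m : ℕ, ∃ M : ℕ, 0 < M ∧ (M : ℝ) ≤ Real.exp (C * (m + 1)) ∧
      (∀ k : ℕ, 0 < k → z ^ k ∉ H) ∧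
      ∀ K : Subgroup G, K.Normal → K.FiniteIndex → (∀ a ∈ H, ∀ k ∈ K, z ^ M ≠ a * k) →
        m ^ (e + 1) ≤ K.index := by
  obtain ⟨z, hz, p₀, hbad⟩ := bad_element c H b T U hA e hF
  refine ⟨z, ⌈(Real.log 4 + 4) * (p₀ + 1) * (2 * (e + 1))⌉₊, fun m => ?_⟩
  set m' : ℕ := m + p₀ with hm'
  have hM0 : 0 < Nat.lcmUpto m' ^ (2 * (e + 1)) := pow_pos (Nat.lcmUpto_pos m') _
  refine ⟨Nat.lcmUpto m' ^ (2 * (e + 1)), hM0, ?_, hz, ?_⟩
  · push_cast
    calc (Nat.lcmUpto m' : ℝ) ^ (2 * (e + 1)) ≤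
        (Real.exp ((Real.log 4 + 4) * m')) ^ (2 * (e + 1)) :=
          pow_le_pow_left₀ (Nat.cast_nonneg _) (lcmUpto_le m') _
      _ = Real.exp ((2 * (e + 1) : ℕ) * ((Real.log 4 + 4) * m')) := by rw [Real.exp_nat_mul]
      _ ≤ _ := by
        apply Real.exp_le_exp.2
        have h4 : 0 ≤ Real.log 4 := Real.log_nonneg (by norm_num)
        have h5 : (m' : ℝ) ≤ (p₀ + 1) * (m + 1) := by
          rw [hm']
          push_cast
          have h6 : (0 : ℝ) ≤ m := Nat.cast_nonneg m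
          have h7 : (0 : ℝ) ≤ p₀ := Nat.cast_nonneg p₀
          nlinarith
        have h6 := Nat.le_ceil ((Real.log 4 + 4) * (p₀ + 1) * (2 * (e + 1)))
        calc ((2 * (e + 1) : ℕ) : ℝ) * ((Real.log 4 + 4) * m')
            ≤ ((2 * (e + 1) : ℕ) : ℝ) * ((Real.log 4 + 4) * ((p₀ + 1) * (m + 1))) := by
              refine mul_le_mul_of_nonneg_left ?_ (Nat.cast_nonneg _)
              exact mul_le_mul_of_nonneg_left h5 (by linarith)
          _ = (Real.log 4 + 4) * (p₀ + 1) * (2 * (e + 1)) * (m + 1) := by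
              push_cast
              ring
          _ ≤ _ := mul_le_mul_of_nonneg_right h6 (by positivity)
  · intro K hKn hKf hK
    obtain ⟨p, hp, r, K', hK'n, hle, hidx, hK'⟩ := prime_power hG H K _ hK
    have hle2 : K'.index ≤ K.index :=
      Nat.le_of_dvd (Nat.pos_of_ne_zero hKf.index_ne_zero) (Subgroup.index_dvd_of_le hle)
    have hmm : m ^ (e + 1) ≤ m' ^ (e + 1) := Nat.pow_le_pow_left (by omega) _
    rcases le_or_gt p m' with hpm | hpm
    · -- small primes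
      by_contra hcon
      push Not at hcon
      have h1 : p ^ r < m' ^ (e + 1) := by
        rw [← hidx]
        omega
      obtain ⟨w, hw⟩ := dvd_exponent hp hpm h1
      refine hK' 1 H.one_mem (z ^ (Nat.lcmUpto m' ^ (2 * (e + 1)))) ?_ (one_mul _).symm
      rw [hw, pow_mul, ← hidx]
      exact K'.pow_mem (K'.pow_index_mem z) _
    · -- large primes
      rcases Nat.lt_or_ge e r with her | her
      · calc m ^ (e + 1) ≤ m' ^ (e + 1) := hmm
          _ ≤ p ^ (e + 1) := Nat.pow_le_pow_left hpm.le _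
          _ ≤ p ^ r := Nat.pow_le_pow_right hp.pos her
          _ = K'.index := hidx.symm
          _ ≤ K.index := hle2
      · exfalso
        obtain ⟨a, ha, k, hk, hzak⟩ := hbad p hp (by omega) K' hK'n r her hidx
        have h1 : z ∈ H ⊔ K' := by
          rw [hzak]
          exact Subgroup.mul_mem_sup ha hk
        have h2 := (H ⊔ K').pow_mem h1 (Nat.lcmUpto m' ^ (2 * (e + 1)))
        rw [Subgroup.mem_sup_of_normal_right] at h2
        obtain ⟨a', ha', k', hk', heq⟩ := h2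
        exact hK' a' ha' k' hk' heq.symm

end Pool.Agent.Q26.RF
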