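import Pool.Agent.H484R2.Pit

/-!
# Small primes of residue degree one not dividing a given integer
-/

set_option autoImplicit false

namespace Pool.Agent.Q26.RF

open NumberField Filter Finset

/-- the primes up to `N` with a residue field `ZMod p` -/
noncomputable def splP (K : Type) [Field K] [NumberField K] (N : ℕ) : Finset ℕ :=
  @Finset.filter ℕ (fun p => p.Prime ∧ Nonempty (𝓞 K →+* ZMod p)) (Classical.decPred _)
    (range (N + 1))

theorem mem_splP {K : Type} [Field K] [NumberField K] {N p : ℕ} :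
    p ∈ splP K N ↔ p ≤ N ∧ p.Prime ∧ Nonempty (𝓞 K →+* ZMod p) := by
  unfold splP
  rw [@mem_filter _ _ (Classical.decPred _), mem_range, Nat.lt_succ_iff]

theorem card_splP (K : Type) [Field K] [NumberField K] :
    ∀ᶠ N : ℕ in atTop, (Nat.primeCounting N : ℝ) ≤
      2 * (Module.finrank ℚ K : ℝ) * ((splP K N).card : ℝ) := by
  have h1 := Pool.Agent.H484R2.pit K
  have h2 : ∀ᶠ N : ℕ in atTop, (1 / 2 : ℝ) <
      (∑ p ∈ (range (N+1)).filter Nat.Prime, (Nat.card (𝓞 K →+* ZMod p):ℝ)) /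
        (Nat.primeCounting N:ℝ) := h1.eventually (lt_mem_nhds (by norm_num))
  filter_upwards [h2] with N hN
  have h3 : (0 : ℝ) < Nat.primeCounting N := by
    by_contra hc
    have : (Nat.primeCounting N : ℝ) = 0 := le_antisymm (not_lt.1 hc) (Nat.cast_nonneg _)
    rw [this, div_zero] at hN
    norm_num at hN
  rw [lt_div_iff₀ h3] at hN
  have h4 : (∑ p ∈ (range (N+1)).filter Nat.Prime, (Nat.card (𝓞 K →+* ZMod p):ℝ)) ≤
      (Module.finrank ℚ K : ℝ) * ((splP K N).card : ℝ) := by
    classical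
    have h5 : (∑ p ∈ (range (N+1)).filter Nat.Prime, (Nat.card (𝓞 K →+* ZMod p):ℝ)) =
        ∑ p ∈ splP K N, (Nat.card (𝓞 K →+* ZMod p):ℝ) := by
      symm
      refine sum_subset ?_ ?_
      · intro p hp
        rw [mem_splP] at hp
        rw [mem_filter, mem_range]
        exact ⟨by omega, hp.2.1⟩
      · intro p hp hp'
        rw [mem_filter, mem_range] at hp
        rw [mem_splP] at hp'
        have h6 : IsEmpty (𝓞 K →+* ZMod p) := by
          rw [← not_nonempty_iff]
          intro h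
          exact hp' ⟨by omega, hp.2, h⟩
        simp
    rw [h5, mul_comm, ← nsmul_eq_mul, ← sum_const]
    refine sum_le_sum fun p hp => ?_
    exact H332.PIT.hc_cast_le (mem_splP.1 hp).2.1
  linarith

theorem log_small (ε : ℝ) (hε : 0 < ε) :
    ∀ᶠ N : ℕ in atTop, Real.log N ≤ ε * Real.sqrt N := by
  have h1 := (isLittleO_log_rpow_atTop (r := 1 / 2) (by norm_num)).bound hε
  have h2 : ∀ᶠ N : ℕ in atTop, ‖Real.log (N : ℝ)‖ ≤ ε * ‖(N : ℝ) ^ (1 / 2 : ℝ)‖ :=
    tendsto_natCast_atTop_atTop.eventually h1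
  filter_upwards [h2] with N hN
  rw [← Real.sqrt_eq_rpow, Real.norm_of_nonneg (Real.sqrt_nonneg _)] at hN
  exact (le_abs_self _).trans hN

theorem main_ineq (d : ℝ) (hd : 1 ≤ d) (A : ℕ → ℝ)
    (hA : ∀ᶠ N : ℕ in atTop, (Nat.primeCounting N : ℝ) ≤ 2 * d * A N) :
    ∀ᶠ N : ℕ in atTop, (N : ℝ) / (8 * d) < (A N - Real.sqrt N) * (Real.log N / 2) := by
  have hd0 : 0 < d := by linarith
  filter_upwards [hA, log_small (1 / (64 * d)) (by positivity), eventually_ge_atTop 2] with N h1 h2 hN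
  have hNR : (2 : ℝ) ≤ N := by exact_mod_cast hN
  have hlog : 0 < Real.log N := Real.log_pos (by linarith)
  have h3 := Chebyshev.pi_ge N
  rw [div_le_iff₀ hlog] at h3
  have h4 : Real.log (N + 1) ≤ Real.log N + 1 := by
    have h5 : (N : ℝ) + 1 ≤ N * Real.exp 1 := by
      have : 2 ≤ Real.exp 1 := by
        have := Real.add_one_le_exp (1 : ℝ)
        linarith
      nlinarith
    calc Real.log (N + 1) ≤ Real.log (N * Real.exp 1) := Real.log_le_log (by linarith) h5
      _ = Real.log N + 1 := by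
        rw [Real.log_mul (by linarith) (Real.exp_ne_zero _), Real.log_exp]
  have hs : Real.sqrt N * Real.sqrt N = N := Real.mul_self_sqrt (by linarith)
  have hs0 : 0 ≤ Real.sqrt N := Real.sqrt_nonneg _
  have hs1 : Real.sqrt N ≤ N := by
    rw [Real.sqrt_le_left (by linarith)]
    nlinarith
  have h6 : Real.sqrt N * Real.log N ≤ N / (64 * d) := by
    calc Real.sqrt N * Real.log N ≤ Real.sqrt N * (1 / (64 * d) * Real.sqrt N) :=
        mul_le_mul_of_nonneg_left h2 hs0
      _ = N / (64 * d) := by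
        rw [mul_left_comm, hs]
        ring
  have h7 : Real.log N ≤ N / 64 := by
    have : 1 / (64 * d) * Real.sqrt N ≤ 1 / 64 * N := by
      refine mul_le_mul ?_ hs1 hs0 (by norm_num)
      rw [div_le_div_iff₀ (by positivity) (by norm_num)]
      linarith
    linarith
  have h8 : (0.6931471803 : ℝ) < Real.log 2 := Real.log_two_gt_d9
  -- combine
  have h9 : (N : ℝ) * Real.log 2 - (Real.log N + 1) ≤ 2 * d * A N * Real.log N := by
    calc (N : ℝ) * Real.log 2 - (Real.log N + 1) ≤ N * Real.log 2 - Real.log (N + 1) := by linarith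
      _ ≤ Nat.primeCounting N * Real.log N := h3
      _ ≤ 2 * d * A N * Real.log N := mul_le_mul_of_nonneg_right h1 hlog.le
  rw [div_lt_iff₀ (by positivity)]
  have h10 : (A N - Real.sqrt N) * (Real.log N / 2) * (8 * d) =
      2 * (2 * d * A N * Real.log N) - 4 * d * (Real.sqrt N * Real.log N) := by ring
  rw [h10]
  have h11 : 4 * d * (Real.sqrt N * Real.log N) ≤ N / 16 := by
    calc 4 * d * (Real.sqrt N * Real.log N) ≤ 4 * d * (N / (64 * d)) :=
        mul_le_mul_of_nonneg_left h6 (by positivity)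
      _ = N / 16 := by
        field_simp
        ring
  have h12 : (N : ℝ) * 0.6931471803 ≤ N * Real.log 2 :=
    mul_le_mul_of_nonneg_left h8.le (by linarith)
  have h13 : (N : ℝ) < 2 * (N * 0.6931471803 - (N / 64 + 1)) - N / 16 ∨ (N : ℝ) < 8 := by
    by_cases h : (N : ℝ) < 8
    · exact Or.inr h
    · left
      push Not at h
      linarith
  rcases h13 with h13 | h13
  · linarith
  · -- small `N`: the logarithm bound fails
    exfalso
    have h14 : Real.log 2 ≤ Real.log N := Real.log_le_log (by norm_num) hNR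
    linarith

theorem exists_prime (K : Type) [Field K] [NumberField K] (p₀ : ℕ) :
    ∃ C : ℕ, ∀ z : ℕ, z ≠ 0 → ∃ p : ℕ, p.Prime ∧ p₀ < p ∧ Nonempty (𝓞 K →+* ZMod p) ∧
      ¬ p ∣ z ∧ (p : ℝ) ≤ C * (Real.log z + 1) := by
  classical
  set d : ℕ := Module.finrank ℚ K with hd
  have hd1 : 1 ≤ d := Module.finrank_pos
  have h1 := main_ineq (d : ℝ) (by exact_mod_cast hd1) (fun N => ((splP K N).card : ℝ))
    (card_splP K)
  rw [eventually_atTop] at h1
  obtain ⟨N₀, hN₀⟩ := h1
  refine ⟨N₀ + p₀ ^ 2 + 2 + 8 * d + 1, fun z hz => ?_⟩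
  have hlz : 0 ≤ Real.log z := Real.log_natCast_nonneg z
  set N : ℕ := N₀ + p₀ ^ 2 + 2 + ⌊8 * d * Real.log z⌋₊ + 1 with hN
  have h2 := hN₀ N (by omega)
  have hNR : (N : ℝ) = N₀ + p₀ ^ 2 + 2 + (⌊8 * d * Real.log z⌋₊ : ℝ) + 1 := by
    rw [hN]; push_cast; ring
  have hN1 : 8 * d * Real.log z < N := by
    rw [hNR]
    have := Nat.lt_floor_add_one (8 * d * Real.log z)
    have h3 : (0 : ℝ) ≤ (N₀ : ℝ) + p₀ ^ 2 := by positivity
    linarith
  have hN2 : (N : ℝ) ≤ ((N₀ + p₀ ^ 2 + 2 + 8 * d + 1 : ℕ) : ℝ) * (Real.log z + 1) := by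
    rw [hNR]
    have := Nat.floor_le (a := 8 * d * Real.log z) (by positivity)
    push_cast
    have h3 : (0 : ℝ) ≤ ((N₀ : ℝ) + p₀ ^ 2 + 2 + 1) * Real.log z := by positivity
    have h4 : (0 : ℝ) ≤ (d : ℝ) := Nat.cast_nonneg _
    nlinarith
  by_contra hcon
  push Not at hcon
  set r := Nat.sqrt N with hr
  have hr0 : p₀ ≤ r := by
    rw [hr, Nat.le_sqrt']
    omega
  set B := (splP K N).filter (fun p => r < p) with hB
  have hBd : ∀ p ∈ B, p ∣ z := by
    intro p hp
    rw [hB, mem_filter, mem_splP] at hp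
    by_contra hpz
    have h3 := hcon p hp.1.2.1 (by omega) hp.1.2.2 hpz
    have h4 : (p : ℝ) ≤ N := by exact_mod_cast hp.1.1
    linarith
  have hprod : ∏ p ∈ B, p ∣ z := by
    refine Finset.prod_primes_dvd _ ?_ hBd
    intro p hp
    rw [hB, mem_filter, mem_splP] at hp
    exact hp.1.2.1.prime
  have hle : ∏ p ∈ B, p ≤ z := Nat.le_of_dvd (Nat.pos_of_ne_zero hz) hprod
  have hpos : 0 < ∏ p ∈ B, p := Nat.pos_of_ne_zero (Finset.prod_ne_zero_iff.2 fun p hp => by
    rw [hB, mem_filter, mem_splP] at hp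
    exact hp.1.2.1.ne_zero)
  have h5 : Real.log (∏ p ∈ B, (p : ℝ)) ≤ Real.log z := by
    rw [← Nat.cast_prod]
    refine Real.log_le_log ?_ ?_
    · exact_mod_cast hpos
    · exact_mod_cast hle
  rw [Real.log_prod (fun p hp => by
    rw [hB, mem_filter, mem_splP] at hp
    exact_mod_cast hp.1.2.1.ne_zero)] at h5
  have hNpos : (2 : ℝ) ≤ N := by
    rw [hNR]
    have h3 : (0 : ℝ) ≤ (N₀ : ℝ) + p₀ ^ 2 + (⌊8 * d * Real.log z⌋₊ : ℝ) := by positivity
    linarith
  have h6 : ∀ p ∈ B, Real.log N / 2 ≤ Real.log p := by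
    intro p hp
    rw [hB, mem_filter] at hp
    have h7 : N < p * p := Nat.sqrt_lt.1 hp.2
    have h8 : (N : ℝ) ≤ (p : ℝ) ^ 2 := by
      rw [sq]
      exact_mod_cast h7.le
    have h9 := Real.log_le_log (by linarith) h8
    rw [Real.log_pow] at h9
    push_cast at h9
    linarith
  have h7 : (B.card : ℝ) * (Real.log N / 2) ≤ ∑ p ∈ B, Real.log p := by
    rw [← nsmul_eq_mul]
    exact Finset.card_nsmul_le_sum B _ _ h6
  have h8 : ((splP K N).card : ℝ) - Real.sqrt N ≤ B.card := by
    have h9 : (splP K N).card = B.card + ((splP K N).filter (fun p => ¬ r < p)).card := by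
      rw [hB]
      exact (Finset.card_filter_add_card_filter_not _).symm
    have h10 : ((splP K N).filter (fun p => ¬ r < p)).card ≤ r := by
      have h11 : (splP K N).filter (fun p => ¬ r < p) ⊆ Finset.Icc 1 r := by
        intro p hp
        rw [mem_filter, mem_splP] at hp
        rw [mem_Icc]
        exact ⟨hp.1.2.1.one_le, not_lt.1 hp.2⟩
      have := Finset.card_le_card h11
      rwa [Nat.card_Icc, Nat.add_sub_cancel] at this
    have h11 : (r : ℝ) ≤ Real.sqrt N := by
      rw [hr]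
      refine Real.le_sqrt_of_sq_le ?_
      have := Nat.sqrt_le' N
      exact_mod_cast this
    have h12 : ((splP K N).card : ℝ) = B.card + (((splP K N).filter (fun p => ¬ r < p)).card : ℝ) := by
      exact_mod_cast h9
    have h13 : (((splP K N).filter (fun p => ¬ r < p)).card : ℝ) ≤ r := by exact_mod_cast h10
    linarith
  have h9 : ((splP K N).card - Real.sqrt N) * (Real.log N / 2) ≤ B.card * (Real.log N / 2) :=
    mul_le_mul_of_nonneg_right h8 (by
      have := Real.log_nonneg (by linarith : (1 : ℝ) ≤ N)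
      linarith)
  have h10 : (N : ℝ) / (8 * d) < Real.log z := by linarith
  have hd0 : (0 : ℝ) < 8 * d := by
    have : (1 : ℝ) ≤ d := by exact_mod_cast hd1
    linarith
  rw [div_lt_iff₀ hd0] at h10
  linarith

end Pool.Agent.Q26.RF
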