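import Pool.Agent.Q26.RF.Alg2
import Pool.Agent.Q26.RF.Prm

/-!
# Reduction of certificates modulo primes
-/

set_option autoImplicit false

namespace Pool.Agent.Q26.RF

open NumberField Finset Matrix Pool.Agent.TH91.RF

variable {ι : Type} {h : ℕ} {T : ι → Matrix (Fin h) (Fin h) ℤ} {U : Finset (Fin h)} {e : ℕ}

theorem common_den {K : Type} [Field K] [NumberField K] {κ : Type*} [Finite κ] (f : κ → K) :
    ∃ d : ℤ, d ≠ 0 ∧ ∀ i, ∃ a : 𝓞 K, algebraMap (𝓞 K) K a = (d : K) * f i := by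
  classical
  have := Fintype.ofFinite κ
  have halg : Algebra.IsAlgebraic ℤ K := by
    have := IsLocalization.isAlgebraic ℚ (nonZeroDivisors ℤ)
    exact Algebra.IsAlgebraic.trans ℤ ℚ K
  obtain ⟨y, hy, h1⟩ := Algebra.IsAlgebraic.exists_integral_multiples ℤ (univ.image f)
  refine ⟨y, hy, fun i => ?_⟩
  have h2 := h1 (f i) (mem_image_of_mem f (mem_univ i))
  rw [zsmul_eq_mul] at h2
  exact ⟨⟨_, h2⟩, rfl⟩

theorem RCert.zmod [Finite ι] {K : Type} [Field K] [NumberField K] (hC : RCert T U K e) :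
    ∃ p₀ : ℕ, ∀ p : ℕ, ∀ [Fact p.Prime], p₀ < p → (𝓞 K →+* ZMod p) → RCert T U (ZMod p) e := by
  obtain ⟨m, P, Q, hP, hPV, hPQ⟩ := hC
  choose A hA using hP
  obtain ⟨d, hd, h1⟩ := common_den (K := K)
    (fun x : (Fin m × Fin e × Fin h) ⊕ (Fin m × Fin h × Fin e) ⊕ (Fin m × ι × Fin e × Fin e) =>
      match x with
      | Sum.inl x => P x.1 x.2.1 x.2.2
      | Sum.inr (Sum.inl x) => Q x.1 x.2.1 x.2.2
      | Sum.inr (Sum.inr x) => A x.1 x.2.1 x.2.2.1 x.2.2.2)
  have hP' : ∀ j a b, ∃ c : 𝓞 K, algebraMap (𝓞 K) K c = (d : K) * P j a b := fun j a b => h1 (Sum.inl (j, a, b))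
  have hQ' : ∀ j a b, ∃ c : 𝓞 K, algebraMap (𝓞 K) K c = (d : K) * Q j a b := fun j a b =>
    h1 (Sum.inr (Sum.inl (j, a, b)))
  have hA' : ∀ j i a b, ∃ c : 𝓞 K, algebraMap (𝓞 K) K c = (d : K) * A j i a b := fun j i a b =>
    h1 (Sum.inr (Sum.inr (j, i, a, b)))
  choose P' hP' using hP'
  choose Q' hQ' using hQ'
  choose A' hA' using hA'
  -- the relations
  have r1 : ∀ j i a b, (d : 𝓞 K) * ∑ c, P' j a c * (T i c b : 𝓞 K) = ∑ c, A' j i a c * P' j c b := by
    intro j i a b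
    apply FaithfulSMul.algebraMap_injective (𝓞 K) K
    simp only [map_mul, map_sum, map_intCast]
    have h2 := congrFun (congrFun (hA j i) a) b
    simp only [Matrix.mul_apply, Matrix.map_apply, eq_intCast] at h2
    simp_rw [hP', hA']
    have e1 : ∀ c, (d : K) * P j a c * (T i c b : K) = d * (P j a c * (T i c b : K)) := fun c => by
      ring
    have e2 : ∀ c, (d : K) * A j i a c * (d * P j c b) = d * (d * (A j i a c * P j c b)) :=
      fun c => by ring
    simp_rw [e1, e2, ← Finset.mul_sum, h2]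
  have r2 : ∀ j, ∀ c, c ∉ U → ∀ i, ∑ a, Q' j i a * P' j a c = 0 := by
    intro j c hc i
    apply FaithfulSMul.algebraMap_injective (𝓞 K) K
    simp only [map_mul, map_sum, map_zero]
    have h2 := hPV j c hc i
    rw [Matrix.mul_apply] at h2
    simp_rw [hP', hQ']
    have e2 : ∀ a, (d : K) * Q j i a * (d * P j a c) = d * (d * (Q j i a * P j a c)) :=
      fun c => by ring
    simp_rw [e2, ← Finset.mul_sum, h2, mul_zero]
  have r3 : ∀ i ∈ U, ∀ c, ∑ j, ∑ a, Q' j i a * P' j a c = if i = c then (d : 𝓞 K) * d else 0 := by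
    intro i hi c
    apply FaithfulSMul.algebraMap_injective (𝓞 K) K
    have h2 := hPQ i hi c
    rw [Matrix.sum_apply] at h2
    simp_rw [Matrix.mul_apply] at h2
    simp only [map_mul, map_sum]
    simp_rw [hP', hQ']
    have e2 : ∀ j a, (d : K) * Q j i a * (d * P j a c) = d * (d * (Q j i a * P j a c)) :=
      fun j c => by ring
    simp_rw [e2, ← Finset.mul_sum, h2]
    split_ifs <;> simp
  refine ⟨d.natAbs, fun p hp hlt φ => ?_⟩
  set δ : ZMod p := (d : ZMod p) with hδ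
  have hδ0 : δ ≠ 0 := by
    rw [hδ, Ne, ZMod.intCast_zmod_eq_zero_iff_dvd]
    intro h
    have h2 := Int.natAbs_dvd_natAbs.2 h
    have h3 := Nat.le_of_dvd (Int.natAbs_pos.2 hd) h2
    rw [Int.natAbs_natCast] at h3
    omega
  refine ⟨m, fun j => Matrix.of fun a b => φ (P' j a b),
    fun j => Matrix.of fun a b => (δ * δ)⁻¹ * φ (Q' j a b), ?_, ?_, ?_⟩
  · intro j
    refine ⟨fun i => Matrix.of fun a b => δ⁻¹ * φ (A' j i a b), fun i => ?_⟩
    ext a b
    simp only [Matrix.mul_apply, Matrix.map_apply, Matrix.of_apply, eq_intCast]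
    have h2 := congrArg φ (r1 j i a b)
    simp only [map_mul, map_sum, map_intCast] at h2
    simp_rw [mul_assoc, ← Finset.mul_sum]
    rw [← h2, ← hδ, inv_mul_cancel_left₀ hδ0]
  · intro j c hc i
    have h2 := congrArg φ (r2 j c hc i)
    simp only [map_mul, map_sum, map_zero] at h2
    simp only [Matrix.mul_apply, Matrix.of_apply]
    simp_rw [mul_assoc, ← Finset.mul_sum]
    rw [h2, mul_zero]
  · intro i hi c
    have h2 := congrArg φ (r3 i hi c)
    simp only [map_mul, map_sum] at h2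
    rw [Matrix.sum_apply]
    simp only [Matrix.mul_apply, Matrix.of_apply]
    simp_rw [mul_assoc, ← Finset.mul_sum]
    rw [h2]
    split_ifs
    · rw [map_mul, map_intCast, inv_mul_cancel₀ (mul_ne_zero hδ0 hδ0)]
    · rw [map_zero, mul_zero]

/-- **Good primes**: if the small quotients separate over `ℂ`, then for each nonzero integer `z`
there is a prime of size `O(log z)`, large and not dividing `z`, with a certificate modulo `p`. -/
theorem good_prime [Finite ι] (hF : RFull T U ℂ e) (p₀ : ℕ) :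
    ∃ C : ℕ, ∀ z : ℕ, z ≠ 0 → ∃ p : ℕ, p.Prime ∧ p₀ < p ∧ RCert T U (ZMod p) e ∧ ¬ p ∣ z ∧
      (p : ℝ) ≤ C * (Real.log z + 1) := by
  obtain ⟨K, hK, hKN, hC⟩ := hF.cert.numberField
  obtain ⟨p₁, h1⟩ := hC.zmod
  obtain ⟨C, h2⟩ := exists_prime K (p₀ + p₁)
  refine ⟨C, fun z hz => ?_⟩
  obtain ⟨p, hp, hlt, ⟨φ⟩, hdvd, hle⟩ := h2 z hz
  have : Fact p.Prime := ⟨hp⟩
  exact ⟨p, hp, by omega, h1 p (by omega) φ, hdvd, hle⟩

end Pool.Agent.Q26.RF
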