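import Pool.Agent.Q26.RF.Main

/-!
# Bases adapted to a subgroup
-/

set_option autoImplicit false

namespace Pool.Agent.Q26.RF

open Finset Matrix Pool.Agent.TH91.RF

attribute [local instance 100] LieRing.ofAssociativeRing

/-- A basis adapted to a subspace. -/
theorem exists_basis_rel (L : Type) [AddCommGroup L] [Module ℚ L] [Module.Finite ℚ L]
    (W : Submodule ℚ L) :
    ∃ (h : ℕ) (b : Module.Basis (Fin h) ℚ L) (U : Finset (Fin h)),
      (∀ x : L, x ∈ W ↔ Off U (b.repr x)) ∧ h = Module.finrank ℚ L := by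
  classical
  obtain ⟨W', hW'⟩ := W.exists_isCompl
  set e := Submodule.prodEquivOfIsCompl W W' hW' with he
  set β₀ : Module.Basis (Fin (Module.finrank ℚ W) ⊕ Fin (Module.finrank ℚ W')) ℚ (W × W') :=
    (Module.finBasis ℚ W).prod (Module.finBasis ℚ W') with hβ₀
  refine ⟨Module.finrank ℚ W + Module.finrank ℚ W', (β₀.map e).reindex finSumFinEquiv,
    univ.image (Fin.natAdd _), ?_, ?_⟩
  · intro x
    have h1 : ∀ k : Fin (Module.finrank ℚ W'), ((β₀.map e).reindex finSumFinEquiv).repr x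
        (Fin.natAdd _ k) = (Module.finBasis ℚ W').repr (e.symm x).2 k := by
      intro k
      rw [Module.Basis.repr_reindex_apply, finSumFinEquiv_symm_apply_natAdd, Module.Basis.map_repr,
        LinearEquiv.trans_apply, hβ₀, Module.Basis.prod_repr_inr]
    have h3 : (e.symm x).2 = 0 ↔ x ∈ W :=
      Submodule.prodEquivOfIsCompl_symm_apply_snd_eq_zero W W' hW'
    rw [← h3]
    constructor
    · intro h i hi
      obtain ⟨k, _, rfl⟩ := mem_image.1 hi
      rw [h1, h, map_zero]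
      rfl
    · intro h
      apply (Module.finBasis ℚ W').repr.injective
      ext k
      rw [← h1 k, h _ (mem_image_of_mem _ (mem_univ k)), map_zero]
      rfl
  · exact Submodule.finrank_add_eq_of_isCompl hW'

/-- A basis with integral structure constants, adapted to a subspace. -/
theorem exists_lat_rel (L : Type) [LieRing L] [LieAlgebra ℚ L] [Module.Finite ℚ L]
    (W : Submodule ℚ L) :
    ∃ (h : ℕ) (b : Module.Basis (Fin h) ℚ L) (T : Fin h → Matrix (Fin h) (Fin h) ℤ)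
      (U : Finset (Fin h)), (∀ l i, ⁅b l, b i⁆ = ∑ j, (T l j i) • b j) ∧
      (∀ x : L, x ∈ W ↔ Off U (b.repr x)) ∧ h = Module.finrank ℚ L := by
  obtain ⟨h, β, U, hβ, hh⟩ := exists_basis_rel L W
  set D : ℕ := ∏ l : Fin h × Fin h × Fin h, (β.repr ⁅β l.1, β l.2.1⁆ l.2.2).den with hD
  have hD0 : D ≠ 0 := Finset.prod_ne_zero_iff.2 fun l _ => Rat.den_ne_zero _
  have hDQ : (D : ℚ) ≠ 0 := by exact_mod_cast hD0
  have hint : ∀ l j i, ∃ n : ℤ, (n : ℚ) = (D : ℚ) * β.repr ⁅β l, β i⁆ j := by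
    intro l j i
    obtain ⟨c, hc⟩ : (β.repr ⁅β l, β i⁆ j).den ∣ D := Finset.dvd_prod_of_mem
      (fun l : Fin h × Fin h × Fin h => (β.repr ⁅β l.1, β l.2.1⁆ l.2.2).den) (mem_univ (l, i, j))
    refine ⟨c * (β.repr ⁅β l, β i⁆ j).num, ?_⟩
    rw [hc]
    push_cast
    rw [mul_comm ((β.repr ⁅β l, β i⁆ j).den : ℚ), mul_assoc,
      mul_comm ((β.repr ⁅β l, β i⁆ j).den : ℚ), Rat.mul_den_eq_num]
  choose n hn using hint
  refine ⟨h, β.isUnitSMul (w := fun _ => (D : ℚ)) (fun _ => isUnit_iff_ne_zero.2 hDQ),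
    fun l => Matrix.of fun j i => n l j i, U, fun l i => ?_, ?_, hh⟩
  · simp only [Module.Basis.isUnitSMul_apply, Matrix.of_apply]
    rw [smul_lie, lie_smul]
    have h1 : ⁅β l, β i⁆ = ∑ j, β.repr ⁅β l, β i⁆ j • β j := (β.sum_repr _).symm
    nth_rewrite 1 [h1]
    rw [smul_sum, smul_sum]
    refine sum_congr rfl fun j _ => ?_
    rw [← Int.cast_smul_eq_zsmul ℚ, hn, smul_smul, smul_smul, smul_smul]
    congr 1
    ring
  · intro x
    rw [hβ]
    have h4 : ∀ i, (β.isUnitSMul (w := fun _ => (D : ℚ))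
        (fun _ => isUnit_iff_ne_zero.2 hDQ)).repr x i = 0 ↔ β.repr x i = 0 := by
      intro i
      have h5 := Module.Basis.repr_isUnitSMul (v := β) (w := fun _ => (D : ℚ))
        (hw := fun _ => isUnit_iff_ne_zero.2 hDQ) x i
      rw [h5, Units.smul_def, smul_eq_mul, mul_eq_zero]
      constructor
      · rintro (h6 | h6)
        · exact absurd h6 (Units.ne_zero _)
        · exact h6
      · exact Or.inr
    constructor
    · intro h5 i hi
      exact (h4 _).2 (h5 i hi)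
    · intro h5 i hi
      exact (h4 _).1 (h5 i hi)

variable {G : Type*} [Group G]

/-- the Lie algebra of a subgroup, in matrices -/
theorem exists_lie (c : MalcevCompletion G) (H : Subgroup G) :
    ∃ J : Submodule ℚ (Matrix (Fin c.N) (Fin c.N) ℚ),
      (∀ x, x ∈ J ↔ x ∈ c.L ∧ ∃ m : ℕ, 0 < m ∧ ∃ g ∈ H, c.ρ g = IsNilpotent.exp (m • x)) ∧
      (∀ x ∈ J, ∀ y ∈ J, x * y - y * x ∈ J) := by
  obtain ⟨J, hJ⟩ := isoSet_closed (N := c.N) (ρ := c.ρ.comp H.subtype) c.N 1 (by omega) le_rfl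
  obtain ⟨J₂, hJ₂⟩ := isoSet_closed (N := c.N) (ρ := c.ρ.comp H.subtype) c.N 2 (by omega)
    (by omega)
  have hmem : ∀ x, x ∈ J ↔ x ∈ c.L ∧ ∃ m : ℕ, 0 < m ∧ ∃ g ∈ H,
      c.ρ g = IsNilpotent.exp (m • x) := by
    intro x
    rw [hJ]
    constructor
    · rintro ⟨⟨hx1, m, hm, g, hg⟩, _⟩
      refine ⟨?_, m, hm, g, g.2, hg⟩
      obtain ⟨X, hX, hgX⟩ := c.exp_mem (g : G)
      have hg' : c.ρ g = IsNilpotent.exp (m • x) := hg
      have h1 : X = m • x := (matFilt c.N).exp_inj (mem_filt c hX)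
        (((matFilt c.N).F 1).nsmul_mem hx1 m) (by rw [← hgX, hg'])
      have h2 : x = (m : ℚ)⁻¹ • X := by
        rw [h1, ← Nat.cast_smul_eq_nsmul ℚ, smul_smul, inv_mul_cancel₀, one_smul]
        exact_mod_cast hm.ne'
      rw [h2]
      exact c.L.smul_mem _ hX
    · rintro ⟨hx, m, hm, g, hg, hgx⟩
      exact ⟨⟨mem_filt c hx, m, hm, ⟨g, hg⟩, hgx⟩, mem_filt c hx⟩
  refine ⟨J, hmem, ?_⟩
  intro x hx y hy
  have hx' := ((hJ x).1 hx).1
  have hy' := ((hJ y).1 hy).1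
  have h1 := isoSet_bracket le_rfl J₂ hJ₂ hx' hy' hy'.1
  have h2 := ((hJ₂ _).1 h1).1
  exact (hJ _).2 ⟨h2, h2.1⟩

/-- Adapted bases exist. -/
theorem exists_adapted (c : MalcevCompletion G) (H : Subgroup G) :
    ∃ (h : ℕ) (b : Module.Basis (Fin h) ℚ c.L) (T : Fin h → Matrix (Fin h) (Fin h) ℤ)
      (U : Finset (Fin h)), Adapted c H b T U ∧ h = Module.finrank ℚ c.L := by
  have : Module.Finite ℚ c.L := finite_QLie c
  obtain ⟨J, hJ, hJbr⟩ := exists_lie c H
  obtain ⟨h, b, T, U, hT, hU, hh⟩ := exists_lat_rel c.L (J.comap c.L.toSubmodule.subtype)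
  have hU' : ∀ x : c.L, Off U (b.repr x) ↔ (x : Matrix (Fin c.N) (Fin c.N) ℚ) ∈ J :=
    fun x => (hU x).symm
  refine ⟨h, b, T, U, ⟨hT, ?_, ?_⟩, hh⟩
  · intro x
    rw [hU', hJ]
    exact ⟨fun h => h.2, fun h => ⟨x.2, h⟩⟩
  · intro x y hx hy
    rw [hU'] at hx hy ⊢
    rw [LieSubalgebra.coe_bracket, LieRing.of_associative_ring_bracket]
    exact hJbr _ hx _ hy

end Pool.Agent.Q26.RF
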