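import Pool.Agent.Helper611.PcSet
import Pool.Agent.H53R2.FinNil

/-!
# Subgroups of finite index in their isolators
-/

set_option autoImplicit false

namespace Pool.Agent.Q26.RF

open Pool.Agent.Helper611.PcGrp Pool.Agent.Helper611.PcSet
open scoped commutatorElement

theorem comm_step {X : Type*} [Group X] (H L L' : Subgroup X) [hL : L.Normal] [hL' : L'.Normal]
    (hcomm : ∀ l ∈ L, ∀ g : X, l * g * l⁻¹ * g⁻¹ ∈ L') (x y : X) (hx : x ∈ H ⊔ L)
    (hy : y ∈ H ⊔ L) : x * y * x⁻¹ * y⁻¹ ∈ H ⊔ L' := by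
  rw [Subgroup.mem_sup_of_normal_right] at hx hy
  obtain ⟨a, ha, l, hl, rfl⟩ := hx
  obtain ⟨a', ha', l', hl', rfl⟩ := hy
  have hc : ∀ l ∈ L, ∀ g : X, (QuotientGroup.mk' L') l * QuotientGroup.mk' L' g =
      QuotientGroup.mk' L' g * QuotientGroup.mk' L' l := by
    intro l hl g
    have h1 : QuotientGroup.mk' L' (l * g * l⁻¹ * g⁻¹) = 1 :=
      (QuotientGroup.eq_one_iff _).2 (hcomm l hl g)
    rw [map_mul, map_mul, map_mul, map_inv, map_inv, mul_inv_eq_one, mul_inv_eq_iff_eq_mul] at h1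
    exact h1
  have h2 : QuotientGroup.mk' L' (a * l * (a' * l') * (a * l)⁻¹ * (a' * l')⁻¹) =
      QuotientGroup.mk' L' (a * a' * a⁻¹ * a'⁻¹) := by
    simp only [map_mul, map_inv]
    have h3 := hc l hl
    have h4 := hc l' hl'
    set A := QuotientGroup.mk' L' a
    set B := QuotientGroup.mk' L' l
    set C := QuotientGroup.mk' L' a'
    set E := QuotientGroup.mk' L' l'
    rw [mul_inv_eq_iff_eq_mul, mul_inv_eq_iff_eq_mul]
    have h5 : B * C = C * B := h3 a'
    have h6 : B * E = E * B := h3 l'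
    have h7 : E * A = A * E := h4 a
    calc A * B * (C * E) = A * (B * C) * E := by group
      _ = A * C * (B * E) := by rw [h5]; group
      _ = A * C * (E * B) := by rw [h6]
      _ = A * C * A⁻¹ * (A * E) * B := by group
      _ = A * C * A⁻¹ * (E * A) * B := by rw [h7]
      _ = A * C * A⁻¹ * C⁻¹ * (C * E) * (A * B) := by group
  have h3 := QuotientGroup.eq.1 h2.symm
  have h4 : a * a' * a⁻¹ * a'⁻¹ ∈ H :=
    H.mul_mem (H.mul_mem (H.mul_mem ha ha') (H.inv_mem ha)) (H.inv_mem ha')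
  have h5 := (H ⊔ L').mul_mem (Subgroup.mem_sup_left h4) (Subgroup.mem_sup_right h3)
  rwa [mul_inv_cancel_left] at h5

theorem cov_top_of_root {X : Type} [Group X] [hn : Group.IsNilpotent X] (hM : MaxC X)
    (H : Subgroup X) (hroot : ∀ x : X, ∃ m : ℕ, 0 < m ∧ x ^ m ∈ H) :
    cov H (⊤ : Subgroup X) := by
  obtain ⟨n, hn⟩ := Subgroup.nilpotent_iff_lowerCentralSeries.1 hn
  have key : ∀ i, cov (H ⊔ (⊤ : Subgroup X).lowerCentralSeries i) (⊤ : Subgroup X) := by
    intro i
    induction i with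
    | zero =>
      refine cov_of_le ?_
      rw [Subgroup.lowerCentralSeries_zero]
      exact le_sup_right
    | succ i ih =>
      refine cov.trans (P := H ⊔ (⊤ : Subgroup X).lowerCentralSeries i) ?_ ih
      refine torsion_cov hM ?_ ?_
      · intro x hx y hy
        refine comm_step H _ _ ?_ x y hx hy
        intro l hl g
        rw [Subgroup.lowerCentralSeries_succ]
        have := Subgroup.commutator_mem_commutator hl (Subgroup.mem_top g)
        rwa [commutatorElement_def] at this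
      · intro z _
        obtain ⟨m, hm, hz⟩ := hroot z
        refine ⟨m, by exact_mod_cast hm.ne', ?_⟩
        rw [zpow_natCast]
        exact Subgroup.mem_sup_left hz
  have h1 := key n
  rwa [hn, sup_bot_eq] at h1

/-- finitely many cosets -/
theorem finite_cosets {X : Type} [Group X] [hn : Group.IsNilpotent X] (hfg : Group.FG X)
    (H R : Subgroup X) (hroot : ∀ x ∈ R, ∃ m : ℕ, 0 < m ∧ x ^ m ∈ H) :
    ∃ s : Set X, s.Finite ∧ ∀ g ∈ R, ∃ x ∈ s, x⁻¹ * g ∈ H := by
  have hM : ∀ S : Subgroup X, S.FG := Pool.Agent.H53R2.nil_maxC X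
  have hMR : MaxC ↥R := by
    intro S
    have hfgR : Group.FG ↥R := (Group.fg_iff_subgroup_fg R).2 (hM R)
    exact Pool.Agent.H53R2.nil_maxC ↥R S
  obtain ⟨s, hs, h1⟩ := cov_top_of_root hMR (H.subgroupOf R) (by
    intro x
    obtain ⟨m, hm, hx⟩ := hroot x x.2
    exact ⟨m, hm, hx⟩)
  refine ⟨R.subtype '' s, hs.image _, fun g hg => ?_⟩
  obtain ⟨x, hx, hxg⟩ := h1 ⟨g, hg⟩ (Subgroup.mem_top _)
  exact ⟨x, ⟨x, hx, rfl⟩, hxg⟩

end Pool.Agent.Q26.RF
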