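import Pool.Agent.Q26.RF.Rel1
import Pool.Agent.Q26.RF.Rel2

/-!
# Subgroup separation growth
-/

set_option autoImplicit false

namespace Pool.Agent.Q26.RF

open Finset Matrix Pool.Agent.TH91.RF

attribute [local instance 100] LieRing.ofAssociativeRing

variable {N : Type} [Group N]

/-- the least order of a finite quotient separating `x` from `H` -/
noncomputable def sepD (H : Subgroup N) (x : N) : ℕ :=
  sInf {m : ℕ | ∃ (Q : Type) (_ : Group Q) (φ : N →* Q), Finite Q ∧ Function.Surjective φ ∧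
    φ x ∉ H.map φ ∧ Nat.card Q = m}

open Classical in
/-- the separation growth -/
noncomputable def sepF (S : Set N) (H : Subgroup N) (n : ℕ) : ℕ :=
  if ∃ x, x ∉ H ∧ wordLen S x ≤ n then
    sSup {m : ℕ | ∃ x, x ∉ H ∧ wordLen S x ≤ n ∧ sepD H x = m} else 1

theorem sepD_le {H K : Subgroup N} {x : N} (hn : K.Normal) (hf : K.FiniteIndex)
    (hx : ∀ a ∈ H, ∀ k ∈ K, x ≠ a * k) : sepD H x ≤ K.index := by
  refine Nat.sInf_le ⟨N ⧸ K, inferInstance, QuotientGroup.mk' K,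
    Subgroup.finite_quotient_of_finiteIndex, QuotientGroup.mk'_surjective K, ?_, rfl⟩
  rintro ⟨a, ha, hax⟩
  exact hx a ha _ (QuotientGroup.eq.1 hax) (mul_inv_cancel_left a x).symm

theorem sepD_spec {H : Subgroup N} {x : N}
    (h : ∃ K : Subgroup N, K.Normal ∧ K.FiniteIndex ∧ ∀ a ∈ H, ∀ k ∈ K, x ≠ a * k) :
    ∃ K : Subgroup N, K.Normal ∧ K.FiniteIndex ∧ (∀ a ∈ H, ∀ k ∈ K, x ≠ a * k) ∧
      K.index = sepD H x := by
  obtain ⟨K, hn, hf, hK⟩ := h
  have hne : {m : ℕ | ∃ (Q : Type) (_ : Group Q) (φ : N →* Q), Finite Q ∧ Function.Surjective φ ∧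
      φ x ∉ H.map φ ∧ Nat.card Q = m}.Nonempty := by
    refine ⟨_, N ⧸ K, inferInstance, QuotientGroup.mk' K,
      Subgroup.finite_quotient_of_finiteIndex, QuotientGroup.mk'_surjective K, ?_, rfl⟩
    rintro ⟨a, ha, hax⟩
    exact hK a ha _ (QuotientGroup.eq.1 hax) (mul_inv_cancel_left a x).symm
  obtain ⟨Q, _, φ, hQ, hφ, hx, hcard⟩ := Nat.sInf_mem hne
  have hidx : φ.ker.index = Nat.card Q := by
    rw [Subgroup.index_ker, MonoidHom.range_eq_top.2 hφ]
    exact Nat.card_congr Subgroup.topEquiv.toEquiv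
  refine ⟨φ.ker, inferInstance, ⟨?_⟩, ?_, ?_⟩
  · rw [hidx]
    exact Nat.card_pos.ne'
  · intro a ha k hk heq
    apply hx
    refine ⟨a, ha, ?_⟩
    rw [heq, map_mul, (MonoidHom.mem_ker).1 hk, mul_one]
  · rw [hidx, hcard]
    rfl

theorem sepD_mul_right {H : Subgroup N} {x a : N} (ha : a ∈ H) : sepD H (x * a) = sepD H x := by
  have h1 : ∀ (Q : Type) (_ : Group Q) (φ : N →* Q), φ (x * a) ∈ H.map φ ↔ φ x ∈ H.map φ := by
    intro Q _ φ
    rw [map_mul]
    constructor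
    · intro h
      have := (H.map φ).mul_mem h ((H.map φ).inv_mem (Subgroup.mem_map_of_mem φ ha))
      rwa [mul_inv_cancel_right] at this
    · intro h
      exact (H.map φ).mul_mem h (Subgroup.mem_map_of_mem φ ha)
  unfold sepD
  congr 1
  ext m
  constructor
  · rintro ⟨Q, i, φ, h2, h3, h4, h5⟩
    exact ⟨Q, i, φ, h2, h3, fun h => h4 ((h1 Q i φ).2 h), h5⟩
  · rintro ⟨Q, i, φ, h2, h3, h4, h5⟩
    exact ⟨Q, i, φ, h2, h3, fun h => h4 ((h1 Q i φ).1 h), h5⟩

/-- the isolator of a subgroup -/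
theorem exists_isolator (c : MalcevCompletion N) (H : Subgroup N) {h : ℕ}
    (b : Module.Basis (Fin h) ℚ c.L) (T : Fin h → Matrix (Fin h) (Fin h) ℤ)
    (U : Finset (Fin h)) (hA : Adapted c H b T U) :
    ∃ R : Subgroup N, (∀ x ∈ R, ∃ m : ℕ, 0 < m ∧ x ^ m ∈ H) ∧
      ∀ x, ∀ X, ∀ hX : X ∈ c.L, c.ρ x = IsNilpotent.exp X → (x ∈ R ↔ Off U (b.repr ⟨X, hX⟩)) := by
  obtain ⟨J, hJ, hJbr⟩ := exists_lie c H
  have hT : LieLat (matFilt c.N) J.toAddSubgroup := by
    refine ⟨fun x hx => mem_filt c ((hJ x).1 hx).1, fun u hu v hv => ?_⟩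
    exact J.smul_mem _ (hJbr u hu v hv)
  refine ⟨expSub hT hT.self c.ρ, ?_, ?_⟩
  · rintro x ⟨X, hX, hxX⟩
    have hX' : X ∈ J := hX
    obtain ⟨hXL, m, hm, a, ha, haX⟩ := (hJ X).1 hX'
    refine ⟨m, hm, ?_⟩
    have h1 : c.ρ (x ^ m) = c.ρ a := by
      rw [map_pow, hxX, haX, exp_nsmul (mem_filt c hXL)]
    rw [c.injective h1]
    exact ha
  · intro x X hX hxX
    rw [hA.off]
    constructor
    · rintro ⟨Y, hY, hxY⟩
      have hY' : Y ∈ J := hY
      obtain ⟨hYL, h1⟩ := (hJ Y).1 hY'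
      have h2 : X = Y := (matFilt c.N).exp_inj (mem_filt c hX) (mem_filt c hYL)
        (by rw [← hxX, hxY])
      subst h2
      exact h1
    · intro h1
      exact ⟨X, (hJ X).2 ⟨hX, h1⟩, hxX⟩

theorem sepF_le {S : Set N} {H : Subgroup N} {n : ℕ} {B : ℝ} (hB : 1 ≤ B)
    (h : ∀ x, x ∉ H → wordLen S x ≤ n → (sepD H x : ℝ) ≤ B) : (sepF S H n : ℝ) ≤ B := by
  unfold sepF
  split_ifs with hex
  · obtain ⟨x, hx, hxn⟩ := hex
    have h1 : sSup {m : ℕ | ∃ x, x ∉ H ∧ wordLen S x ≤ n ∧ sepD H x = m} ≤ ⌊B⌋₊ := by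
      refine csSup_le ⟨_, x, hx, hxn, rfl⟩ ?_
      rintro _ ⟨y, hy, hyn, rfl⟩
      exact Nat.le_floor (h y hy hyn)
    have h2 : ((sSup {m : ℕ | ∃ x, x ∉ H ∧ wordLen S x ≤ n ∧ sepD H x = m} : ℕ) : ℝ) ≤
        (⌊B⌋₊ : ℝ) := by exact_mod_cast h1
    exact h2.trans (Nat.floor_le (by linarith))
  · simpa using hB

theorem le_sepF {S : Set N} {H : Subgroup N} {n : ℕ}
    (hbd : BddAbove {m : ℕ | ∃ x, x ∉ H ∧ wordLen S x ≤ n ∧ sepD H x = m}) {x : N} (hx : x ∉ H)
    (hxn : wordLen S x ≤ n) : sepD H x ≤ sepF S H n := by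
  unfold sepF
  rw [if_pos ⟨x, hx, hxn⟩]
  exact le_csSup hbd ⟨x, hx, hxn, rfl⟩

theorem sepF_mono {S : Set N} {H : Subgroup N} {m n : ℕ} (hmn : m ≤ n)
    (hbd : BddAbove {m : ℕ | ∃ x, x ∉ H ∧ wordLen S x ≤ n ∧ sepD H x = m})
    (hex : ∃ x, x ∉ H ∧ wordLen S x ≤ m) : sepF S H m ≤ sepF S H n := by
  obtain ⟨x, hx, hxm⟩ := hex
  unfold sepF
  rw [if_pos ⟨x, hx, hxm⟩, if_pos ⟨x, hx, hxm.trans hmn⟩]
  refine csSup_le_csSup hbd ⟨_, x, hx, hxm, rfl⟩ ?_
  rintro _ ⟨y, hy, hym, rfl⟩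
  exact ⟨y, hy, hym.trans hmn, rfl⟩

/-- **The separation growth is polylogarithmic.** -/
theorem rel_main [hnil : Group.IsNilpotent N] (hfg : Group.FG N) (c : MalcevCompletion N)
    {S : Set N} (hS : S.Finite) (hgen : Subgroup.closure S = ⊤) (H : Subgroup N) :
    ∃ k : ℕ, k ≤ Module.finrank ℚ c.L ∧
      (∃ C : ℕ, 0 < C ∧ ∀ n : ℕ, 1 ≤ n →
        (sepF S H n : ℝ) ≤ C * (Real.log ((C * n : ℕ) : ℝ)) ^ k) ∧
      (∃ C : ℕ, 0 < C ∧ ∀ n : ℕ, 1 ≤ n → (Real.log n) ^ k ≤ C * (sepF S H (C * n) : ℝ)) := by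
  classical
  obtain ⟨h, b, T, U, hA, hh⟩ := exists_adapted c H
  have hex : ∃ e, RFull T U ℂ e := by
    refine ⟨h, ?_⟩
    intro x hx
    obtain ⟨y, hy, h1⟩ := hx 1 ⟨fun l => (T l).map (Int.castRingHom ℂ), fun l => by
      rw [one_mul, mul_one]⟩
    rw [one_mulVec, one_mulVec] at h1
    rw [h1]
    exact hy
  have hfull : RFull T U ℂ h := by
    intro x hx
    obtain ⟨y, hy, h1⟩ := hx 1 ⟨fun l => (T l).map (Int.castRingHom ℂ), fun l => by
      rw [one_mul, mul_one]⟩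
    rw [one_mulVec, one_mulVec] at h1
    rw [h1]
    exact hy
  set e := Nat.find hex with he
  have he1 : RFull T U ℂ e := Nat.find_spec hex
  have hmin : ∀ e' < e, ¬ RFull T U ℂ e' := fun e' h => Nat.find_min hex h
  have hle : e ≤ Module.finrank ℚ c.L := by
    rw [← hh]
    exact Nat.find_min' hex hfull
  -- the isolator
  obtain ⟨R, hRroot, hRoff⟩ := exists_isolator c H b T U hA
  obtain ⟨s, hs, hsR⟩ := finite_cosets hfg H R hRroot
  set C₂ : ℕ := ∑ t ∈ hs.toFinset, sepD H t with hC₂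
  have hR : ∀ x ∈ R, sepD H x ≤ C₂ := by
    intro x hx
    obtain ⟨t, ht, htx⟩ := hsR x hx
    have h1 : x = t * (t⁻¹ * x) := (mul_inv_cancel_left t x).symm
    rw [h1, sepD_mul_right htx]
    exact Finset.single_le_sum (f := fun t => sepD H t) (fun _ _ => Nat.zero_le _)
      (hs.mem_toFinset.2 ht)
  -- the upper bound
  have hU : ∀ g ∈ H, ∀ X, ∀ hX : X ∈ c.L, c.ρ g = IsNilpotent.exp X →
      Off U (b.repr ⟨X, hX⟩) := by
    intro g hg X hX hgX
    exact (hA.off ⟨X, hX⟩).2 ⟨1, one_pos, g, hg, by rw [one_smul]; exact hgX⟩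
  obtain ⟨C₁, hC₁⟩ := upper c H hS hgen b T hA.hT U hU e he1
  have hsep : ∀ n : ℕ, 1 ≤ n → ∀ x, x ∉ R → wordLen S x ≤ n →
      ∃ K : Subgroup N, K.Normal ∧ K.FiniteIndex ∧ (∀ a ∈ H, ∀ k ∈ K, x ≠ a * k) ∧
        (K.index : ℝ) ≤ C₁ * (Real.log n + 1) ^ e := by
    intro n hn x hx hxn
    obtain ⟨X, hX, hxX⟩ := c.exp_mem x
    exact hC₁ n hn x hxn X hX hxX (fun hoff => hx ((hRoff x X hX hxX).2 hoff))
  have hDle : ∀ n : ℕ, 1 ≤ n → ∀ x, wordLen S x ≤ n →
      (sepD H x : ℝ) ≤ ((C₁ + C₂ + 1 : ℕ) : ℝ) * (Real.log n + 1) ^ e := by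
    intro n hn x hxn
    have hln : 0 ≤ Real.log n := Real.log_nonneg (by exact_mod_cast hn)
    have hpow : 1 ≤ (Real.log n + 1) ^ e := one_le_pow₀ (by linarith)
    have hC₁0 : (0 : ℝ) ≤ C₁ := Nat.cast_nonneg _
    have hC₂0 : (0 : ℝ) ≤ C₂ := Nat.cast_nonneg _
    push_cast
    by_cases hx : x ∈ R
    · have h1 : (sepD H x : ℝ) ≤ C₂ := by exact_mod_cast hR x hx
      nlinarith
    · obtain ⟨K, hKn, hKf, hK, hKi⟩ := hsep n hn x hx hxn
      have h1 : (sepD H x : ℝ) ≤ K.index := by exact_mod_cast sepD_le hKn hKf hK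
      nlinarith
  have hbd : ∀ n : ℕ, 1 ≤ n →
      BddAbove {m : ℕ | ∃ x, x ∉ H ∧ wordLen S x ≤ n ∧ sepD H x = m} := by
    intro n hn
    refine ⟨⌊((C₁ + C₂ + 1 : ℕ) : ℝ) * (Real.log n + 1) ^ e⌋₊, ?_⟩
    rintro _ ⟨x, _, hxn, rfl⟩
    exact Nat.le_floor (hDle n hn x hxn)
  have hposD : ∀ x, (∃ K : Subgroup N, K.Normal ∧ K.FiniteIndex ∧ ∀ a ∈ H, ∀ k ∈ K, x ≠ a * k) →
      1 ≤ sepD H x := by
    intro x hx
    obtain ⟨K, _, hKf, _, hKi⟩ := sepD_spec hx
    rw [← hKi]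
    exact Nat.pos_of_ne_zero hKf.index_ne_zero
  refine ⟨e, hle, ⟨C₁ + C₂ + 3, by omega, ?_⟩, ?_⟩
  · intro n hn
    have hnR : (1 : ℝ) ≤ n := by exact_mod_cast hn
    have hln : 0 ≤ Real.log n := Real.log_nonneg hnR
    have hC₁0 : (0 : ℝ) ≤ C₁ := Nat.cast_nonneg _
    have hC₂0 : (0 : ℝ) ≤ C₂ := Nat.cast_nonneg _
    have hlog : Real.log n + 1 ≤ Real.log (((C₁ + C₂ + 3) * n : ℕ) : ℝ) := by
      have h3 : (1 : ℝ) ≤ Real.log 3 := by
        rw [Real.le_log_iff_exp_le (by norm_num)]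
        have := Real.exp_one_lt_d9
        linarith
      have h4 : Real.log (3 * n) = Real.log 3 + Real.log n :=
        Real.log_mul (by norm_num) (by linarith)
      have h5 : Real.log (3 * n) ≤ Real.log (((C₁ + C₂ + 3) * n : ℕ) : ℝ) := by
        refine Real.log_le_log (by linarith) ?_
        push_cast
        nlinarith
      linarith
    have hpow : (Real.log n + 1) ^ e ≤ (Real.log (((C₁ + C₂ + 3) * n : ℕ) : ℝ)) ^ e :=
      pow_le_pow_left₀ (by linarith) hlog e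
    have hpow1 : 1 ≤ (Real.log n + 1) ^ e := one_le_pow₀ (by linarith)
    have h1 : (sepF S H n : ℝ) ≤ ((C₁ + C₂ + 1 : ℕ) : ℝ) * (Real.log n + 1) ^ e := by
      refine sepF_le ?_ (fun x _ hxn => hDle n hn x hxn)
      push_cast
      nlinarith
    refine h1.trans ?_
    refine mul_le_mul ?_ hpow (by positivity) (Nat.cast_nonneg _)
    exact_mod_cast (by omega : C₁ + C₂ + 1 ≤ C₁ + C₂ + 3)
  · rcases Nat.eq_zero_or_pos e with he0 | he0
    · -- finite index
      have hRtop : ∀ x, x ∈ R := by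
        intro x
        obtain ⟨X, hX, hxX⟩ := c.exp_mem x
        rw [hRoff x X hX hxX]
        have h1 : RFull T U ℂ 0 := by rw [← he0]; exact he1
        have h2 : U = ∅ := by
          rw [Finset.eq_empty_iff_forall_notMem]
          intro i hi
          have h3 := h1 (Pi.single i 1) (fun P _ => ⟨0, fun _ _ => rfl, Subsingleton.elim _ _⟩) i hi
          rw [Pi.single_eq_same] at h3
          exact one_ne_zero h3
        intro i hi
        rw [h2] at hi
        exact absurd hi (Finset.notMem_empty i)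
      have hHf : H.FiniteIndex := by
        have hM : ∀ S : Subgroup N, S.FG := Pool.Agent.H53R2.nil_maxC N
        have := cov_top_of_root (X := N) (fun S => hM S) H (fun x => hRroot x (hRtop x))
        exact Pool.Agent.Helper611.PcGrp.cov_top.1 this
      refine ⟨1, one_pos, fun n hn => ?_⟩
      rw [he0, pow_zero, Nat.cast_one, one_mul, one_mul]
      have h1 : 1 ≤ sepF S H n := by
        by_cases hx : ∃ x, x ∉ H ∧ wordLen S x ≤ n
        · obtain ⟨x, hx, hxn⟩ := hx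
          refine le_trans (hposD x ⟨H.normalCore, inferInstance, inferInstance, ?_⟩)
            (le_sepF (hbd n hn) hx hxn)
          intro a ha k hk heq
          exact hx (by rw [heq]; exact H.mul_mem ha (H.normalCore_le hk))
        · unfold sepF
          rw [if_neg hx]
      exact_mod_cast h1
    · obtain ⟨z, C', hz⟩ := lower c H b T U hA (e - 1) (hmin (e - 1) (by omega))
      rw [Nat.sub_add_cancel he0] at hz
      have hzpow : ∀ k : ℕ, 0 < k → z ^ k ∉ H := by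
        obtain ⟨M, hM, _, hzM, _⟩ := hz 0
        exact hzM
      have hzR : ∀ M : ℕ, 0 < M → z ^ M ∉ R := by
        intro M hM hzM
        obtain ⟨m, hm, hmH⟩ := hRroot _ hzM
        rw [← pow_mul] at hmH
        exact hzpow _ (Nat.mul_pos hM hm) hmH
      have hzH : z ∉ H := by
        have := hzpow 1 one_pos
        rwa [pow_one] at this
      have hzR1 : z ∉ R := by
        have := hzR 1 one_pos
        rwa [pow_one] at this
      set w := wordLen S z with hw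
      have hw1 : 1 ≤ w := by
        by_contra h0
        have h1 : wordLen S z = 0 := by omega
        have h2 := eq_one_of_wordLen hgen h1
        rw [h2] at hzH
        exact hzH H.one_mem
      obtain ⟨C'', hC''⟩ := asym (fun n => sepF S H (w * n)) e w C' (by
        intro n hn
        have hwn : 1 ≤ w * n := Nat.mul_pos hw1 hn
        obtain ⟨K, hKn, hKf, hK, _⟩ := hsep w hw1 z hzR1 le_rfl
        exact le_trans (hposD z ⟨K, hKn, hKf, hK⟩) (le_sepF (hbd _ hwn) hzH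
          (Nat.le_mul_of_pos_right w hn))) (by
        intro m n hmn
        obtain ⟨M, hM, hMe, _, hK⟩ := hz m
        have hzMH := hzpow M hM
        have hlen : wordLen S (z ^ M) ≤ n := by
          have h1 := wordLen_pow_le hgen z M
          have h2 : ((wordLen S (z ^ M) : ℕ) : ℝ) ≤ n := by
            calc ((wordLen S (z ^ M) : ℕ) : ℝ) ≤ ((M * wordLen S z : ℕ) : ℝ) := by
                  exact_mod_cast h1
              _ = (w : ℝ) * M := by rw [hw]; push_cast; ring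
              _ ≤ (w : ℝ) * Real.exp (C' * (m + 1)) :=
                mul_le_mul_of_nonneg_left hMe (Nat.cast_nonneg _)
              _ ≤ n := hmn
          exact_mod_cast h2
        have hn : 1 ≤ n := by
          by_contra hn0
          have hn0' : n = 0 := by omega
          rw [hn0'] at hlen
          have h1 := eq_one_of_wordLen hgen (Nat.le_zero.1 hlen)
          rw [h1] at hzMH
          exact hzMH H.one_mem
        have hwn : 1 ≤ w * n := Nat.mul_pos hw1 hn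
        have hlen' : wordLen S (z ^ M) ≤ w * n := hlen.trans (Nat.le_mul_of_pos_left n hw1)
        refine le_trans ?_ (le_sepF (hbd _ hwn) hzMH hlen')
        obtain ⟨K, hKn, hKf, hK', _⟩ := hsep (w * n) hwn (z ^ M) (hzR M hM) hlen'
        obtain ⟨K', hKn', hKf', hK'', hKi'⟩ := sepD_spec ⟨K, hKn, hKf, hK'⟩
        rw [← hKi']
        exact hK K' hKn' hKf' hK'')
      refine ⟨C'' + w, by omega, fun n hn => ?_⟩
      have hnR : (1 : ℝ) ≤ n := by exact_mod_cast hn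
      have hln : 0 ≤ Real.log n := Real.log_nonneg hnR
      have hwn : 1 ≤ (C'' + w) * n := Nat.mul_pos (by omega) hn
      have h1 : sepF S H (w * n) ≤ sepF S H ((C'' + w) * n) :=
        sepF_mono (Nat.mul_le_mul_right n (by omega)) (hbd _ hwn)
          ⟨z, hzH, Nat.le_mul_of_pos_right w hn⟩
      have h1' : (sepF S H (w * n) : ℝ) ≤ sepF S H ((C'' + w) * n) := by exact_mod_cast h1
      calc (Real.log n) ^ e ≤ (Real.log n + 1) ^ e := pow_le_pow_left₀ hln (by linarith) e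
        _ ≤ C'' * (sepF S H (w * n) : ℝ) := hC'' n hn
        _ ≤ ((C'' + w : ℕ) : ℝ) * (sepF S H ((C'' + w) * n) : ℝ) := by
          refine mul_le_mul ?_ h1' (Nat.cast_nonneg _) (Nat.cast_nonneg _)
          push_cast
          have : (0 : ℝ) ≤ w := Nat.cast_nonneg w
          linarith

end Pool.Agent.Q26.RF
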