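import Pool.Agent.Q26.RF.Alg2
import Pool.Agent.TH91.RF.Comp

/-!
# Small quotients at large primes
-/

set_option autoImplicit false

namespace Pool.Agent.Q26.RF

open Finset Matrix Filter Pool.Agent.TH91.RF

variable {ι : Type} {h : ℕ} {T : ι → Matrix (Fin h) (Fin h) ℤ} {U : Finset (Fin h)} {e : ℕ}

/-- a module of finite length over a local ring with coefficient field `k` gives a quotient over
`k`. -/
theorem quo_of_module {B k : Type} [CommRing B] [Field k] (I : Ideal B) (σ : k →+* B)
    (hσ : ∀ b : B, ∃ a : k, b - σ a ∈ I) (M : Type) [AddCommGroup M] [Module B M]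
    (β : Fin h → M) (τ : ι → M →ₗ[B] M) (hτ : ∀ l i, τ l (β i) = ∑ j, (T l j i : B) • β j)
    (v : Fin e → M) (hspan : ∀ x : M, ∃ c : Fin e → B, x = ∑ j, c j • v j)
    (hchain : ∀ i, ∀ m ∈ I, ∃ c : Fin e → B, (∀ j, i ≤ j → c j = 0) ∧ m • v i = ∑ j, c j • v j)
    (ζ : Fin h → ℤ)
    (hζ : ¬ ∃ b : Fin h → B, Off U b ∧ ∑ i, (ζ i : B) • β i = ∑ i, b i • β i) :
    ∃ P : Matrix (Fin e) (Fin h) k, Quo T k e P ∧
      ¬ ∃ y, Off U y ∧ P *ᵥ (fun i => (ζ i : k)) = P *ᵥ y := by
  classical
  let : Module k M := Module.compHom M σ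
  have hsm : ∀ (a : k) (x : M), a • x = σ a • x := fun _ _ => rfl
  have hk : ∀ n : ℕ, ∀ i : Fin e, (i : ℕ) ≤ n → ∀ b : B,
      b • v i ∈ Submodule.span k (Set.range v) := by
    intro n
    induction n using Nat.strong_induction_on with
    | _ n ih =>
    intro i hi b
    obtain ⟨a, ha⟩ := hσ b
    obtain ⟨c, hc0, hc⟩ := hchain i _ ha
    have e1 : b • v i = a • v i + ∑ j, c j • v j := by
      rw [← hc, hsm, ← add_smul]
      congr 1
      ring
    rw [e1]
    refine Submodule.add_mem _ (Submodule.smul_mem _ _ (Submodule.subset_span ⟨i, rfl⟩)) ?_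
    refine Submodule.sum_mem _ fun j _ => ?_
    by_cases hij : i ≤ j
    · rw [hc0 j hij, zero_smul]
      exact Submodule.zero_mem _
    · push Not at hij
      have : (j : ℕ) < i := hij
      exact ih j (by omega) j le_rfl (c j)
  have htop : Submodule.span k (Set.range v) = ⊤ := by
    rw [eq_top_iff]
    intro x _
    obtain ⟨c, hc⟩ := hspan x
    rw [hc]
    exact Submodule.sum_mem _ fun j _ => hk j j le_rfl _
  have hfin : Module.Finite k M := ⟨⟨univ.image v, by simpa using htop⟩⟩
  have hrank : Module.finrank k M ≤ e := by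
    rw [← finrank_top, ← htop]
    exact (finrank_range_le_card v).trans (by simp)
  -- embedding in `k ^ e`
  obtain ⟨g, hg⟩ : ∃ g : M →ₗ[k] (Fin e → k), LinearMap.ker g = ⊥ := by
    set r := Module.finrank k M with hr
    let bas := Module.finBasis k M
    let ext : (Fin r → k) →ₗ[k] (Fin e → k) := LinearMap.pi fun j : Fin e =>
      if h : (j : ℕ) < r then LinearMap.proj ⟨j, h⟩ else 0
    refine ⟨ext ∘ₗ bas.equivFun.toLinearMap, ?_⟩
    rw [LinearMap.ker_eq_bot']
    intro x hx
    have h1 : bas.equivFun x = 0 := by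
      ext i
      have h2 := congrFun hx ⟨i, lt_of_lt_of_le i.2 hrank⟩
      have h3 : (i : ℕ) < r := i.2
      simpa [ext, h3] using h2
    simpa using h1
  obtain ⟨g', hg'⟩ := LinearMap.exists_leftInverse_of_injective g hg
  set f : (Fin h → k) →ₗ[k] M := Fintype.linearCombination k β with hf
  let τk : ι → M →ₗ[k] M := fun l =>
    { toFun := τ l
      map_add' := map_add (τ l)
      map_smul' := fun a x => by
        rw [hsm, map_smul]
        rfl }
  refine ⟨LinearMap.toMatrix' (g ∘ₗ f), ⟨fun l => LinearMap.toMatrix' (g ∘ₗ τk l ∘ₗ g'), fun l => ?_⟩,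
    ?_⟩
  · apply Matrix.toLin'.injective
    rw [toLin'_mul, toLin'_mul, toLin'_toMatrix', toLin'_toMatrix']
    refine LinearMap.ext fun x => ?_
    have h1 : ∀ x, g' (g x) = x := fun x => LinearMap.congr_fun hg' x
    simp only [LinearMap.comp_apply, h1]
    congr 1
    have h2 : f ∘ₗ toLin' ((T l).map (Int.castRingHom k)) = τk l ∘ₗ f := by
      refine LinearMap.pi_ext' fun i => LinearMap.ext_ring ?_
      simp only [LinearMap.comp_apply, LinearMap.single_apply]
      rw [toLin'_apply, hf, Fintype.linearCombination_apply, Fintype.linearCombination_apply]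
      have h3 : ∑ j, (Pi.single i (1 : k) : Fin h → k) j • β j = β i := by
        rw [Finset.sum_eq_single_of_mem i (mem_univ _)]
        · simp
        · intro b _ hb
          rw [Pi.single_eq_of_ne hb, zero_smul]
      rw [h3]
      change _ = τ l (β i)
      rw [hτ]
      refine sum_congr rfl fun j _ => ?_
      rw [hsm]
      congr 1
      rw [mulVec_single_one]
      simp
    exact LinearMap.congr_fun h2 x
  · rintro ⟨y, hy, h0⟩
    rw [← toLin'_apply, ← toLin'_apply, toLin'_toMatrix', LinearMap.comp_apply,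
      LinearMap.comp_apply] at h0
    have h1 := (LinearMap.ker_eq_bot.1 hg) h0
    apply hζ
    refine ⟨fun i => σ (y i), ?_, ?_⟩
    · intro i hi
      simp only
      rw [hy i hi, map_zero]
    · rw [hf, Fintype.linearCombination_apply, Fintype.linearCombination_apply] at h1
      have e1 : ∑ i, (ζ i : B) • β i = ∑ i, ((ζ i : ℤ) : k) • β i := by
        refine sum_congr rfl fun i _ => ?_
        rw [hsm, map_intCast]
      rw [e1, h1]
      rfl

theorem eventually_mem (T : ι → Matrix (Fin h) (Fin h) ℤ) (e : ℕ) (ζ : Fin h → ℤ)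
    (hζ : ∀ (k : Type) [Field k] [CharZero k], RBad T U k e (fun i => (ζ i : k))) :
    ∃ p₀ : ℕ, ∀ p : ℕ, p.Prime → p₀ < p → ∀ J : AddSubgroup (Fin h → ℤ),
      (∀ l, ∀ x ∈ J, (T l) *ᵥ x ∈ J) → CompData p e h J → ∃ y, Off U y ∧ ζ - y ∈ J := by
  by_contra hcon
  push Not at hcon
  choose p hp hlt J hJT hJC hζJ using hcon
  choose hkill v hv1 hv2 using hJC
  choose d hd0 hd using hv1
  choose s hs using hv2
  set I : Ideal SZ := dvdIdeal p (e + 1) with hI
  set 𝔫 : Ideal SZ := dvdIdeal p 1 with h𝔫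
  have h𝔫max : 𝔫.IsMaximal := dvdIdeal_isMaximal p hp
  set 𝔪 : Ideal (SZ ⧸ I) := 𝔫.map (Ideal.Quotient.mk I) with h𝔪
  have hI𝔫 : I ≤ 𝔫 := dvdIdeal_anti p (by omega)
  have h𝔪max : 𝔪.IsMaximal := by
    rcases Ideal.map_eq_top_or_isMaximal_of_surjective _ (Ideal.Quotient.mk_surjective (I := I))
      h𝔫max with h | h
    · exfalso
      apply h𝔫max.ne_top
      have h1 := congrArg (Ideal.comap (Ideal.Quotient.mk I)) h
      rw [Ideal.comap_map_of_surjective _ Ideal.Quotient.mk_surjective, Ideal.comap_top] at h1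
      rw [← h1, eq_comm, sup_eq_left]
      intro x hx
      rw [Ideal.mem_comap, Ideal.mem_bot, Ideal.Quotient.eq_zero_iff_mem] at hx
      exact hI𝔫 hx
    · exact h
  have hnil : IsNilpotent 𝔪 := by
    refine ⟨e + 1, ?_⟩
    rw [h𝔪, ← Ideal.map_pow, Ideal.zero_eq_bot, Ideal.map_eq_bot_iff_le_ker, Ideal.mk_ker]
    exact dvdIdeal_pow p (e + 1)
  have hu : ∀ n : ℕ, n ≠ 0 → IsUnit (n : SZ ⧸ I) := by
    intro m hm
    have h2 : ∀ n, ∃ b : ℤ, m < p n → (p n : ℤ) ^ (e + 1) ∣ m * b - 1 := by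
      intro n
      by_cases h : m < p n
      · obtain ⟨b, hb⟩ := exists_inv (p n) (hp n) (e + 1) m (by
          rw [Int.natCast_dvd_natCast]
          intro hd
          have := Nat.le_of_dvd (by omega) hd
          omega)
        exact ⟨b, fun _ => hb⟩
      · exact ⟨0, fun h' => absurd h' h⟩
    choose b hb using h2
    refine IsUnit.of_mul_eq_one (Ideal.Quotient.mk I b) ?_
    have h3 : ((m : SZ ⧸ I)) = Ideal.Quotient.mk I (m : SZ) := (map_natCast (Ideal.Quotient.mk I) m).symm
    rw [h3, ← map_mul, ← sub_eq_zero, ← map_one (Ideal.Quotient.mk I), ← map_sub,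
      Ideal.Quotient.eq_zero_iff_mem, hI, mem_dvdIdeal]
    have h4 : ∀ᶠ n in (hyperfilter ℕ : Filter ℕ), m ≤ n :=
      Nat.hyperfilter_le_atTop (eventually_ge_atTop m)
    filter_upwards [h4] with n hn
    exact hb n (lt_of_le_of_lt hn (hlt n))
  obtain ⟨k, hk, hkc, σ, hσ⟩ := exists_coeff_field (SZ ⧸ I) 𝔪 hnil hu
  -- the module
  set N := seqSub h J with hN
  have htors : Module.IsTorsionBySet SZ ((Fin h → SZ) ⧸ N) I := by
    rintro x ⟨a, ha⟩
    obtain ⟨y, rfl⟩ := Submodule.Quotient.mk_surjective N x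
    change (a • (Submodule.Quotient.mk y : (Fin h → SZ) ⧸ N)) = 0
    rw [← Submodule.Quotient.mk_smul, Submodule.Quotient.mk_eq_zero, hN, mem_seqSub]
    rw [SetLike.mem_coe, hI, mem_dvdIdeal] at ha
    filter_upwards [ha] with n hn
    obtain ⟨b, hb⟩ := hn
    have e1 : (fun i => (a • y) i n) = b • ((p n : ℤ) • ((p n : ℤ) ^ e • fun i => y i n)) := by
      ext i
      simp only [Pi.smul_apply, smul_eq_mul, Pi.mul_apply]
      rw [hb]
      ring
    rw [e1]
    exact (J n).zsmul_mem ((J n).zsmul_mem (hkill n _) _) _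
  let instM : Module (SZ ⧸ I) ((Fin h → SZ) ⧸ N) := htors.module
  have hsm : ∀ (a : SZ) (x : Fin h → SZ), (Ideal.Quotient.mk I a) •
      (Submodule.Quotient.mk x : (Fin h → SZ) ⧸ N) = Submodule.Quotient.mk (a • x) := by
    intro a x
    rw [Submodule.Quotient.mk_smul]
    exact htors.mk_smul a _
  have hsum : ∀ {κ : Type} [Fintype κ] (f : κ → Fin h → SZ),
      ∑ j, (Submodule.Quotient.mk (f j) : (Fin h → SZ) ⧸ N) = Submodule.Quotient.mk (∑ j, f j) :=
    fun f => (map_sum N.mkQ f univ).symm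
  have hTN : ∀ l, N ≤ N.comap ((T l).map (Int.castRingHom SZ)).mulVecLin := by
    intro l x hx
    rw [Submodule.mem_comap, hN, mem_seqSub]
    rw [hN, mem_seqSub] at hx
    filter_upwards [hx] with n hn
    have e1 : (fun i => (((T l).map (Int.castRingHom SZ)).mulVecLin x) i n) =
        (T l) *ᵥ (fun i => x i n) := by
      ext i
      simp only [mulVecLin_apply, mulVec, dotProduct, Finset.sum_apply, Pi.mul_apply, map_apply,
        eq_intCast, Pi.intCast_apply, Int.cast_id]
    rw [e1]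
    exact hJT n l _ hn
  let τ : ι → ((Fin h → SZ) ⧸ N) →ₗ[SZ ⧸ I] ((Fin h → SZ) ⧸ N) := fun l =>
    { toFun := Submodule.mapQ N N ((T l).map (Int.castRingHom SZ)).mulVecLin (hTN l)
      map_add' := map_add _
      map_smul' := by
        intro a x
        obtain ⟨a, rfl⟩ := Ideal.Quotient.mk_surjective a
        have h1 : ∀ y : (Fin h → SZ) ⧸ N, (Ideal.Quotient.mk I a) • y = a • y := fun y =>
          htors.mk_smul a y
        rw [h1, RingHom.id_apply, h1, map_smul] }
  have hex := quo_of_module (T := T) (U := U) (e := e) 𝔪 σ hσ ((Fin h → SZ) ⧸ N)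
    (fun i => Submodule.Quotient.mk (Pi.single i 1)) τ ?_
    (fun j => Submodule.Quotient.mk (fun i n => v n j i)) ?_ ?_ ζ ?_
  · obtain ⟨Q, hQ, hQζ⟩ := hex
    exact hQζ (hζ k Q hQ)
  · intro l i
    change Submodule.mapQ N N ((T l).map (Int.castRingHom SZ)).mulVecLin (hTN l) _ = _
    rw [Submodule.mapQ_apply]
    have h1 : ∀ j, ((T l j i : SZ ⧸ I)) • (Submodule.Quotient.mk (Pi.single j 1) : (Fin h → SZ) ⧸ N) =
        Submodule.Quotient.mk (((T l j i : SZ)) • (Pi.single j 1)) := by
      intro j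
      rw [← hsm, map_intCast]
    simp_rw [h1]
    rw [hsum]
    congr 1
    rw [mulVecLin_apply, mulVec_single_one]
    ext j : 1
    rw [Finset.sum_apply, Finset.sum_eq_single_of_mem j (mem_univ _)]
    · simp
    · intro b _ hb
      simp [Pi.single_eq_of_ne (Ne.symm hb)]
  · intro x
    obtain ⟨y, rfl⟩ := Submodule.Quotient.mk_surjective N x
    refine ⟨fun j => Ideal.Quotient.mk I (fun n => s n (fun i => y i n) j), ?_⟩
    simp_rw [hsm]
    rw [hsum, Submodule.Quotient.eq, hN, mem_seqSub]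
    filter_upwards with n
    have h1 := hs n (fun i => y i n)
    convert h1 using 1
    ext i
    simp only [Pi.sub_apply, Finset.sum_apply, Pi.smul_apply, smul_eq_mul, Pi.mul_apply]
  · intro i m hm
    rw [h𝔪, Ideal.mem_map_iff_of_surjective _ Ideal.Quotient.mk_surjective] at hm
    obtain ⟨a, ha, rfl⟩ := hm
    rw [h𝔫, mem_dvdIdeal] at ha
    have h2 : ∀ n, ∃ b : ℤ, (p n : ℤ) ^ 1 ∣ a n → a n = p n * b := by
      intro n
      by_cases h : (p n : ℤ) ^ 1 ∣ a n
      · obtain ⟨b, hb⟩ := h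
        exact ⟨b, fun _ => by rw [hb, pow_one]⟩
      · exact ⟨0, fun h' => absurd h' h⟩
    choose b hb using h2
    refine ⟨fun j => Ideal.Quotient.mk I (fun n => b n * d n i j), ?_, ?_⟩
    · intro j hij
      rw [Ideal.Quotient.eq_zero_iff_mem, hI, mem_dvdIdeal]
      filter_upwards with n
      rw [hd0 n i j hij, mul_zero]
      exact dvd_zero _
    · simp_rw [hsm]
      rw [hsum, Submodule.Quotient.eq, hN, mem_seqSub]
      filter_upwards [ha] with n hn
      have h1 := (J n).zsmul_mem (hd n i) (b n)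
      convert h1 using 1
      ext i'
      simp only [Pi.sub_apply, Finset.sum_apply, Pi.smul_apply, smul_eq_mul, Pi.mul_apply]
      rw [hb n hn, mul_sub, Finset.mul_sum]
      congr 1
      · ring
      · exact sum_congr rfl fun j _ => by ring
  · have h1 : ∀ j, ((ζ j : SZ ⧸ I)) • (Submodule.Quotient.mk (Pi.single j 1) : (Fin h → SZ) ⧸ N) =
        Submodule.Quotient.mk (((ζ j : SZ)) • (Pi.single j 1)) := by
      intro j
      rw [← hsm, map_intCast]
    simp_rw [h1]
    rintro ⟨b, hb, hb'⟩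
    have h2 : ∀ j, ∃ a : SZ, Ideal.Quotient.mk I a = b j ∧ (j ∈ U → a = 0) := by
      intro j
      by_cases hj : j ∈ U
      · exact ⟨0, by rw [hb j hj, map_zero], fun _ => rfl⟩
      · obtain ⟨a, ha⟩ := Ideal.Quotient.mk_surjective (b j)
        exact ⟨a, ha, fun h => absurd h hj⟩
    choose a ha ha0 using h2
    have h3 : ∀ j, b j • (Submodule.Quotient.mk (Pi.single j 1) : (Fin h → SZ) ⧸ N) =
        Submodule.Quotient.mk ((a j) • (Pi.single j 1)) := by
      intro j
      rw [← hsm, ha]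
    simp_rw [h3] at hb'
    rw [hsum, hsum, Submodule.Quotient.eq, hN, mem_seqSub] at hb'
    obtain ⟨n, hn⟩ := hb'.exists
    apply hζJ n (fun j => a j n)
    · intro j hj
      change a j n = 0
      rw [ha0 j hj]
      rfl
    have e1 : ∀ (c : Fin h → SZ) (i : Fin h),
        (∑ j, c j • (Pi.single j 1 : Fin h → SZ)) i = c i := by
      intro c i
      rw [Finset.sum_apply, Finset.sum_eq_single_of_mem i (mem_univ _)]
      · simp
      · intro b _ hb
        simp [Pi.single_eq_of_ne (Ne.symm hb)]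
    convert hn using 1
    ext i
    rw [Pi.sub_apply, Pi.sub_apply, Pi.sub_apply, e1, e1]
    simp

end Pool.Agent.Q26.RF
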