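import Pool.Agent.Q26.RF.Red
import Pool.Agent.Q26.RF.Log
import Pool.Agent.Q26.RF.Ultra

/-!
# The upper bound
-/

set_option autoImplicit false

namespace Pool.Agent.Q26.RF

open Finset Matrix Pool.Agent.TH91.RF

attribute [local instance 100] LieRing.ofAssociativeRing

/-- the normal subgroup attached to an ideal of the lattice containing `p` times the lattice -/
theorem group_up' {A : Type*} [Ring A] [Algebra ℚ A] {N : ℕ} {G : Type*} [Group G]
    (Φ : Filt A N) {Λ : AddSubgroup A} (hΛ : LieRg Φ Λ) (ρ : G →* A)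
    (p : ℕ) [hp : Fact p.Prime] (hpN : N + 1 < p)
    (hloc : ∀ g, ∃ x ∈ loc p Λ, ρ g = IsNilpotent.exp x)
    (J : AddSubgroup A) (hJΛ : J ≤ Λ) (hJ : ∀ u ∈ Λ, ∀ v ∈ J, u * v - v * u ∈ J)
    (hpJ : ∀ x ∈ Λ, p • x ∈ J) (hfin : Finite (Λ ⧸ J.addSubgroupOf Λ)) :
    ∃ K : Subgroup G, K.Normal ∧ K.FiniteIndex ∧
      (∀ k ∈ K, ∃ y ∈ loc p J, ρ k = IsNilpotent.exp y) ∧
      K.index ≤ Nat.card (Λ ⧸ J.addSubgroupOf Λ) := by
  have hT := hΛ.loc (p := p) hpN
  have hI := loc_idl (p := p) hpN hJΛ hJ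
  set K : Subgroup G := expSub hT hI ρ with hK
  have hnorm : K.Normal := by
    refine ⟨?_⟩
    rintro k ⟨y, hy, hky⟩ h
    obtain ⟨w, hw, hhw⟩ := hloc h
    refine ⟨_, (loc p J).sum_mem fun n hn => hT.fact_adr_mem hI hw hy n (mem_range.1 hn), ?_⟩
    rw [← hT.exp_conj_eq hw (hI.le hy), map_mul, map_mul, rho_inv ρ (hT.le w hw) hhw, hhw, hky]
  -- representatives
  have hrep : ∀ h : G, ∃ y ∈ loc p Λ, ρ h = IsNilpotent.exp y ∧ ∃ z ∈ Λ, y - z ∈ loc p J := by
    intro h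
    obtain ⟨y, ⟨m, hm, hmy⟩, hhy⟩ := hloc h
    refine ⟨y, ⟨m, hm, hmy⟩, hhy, ?_⟩
    have hp' : Prime (p : ℤ) := Nat.prime_iff_prime_int.1 hp.out
    have hm' : ¬ (p : ℤ) ∣ (m : ℤ) := by rwa [Int.natCast_dvd_natCast]
    obtain ⟨a, b, hab⟩ := (Prime.coprime_iff_not_dvd hp').2 hm'
    refine ⟨b • ((m : ℤ) • y), Λ.zsmul_mem (by rwa [natCast_zsmul]) _, m, hm, ?_⟩
    have e : m • (y - b • ((m : ℤ) • y)) = a • (p • (m • y)) := by
      have h1 : y = (a * p + b * m) • y := by rw [hab, one_smul]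
      have h2 : y - b • ((m : ℤ) • y) = (a * p) • y := by
        nth_rewrite 1 [h1]
        rw [add_smul, mul_smul b, add_sub_cancel_right]
      rw [h2, ← natCast_zsmul, ← natCast_zsmul, ← natCast_zsmul, smul_smul, smul_smul, smul_smul]
      congr 1
      ring
    rw [e]
    exact J.zsmul_mem (hpJ _ hmy) _
  choose y hy hρy z hz hyz using hrep
  have hinj : Function.Injective (fun c : G ⧸ K =>
      (QuotientAddGroup.mk (⟨z (Quotient.out c), hz _⟩ : Λ) : Λ ⧸ J.addSubgroupOf Λ)) := by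
    intro c c' hcc
    simp only at hcc
    rw [QuotientAddGroup.eq, AddSubgroup.mem_addSubgroupOf] at hcc
    set h := Quotient.out c with hh
    set h' := Quotient.out c' with hh'
    have h1 : z h' - z h ∈ J := by
      have : ((-(⟨z h, hz h⟩ : Λ) + (⟨z h', hz h'⟩ : Λ) : Λ) : A) = z h' - z h := by
        push_cast
        abel
      rwa [this] at hcc
    have h2 : y h' - y h ∈ loc p J := by
      have e : y h' - y h = (y h' - z h') + (z h' - z h) - (y h - z h) := by abel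
      rw [e]
      refine (loc p J).sub_mem ((loc p J).add_mem (hyz h') ?_) (hyz h)
      exact ⟨1, by simpa using hp.out.one_lt.ne', by simpa using h1⟩
    obtain ⟨j, hj, h3⟩ := hT.exp_coset hI (hy h) (hy h') h2
    have h4 : h⁻¹ * h' ∈ K := by
      refine ⟨j, hj, ?_⟩
      rw [map_mul, rho_inv ρ (hT.le _ (hy h)) (hρy h), hρy h', h3, ← mul_assoc,
        IsNilpotent.exp_neg_mul_exp_self (Φ.nilp (hT.le _ (hy h))), one_mul]
    have h5 : (QuotientGroup.mk h : G ⧸ K) = QuotientGroup.mk h' := QuotientGroup.eq.2 h4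
    have h8 : c = QuotientGroup.mk h := (Quotient.out_eq c).symm
    have h9 : c' = QuotientGroup.mk h' := (Quotient.out_eq c').symm
    rw [h8, h9, h5]
  have hfinK : Finite (G ⧸ K) := Finite.of_injective _ hinj
  exact ⟨K, hnorm, Subgroup.finiteIndex_of_finite_quotient, fun k hk => hk,
    Nat.card_le_card_of_injective _ hinj⟩

/-- the coordinates of a vector of the Lie algebra in terms of an integral multiple -/
theorem repr_of_emb {N h : ℕ} {L : LieSubalgebra ℚ (Matrix (Fin N) (Fin N) ℚ)}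
    (b : Module.Basis (Fin h) ℚ L) {X : Matrix (Fin N) (Fin N) ℚ} (hX : X ∈ L) {D : ℕ}
    {y : Fin h → ℤ} (hy : D • X = emb b y) (i : Fin h) :
    (D : ℚ) * b.repr ⟨X, hX⟩ i = y i := by
  rw [emb_eq] at hy
  have h1 : (D : ℚ) • (⟨X, hX⟩ : L) = ∑ i, ((y i : ℤ) : ℚ) • b i := by
    apply Subtype.val_injective
    rw [← hy, ← Nat.cast_smul_eq_nsmul ℚ]
    rfl
  have h2 := congrArg (fun v => b.repr v i) h1
  simp only [map_smul, map_sum, Finsupp.smul_apply, smul_eq_mul, Module.Basis.repr_self] at h2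
  rw [h2, Finsupp.finsetSum_apply]
  simp [Finsupp.single_apply]

variable {G : Type*} [Group G]

/-- the index of the quotient attached to a prime -/
theorem upper_prime (c : MalcevCompletion G) (H : Subgroup G) {h : ℕ}
    (b : Module.Basis (Fin h) ℚ c.L) (T : Fin h → Matrix (Fin h) (Fin h) ℤ)
    (hT : ∀ l i, ⁅b l, b i⁆ = ∑ j, (T l j i) • b j) (U : Finset (Fin h))
    (hU : ∀ g ∈ H, ∀ X, ∀ hX : X ∈ c.L, c.ρ g = IsNilpotent.exp X → Off U (b.repr ⟨X, hX⟩))
    (e : ℕ) (D : ℕ) (p : ℕ) (hp : p.Prime) (hpN : c.N + 1 < p) (hpD : ¬ p ∣ D)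
    (hD : ∀ g, ∀ X ∈ c.L, c.ρ g = IsNilpotent.exp X → D • X ∈ (emb b).range)
    (hC : RCert T U (ZMod p) e) (g : G) (X : Matrix (Fin c.N) (Fin c.N) ℚ) (hX : X ∈ c.L)
    (hgX : c.ρ g = IsNilpotent.exp X) (y : Fin h → ℤ) (hy : D • X = emb b y)
    (i : Fin h) (hi : i ∈ U) (hpy : ¬ (p : ℤ) ∣ y i) :
    ∃ K : Subgroup G, K.Normal ∧ K.FiniteIndex ∧ (∀ a ∈ H, ∀ k ∈ K, g ≠ a * k) ∧
      K.index ≤ p ^ e := by
  have hpf : Fact p.Prime := ⟨hp⟩
  have hΛ := lieRg_range b T hT c.upper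
  obtain ⟨m, P, hP, hoff⟩ := hC.off
  -- the separating quotient
  obtain ⟨j, hj⟩ : ∃ j, ∀ w : Fin h → ZMod p, Off U w →
      P j *ᵥ (fun i => (y i : ZMod p)) ≠ P j *ᵥ w := by
    by_contra hcon
    push Not at hcon
    have h1 := hoff (fun i => (y i : ZMod p)) hcon i hi
    simp only at h1
    rw [ZMod.intCast_zmod_eq_zero_iff_dvd] at h1
    exact hpy h1
  obtain ⟨A, hA⟩ := hP j
  -- the ideal
  let πj : (Fin h → ℤ) →+ (Fin e → ZMod p) :=
    { toFun := fun w => P j *ᵥ (fun i => (w i : ZMod p))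
      map_zero' := by
        have : (fun i : Fin h => (((0 : Fin h → ℤ) i : ℤ) : ZMod p)) = 0 := by
          ext i
          simp
        rw [this, mulVec_zero]
      map_add' := by
        intro u v
        have : (fun i : Fin h => (((u + v) i : ℤ) : ZMod p)) =
            (fun i => (u i : ZMod p)) + (fun i => (v i : ZMod p)) := by
          ext i
          simp
        rw [this, mulVec_add] }
  have hπ : ∀ w, πj w = P j *ᵥ (fun i => (w i : ZMod p)) := fun w => rfl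
  set J : AddSubgroup (Matrix (Fin c.N) (Fin c.N) ℚ) := πj.ker.map (emb b) with hJ
  have hJΛ : J ≤ (emb b).range := by
    rintro _ ⟨w, _, rfl⟩
    exact ⟨w, rfl⟩
  have hmemJ : ∀ w, emb b w ∈ J ↔ πj w = 0 := by
    intro w
    constructor
    · rintro ⟨w', hw', heq⟩
      rw [← emb_injective b heq]
      exact hw'
    · intro hw
      exact ⟨w, hw, rfl⟩
  have hπT : ∀ l w, πj (T l *ᵥ w) = A l *ᵥ πj w := by
    intro l w
    rw [hπ, hπ, mulVec_mulVec, ← hA l, ← mulVec_mulVec]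
    congr 1
    ext a
    simp only [mulVec, dotProduct, Int.cast_sum, Int.cast_mul, Matrix.map_apply, eq_intCast]
  have hJbr : ∀ u ∈ (emb b).range, ∀ v ∈ J, u * v - v * u ∈ J := by
    rintro _ ⟨x, rfl⟩ _ ⟨w, hw, rfl⟩
    rw [emb_bracket b T hT, hmemJ, map_sum]
    refine sum_eq_zero fun l _ => ?_
    rw [map_zsmul, hπT]
    have hw' : πj w = 0 := hw
    rw [hw', mulVec_zero, smul_zero]
  have hpJ : ∀ x ∈ (emb b).range, p • x ∈ J := by
    rintro _ ⟨w, rfl⟩
    rw [← map_nsmul, hmemJ, map_nsmul]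
    ext i
    simp
  -- the index
  have hinj : ∃ f : ((emb b).range ⧸ J.addSubgroupOf (emb b).range) → (Fin e → ZMod p),
      Function.Injective f := by
    have h1 : ∀ x : (emb b).range, ∃ w, emb b w = x := fun x => x.2
    choose w hw using h1
    refine ⟨fun x => πj (w (Quotient.out x)), ?_⟩
    intro x x' hxx
    simp only at hxx
    have h2 : -(Quotient.out x) + Quotient.out x' ∈ J.addSubgroupOf (emb b).range := by
      rw [AddSubgroup.mem_addSubgroupOf]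
      have h3 : ((-(Quotient.out x) + Quotient.out x' : (emb b).range) :
          Matrix (Fin c.N) (Fin c.N) ℚ) = emb b (-w (Quotient.out x) + w (Quotient.out x')) := by
        rw [map_add, map_neg, hw, hw]
        rfl
      rw [h3, hmemJ, map_add, map_neg, hxx]
      simp
    have h3 : (QuotientAddGroup.mk (Quotient.out x) :
        (emb b).range ⧸ J.addSubgroupOf (emb b).range) = QuotientAddGroup.mk (Quotient.out x') :=
      QuotientAddGroup.eq.2 h2
    have h8 : x = QuotientAddGroup.mk (Quotient.out x) := (Quotient.out_eq x).symm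
    have h9 : x' = QuotientAddGroup.mk (Quotient.out x') := (Quotient.out_eq x').symm
    rw [h8, h9, h3]
  obtain ⟨f, hf⟩ := hinj
  have hfin : Finite ((emb b).range ⧸ J.addSubgroupOf (emb b).range) := Finite.of_injective f hf
  have hcard : Nat.card ((emb b).range ⧸ J.addSubgroupOf (emb b).range) ≤ p ^ e := by
    refine (Nat.card_le_card_of_injective f hf).trans ?_
    rw [Nat.card_fun, Nat.card_zmod, Nat.card_eq_fintype_card, Fintype.card_fin]
  have hloc' : ∀ g, ∀ X ∈ c.L, c.ρ g = IsNilpotent.exp X → X ∈ loc p (emb b).range :=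
    fun g X hX hgX => ⟨D, hpD, hD g X hX hgX⟩
  have hloc : ∀ g, ∃ x ∈ loc p (emb b).range, c.ρ g = IsNilpotent.exp x := by
    intro g
    obtain ⟨X, hX, hgX⟩ := c.exp_mem g
    exact ⟨X, hloc' g X hX hgX, hgX⟩
  obtain ⟨K, hKn, hKf, hKJ, hKi⟩ := group_up' (matFilt c.N) hΛ c.ρ p hpN hloc J hJΛ hJbr hpJ hfin
  refine ⟨K, hKn, hKf, ?_, hKi.trans hcard⟩
  intro a ha k hk hgak
  have hTl := hΛ.loc (p := p) hpN
  have hI := loc_idl (p := p) hpN hJΛ hJbr
  obtain ⟨η, hη, haη⟩ := c.exp_mem a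
  have hηloc := hloc' a η hη haη
  obtain ⟨ξ, hξ, hkξ⟩ := hKJ k hk
  obtain ⟨j', hj', h1⟩ := hTl.exp_mul_idl hI hηloc hξ
  have h2 : X = η + j' := by
    refine (matFilt c.N).exp_inj (hTl.le _ (hloc' g X hX hgX)) (hTl.le _
      ((loc p (emb b).range).add_mem hηloc (hI.le hj'))) ?_
    rw [← h1, ← hgX, hgak, map_mul, haη, hkξ]
  obtain ⟨yη, hyη⟩ := hD a η hη haη
  have hoffη : Off U yη := by
    intro i hi
    have h3 := repr_of_emb b hη hyη.symm i
    have h4 := hU a ha η hη haη i hi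
    rw [h4, mul_zero] at h3
    exact_mod_cast h3.symm
  obtain ⟨m', hm', hmJ⟩ := hj'
  have h5 : emb b (m' • (y - yη)) = D • (m' • j') := by
    rw [map_nsmul, map_sub, ← hy, hyη, h2, smul_add, add_sub_cancel_left, smul_comm]
  have h6 : emb b (m' • (y - yη)) ∈ J := by
    rw [h5]
    exact J.nsmul_mem hmJ D
  rw [hmemJ, map_nsmul, map_sub] at h6
  have h7 : πj y - πj yη = 0 := by
    ext t
    have h8 := congrFun h6 t
    rw [Pi.smul_apply, nsmul_eq_mul, Pi.zero_apply, mul_eq_zero] at h8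
    rcases h8 with h8 | h8
    · exfalso
      rw [ZMod.natCast_eq_zero_iff] at h8
      exact hm' h8
    · exact h8
  refine hj (fun i => (yη i : ZMod p)) ?_ (sub_eq_zero.1 h7)
  intro i hi
  simp only
  rw [hoffη i hi, Int.cast_zero]

/-- **The upper bound.** -/
theorem upper (c : MalcevCompletion G) (H : Subgroup G) {S : Set G} (hS : S.Finite)
    (hgen : Subgroup.closure S = ⊤) {h : ℕ}
    (b : Module.Basis (Fin h) ℚ c.L) (T : Fin h → Matrix (Fin h) (Fin h) ℤ)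
    (hT : ∀ l i, ⁅b l, b i⁆ = ∑ j, (T l j i) • b j) (U : Finset (Fin h))
    (hU : ∀ g ∈ H, ∀ X, ∀ hX : X ∈ c.L, c.ρ g = IsNilpotent.exp X → Off U (b.repr ⟨X, hX⟩))
    (e : ℕ) (hF : RFull T U ℂ e) :
    ∃ C : ℕ, ∀ n : ℕ, 1 ≤ n → ∀ g, wordLen S g ≤ n →
      ∀ X, ∀ hX : X ∈ c.L, c.ρ g = IsNilpotent.exp X → ¬ Off U (b.repr ⟨X, hX⟩) →
      ∃ K : Subgroup G, K.Normal ∧ K.FiniteIndex ∧ (∀ a ∈ H, ∀ k ∈ K, g ≠ a * k) ∧
        (K.index : ℝ) ≤ C * (Real.log n + 1) ^ e := by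
  have hρ : ∀ g, c.ρ g - 1 ∈ (matFilt c.N).F 1 := by
    intro g
    obtain ⟨X, hX, hgX⟩ := c.exp_mem g
    rw [hgX]
    refine (matFilt c.N).exp_sub_one_mem ?_
    rw [mem_matFilt]
    intro i j hij
    refine c.upper _ hX i j ?_
    rw [Fin.le_def]
    omega
  obtain ⟨D, C₁, hD0, hlog⟩ := log_bound c.upper b c.ρ hρ hS hgen
  obtain ⟨C₂, hgood⟩ := good_prime hF (c.N + 1 + D)
  have hD : ∀ g, ∀ X ∈ c.L, c.ρ g = IsNilpotent.exp X → D • X ∈ (emb b).range := by
    intro g X hX hgX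
    obtain ⟨y, hy, _⟩ := hlog _ g le_rfl X hX hgX
    exact ⟨y, hy.symm⟩
  -- the constant
  set κ : ℝ := Real.log (C₁ + 1) + c.N + 1 with hκ
  have hκ0 : 0 ≤ κ := by
    have : 0 ≤ Real.log ((C₁ : ℝ) + 1) := Real.log_nonneg (by
      have : (0 : ℝ) ≤ C₁ := Nat.cast_nonneg _
      linarith)
    positivity
  refine ⟨⌈(C₂ * κ) ^ e⌉₊, ?_⟩
  intro n hn g hg X hX hgX hnoff
  obtain ⟨y, hy, hyb⟩ := hlog n g hg X hX hgX
  unfold Off at hnoff
  push Not at hnoff
  obtain ⟨i, hi, hri⟩ := hnoff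
  have hyi : y i ≠ 0 := by
    intro h0
    have h1 := repr_of_emb b hX hy i
    rw [h0, Int.cast_zero, mul_eq_zero] at h1
    rcases h1 with h1 | h1
    · exact hD0.ne' (by exact_mod_cast h1)
    · exact hri h1
  obtain ⟨p, hp, hlt, hC, hpz, hple⟩ := hgood (y i).natAbs (Int.natAbs_ne_zero.2 hyi)
  obtain ⟨K, hKn, hKf, hK, hKi⟩ := upper_prime c H b T hT U hU e D p hp (by omega) (by
    intro hd
    have := Nat.le_of_dvd hD0 hd
    omega) hD hC g X hX hgX y hy i hi (by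
    intro hd
    apply hpz
    rw [← Int.natAbs_natCast p]
    exact Int.natAbs_dvd_natAbs.2 hd)
  refine ⟨K, hKn, hKf, hK, ?_⟩
  have hnR : (1 : ℝ) ≤ n := by exact_mod_cast hn
  have hln : 0 ≤ Real.log n := Real.log_nonneg hnR
  -- the bound for the logarithm
  have h1 : ((y i).natAbs : ℝ) ≤ (C₁ + 1) * ((n : ℝ) + 1) ^ c.N := by
    have h2 := hyb i
    have h3 : (((y i).natAbs : ℕ) : ℚ) ≤ C₁ * ((n : ℚ) + 1) ^ c.N := by
      rw [← Int.cast_abs, Int.abs_eq_natAbs] at h2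
      exact_mod_cast h2
    have h4 : ((((y i).natAbs : ℕ) : ℚ) : ℝ) ≤ ((C₁ * ((n : ℚ) + 1) ^ c.N : ℚ) : ℝ) := by
      exact_mod_cast h3
    push_cast at h4
    have h5 : (0 : ℝ) ≤ ((n : ℝ) + 1) ^ c.N := by positivity
    linarith
  have hy0 : (0 : ℝ) < ((y i).natAbs : ℝ) := by
    exact_mod_cast Int.natAbs_pos.2 hyi
  have h2 : Real.log ((y i).natAbs : ℝ) + 1 ≤ κ * (Real.log n + 1) := by
    have h3 := Real.log_le_log hy0 h1
    have hC1 : (0 : ℝ) < (C₁ : ℝ) + 1 := by positivity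
    rw [Real.log_mul hC1.ne' (by positivity), Real.log_pow] at h3
    have h4 : Real.log ((n : ℝ) + 1) ≤ Real.log n + 1 := by
      have h5 : (n : ℝ) + 1 ≤ n * Real.exp 1 := by
        have : 2 ≤ Real.exp 1 := by
          have := Real.add_one_le_exp (1 : ℝ)
          linarith
        nlinarith
      calc Real.log (n + 1) ≤ Real.log (n * Real.exp 1) := Real.log_le_log (by linarith) h5
        _ = Real.log n + 1 := by
          rw [Real.log_mul (by linarith) (Real.exp_ne_zero _), Real.log_exp]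
    have h5 : 0 ≤ Real.log ((C₁ : ℝ) + 1) := Real.log_nonneg (by
      have : (0 : ℝ) ≤ C₁ := Nat.cast_nonneg _
      linarith)
    have h6 : (c.N : ℝ) * Real.log ((n : ℝ) + 1) ≤ c.N * (Real.log n + 1) :=
      mul_le_mul_of_nonneg_left h4 (Nat.cast_nonneg _)
    have h7 : Real.log ((C₁ : ℝ) + 1) ≤ Real.log ((C₁ : ℝ) + 1) * (Real.log n + 1) := by
      nlinarith
    rw [hκ]
    nlinarith
  have h3 : (p : ℝ) ≤ C₂ * κ * (Real.log n + 1) := by
    refine hple.trans ?_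
    rw [mul_assoc]
    exact mul_le_mul_of_nonneg_left h2 (Nat.cast_nonneg _)
  calc (K.index : ℝ) ≤ (p : ℝ) ^ e := by exact_mod_cast hKi
    _ ≤ (C₂ * κ * (Real.log n + 1)) ^ e := pow_le_pow_left₀ (Nat.cast_nonneg _) h3 e
    _ = (C₂ * κ) ^ e * (Real.log n + 1) ^ e := by rw [mul_pow]
    _ ≤ ⌈(C₂ * κ) ^ e⌉₊ * (Real.log n + 1) ^ e := by
      refine mul_le_mul_of_nonneg_right (Nat.le_ceil _) ?_
      positivity

end Pool.Agent.Q26.RF
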